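import Pool.Agent.Helper93_LSF.QMF
import Pool.Agent.Helper96_LEC.Sym

/-!
# The Lyapunov exponent near the effective band edge, uniformly in the energy
-/

set_option autoImplicit false

open MeasureTheory ProbabilityTheory Function Filter

open scoped ENNReal BigOperators Topology NNReal

noncomputable section

namespace Pool.Agent.LE.H93F

open Pool.Agent.Anderson Pool.Agent.Loc Pool.Agent.Mob Pool.Agent.Helper54.Bal Pool.Agent.BED
  Pool.Agent.LE.H93W Pool.Agent.LE.H93Z Pool.Agent.LE.CL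

/-- the properties of the effective band edge `Es` at the scale `t` -/
structure Edge (d : ℕ) (ε c C σ t Es : ℝ) : Prop where
  pos : |Es - 2 * d| ≤ C * (σ ^ 2 + 1 / t)
  exp : |σ|⁻¹ ^ 3 ≤ t → |Es - (2 * d + watson d * σ ^ 2)| ≤ C * |σ| ^ (2 + 1 / (24 * d : ℝ))
  low : ∀ E g : ℝ, Es + 1 / t ≤ E → LyaAt d σ E g → c * Real.sqrt (min (E - Es) 1) ≤ g
  asy : ∀ E g : ℝ, Es + 1 / t ≤ E → E ≤ Es + c → LyaAt d σ E g →
    (1 - ε) * Real.sqrt (E - Es) ≤ g ∧ g ≤ (1 + ε) * Real.sqrt (E - Es)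
  up : ∀ E g : ℝ, |E - Es| ≤ c → LyaAt d σ E g →
    g ≤ C * Real.sqrt (|E - Es| + 1 / t) * Real.log t ^ 2

/-- two effective edges, at the scales `t`, `t' ≥ 1 / u` -/
theorem close1 {d : ℕ} {ε c C t a ε' c' C' t' b σ u : ℝ} (hA : Edge d ε c C σ t a)
    (hB : Edge d ε' c' C' σ t' b) (hε : ε ≤ 1 / 2) (hε' : ε' ≤ 1 / 2) (hu : 0 < u)
    (ht : 1 / t ≤ u) (ht' : 1 / t' ≤ u) (hc : |a - b| + u ≤ c) (hc' : u ≤ c')
    (hex : ∀ E, ∃ g, LyaAt d σ E g) : b - a ≤ 8 * u := by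
  by_contra hcon
  push Not at hcon
  obtain ⟨g, hg⟩ := hex (b + u)
  have h1 := (hB.asy (b + u) g (by linarith only [ht']) (by linarith only [hc']) hg).2
  have h2 := neg_abs_le (a - b)
  have h3 := (hA.asy (b + u) g (by linarith only [hcon, ht, hu]) (by linarith only [h2, hc]) hg).1
  have e1 : b + u - b = u := by ring
  rw [e1] at h1
  have hs : 0 < Real.sqrt u := Real.sqrt_pos.2 hu
  have h4 : (1 + ε') * Real.sqrt u ≤ 3 / 2 * Real.sqrt u :=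
    mul_le_mul_of_nonneg_right (by linarith only [hε']) hs.le
  have h5 : 3 * Real.sqrt u < Real.sqrt (b + u - a) := by
    have e2 : 3 * Real.sqrt u = Real.sqrt (9 * u) := by
      rw [Real.sqrt_mul (by norm_num)]
      congr 1
      rw [show (9 : ℝ) = 3 ^ 2 by norm_num, Real.sqrt_sq (by norm_num)]
    rw [e2]
    exact Real.sqrt_lt_sqrt (by positivity) (by linarith only [hcon])
  have h6 : 1 / 2 * Real.sqrt (b + u - a) ≤ (1 - ε) * Real.sqrt (b + u - a) :=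
    mul_le_mul_of_nonneg_right (by linarith only [hε]) (Real.sqrt_nonneg _)
  linarith only [h6, h5, h4, h3, h1]

theorem close {d : ℕ} {ε c C t a ε' c' C' t' b σ u : ℝ} (hA : Edge d ε c C σ t a)
    (hB : Edge d ε' c' C' σ t' b) (hε : ε ≤ 1 / 2) (hε' : ε' ≤ 1 / 2) (hu : 0 < u)
    (ht : 1 / t ≤ u) (ht' : 1 / t' ≤ u) (hc : |a - b| + u ≤ c) (hc' : |a - b| + u ≤ c')
    (hex : ∀ E, ∃ g, LyaAt d σ E g) : |a - b| ≤ 8 * u := by
  have h0 := abs_nonneg (a - b)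
  rw [abs_le]
  constructor
  · have := close1 hA hB hε hε' hu ht ht' hc (by linarith only [h0, hc']) hex
    linarith only [this]
  · have := close1 hB hA hε' hε hu ht' ht (by rw [abs_sub_comm]; exact hc') (by linarith only [h0, hc]) hex
    linarith only [this]

theorem growth_mono (d : ℕ) {t t' : ℝ} (ht : 1 ≤ t) (htt : t ≤ t') :
    growth d t ≤ growth d t' := by
  unfold growth
  split_ifs
  · exact Real.sqrt_le_sqrt htt
  · have := Real.log_le_log (by linarith only [ht]) htt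
    linarith only [this]
  · exact le_rfl

theorem growth_cond (d : ℕ) {σ t t' c : ℝ} (ht : 1 ≤ t) (htt : t ≤ t')
    (h : σ ^ 2 * growth d t' * Real.log t' ≤ c) : σ ^ 2 * growth d t * Real.log t ≤ c := by
  refine le_trans ?_ h
  have h1 := growth_mono d ht htt
  have h2 := Real.log_le_log (by linarith only [ht]) htt
  have h3 := Real.log_nonneg ht
  have h4 := one_le_growth d ht
  have h5 := sq_nonneg σ
  exact mul_le_mul (mul_le_mul_of_nonneg_left h1 h5) h2 h3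
    (mul_nonneg h5 (by linarith only [h4, h1]))

/-- a larger window -/
theorem window_K (d : ℕ) {c K : ℝ} (hc : 0 < c) (hK : 1 ≤ K) : ∃ c' σ' : ℝ, 0 < c' ∧ c' ≤ c ∧
    0 < σ' ∧ ∀ σ : ℝ, σ ≠ 0 → |σ| ≤ σ' → K * LOC.window d c σ ≤ LOC.window d c' σ := by
  obtain ⟨c', hc'⟩ : ∃ c' : ℝ, c' = c / (K + 1) := ⟨_, rfl⟩
  have hc'0 : 0 < c' := by rw [hc']; positivity
  have hc'K : c' * (K + 1) = c := by rw [hc']; field_simp
  have hc'2 : c' ≤ c / 2 := by nlinarith only [hc'K, hK, hc]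
  have hc'c : c' ≤ c := by linarith only [hc'2, hc]
  have hlK : 0 ≤ Real.log K := Real.log_nonneg hK
  obtain ⟨s, hs⟩ : ∃ s : ℝ, s = min 1 (c / (2 * Real.log K + 1)) := ⟨_, rfl⟩
  have hs0 : 0 < s := by rw [hs]; positivity
  have hs1 : s ≤ 1 := by rw [hs]; exact min_le_left _ _
  have hs2 : s * (2 * Real.log K + 1) ≤ c := by
    have : s ≤ c / (2 * Real.log K + 1) := by rw [hs]; exact min_le_right _ _
    rwa [le_div_iff₀ (by positivity)] at this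
  refine ⟨c', s, hc'0, hc'c, hs0, ?_⟩
  intro σ hσ hσs
  have hσ0 : 0 < |σ| := abs_pos.2 hσ
  have key : ∀ x : ℝ, 0 < x → x ≤ s → K * Real.exp (-c / x) ≤ Real.exp (-c' / x) := by
    intro x hx hxs
    have h1 : Real.log K + -c / x ≤ -c' / x := by
      have h2 : Real.log K ≤ (c - c') / x := by
        rw [le_div_iff₀ hx]
        calc Real.log K * x ≤ Real.log K * s := mul_le_mul_of_nonneg_left hxs hlK
          _ ≤ c - c' := by nlinarith only [hs2, hlK, hc'2, hc]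
      have h3 : -c' / x = (c - c') / x + -c / x := by ring
      rw [h3]
      linarith only [h2]
    calc K * Real.exp (-c / x) = Real.exp (Real.log K + -c / x) := by
          rw [Real.exp_add, Real.exp_log (by linarith only [hK])]
      _ ≤ _ := Real.exp_le_exp.2 h1
  unfold LOC.window
  split_ifs
  · have h1 : 0 ≤ σ ^ 4 * (1 + Real.log (1 / |σ|)) ^ 2 := by positivity
    rw [le_div_iff₀ hc'0]
    calc K * (σ ^ 4 * (1 + Real.log (1 / |σ|)) ^ 2 / c) * c' =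
          (σ ^ 4 * (1 + Real.log (1 / |σ|)) ^ 2) * (K * c' / c) := by ring
      _ ≤ (σ ^ 4 * (1 + Real.log (1 / |σ|)) ^ 2) * 1 := by
          refine mul_le_mul_of_nonneg_left ?_ h1
          rw [div_le_one hc]
          linarith only [hc'K, hc'0]
      _ = _ := mul_one _
  · exact key |σ| hσ0 hσs
  · refine key (σ ^ 2) (by positivity) ?_
    rw [← sq_abs]
    have h1 : |σ| ^ 2 ≤ |σ| ^ 1 := pow_le_pow_of_le_one hσ0.le (by linarith only [hσs, hs1]) (by norm_num)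
    rw [pow_one] at h1
    linarith only [h1, hσs]

theorem window_le_half (d : ℕ) {c σ : ℝ} (hc : 0 < c) (hc4 : c ≤ 1 / 4) (hσ : σ ≠ 0)
    (hσc : |σ| ≤ c) : LOC.window d c σ ≤ 1 / 2 := by
  have hσ0 : 0 < |σ| := abs_pos.2 hσ
  have he : Real.exp (-1) ≤ 1 / 2 := by
    rw [Real.exp_neg, ← one_div]
    refine one_div_le_one_div_of_le (by norm_num) ?_
    have := Real.add_one_le_exp 1
    linarith only [this]
  unfold LOC.window
  split_ifs
  · rw [div_le_iff₀ hc]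
    have h1 : 1 + Real.log (1 / |σ|) ≤ 1 / |σ| := by
      have := Real.log_le_sub_one_of_pos (show 0 < 1 / |σ| by positivity)
      linarith only [this]
    have h2 : 0 ≤ 1 + Real.log (1 / |σ|) := by
      have : 0 ≤ Real.log (1 / |σ|) := Real.log_nonneg (by
        rw [le_div_iff₀ hσ0]
        linarith only [hσc, hc4])
      linarith only [this]
    have h3 : σ ^ 4 = |σ| ^ 4 := by
      rw [← abs_pow]
      exact (abs_of_nonneg (by positivity)).symm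
    calc σ ^ 4 * (1 + Real.log (1 / |σ|)) ^ 2 ≤ |σ| ^ 4 * (1 / |σ|) ^ 2 := by
          rw [h3]
          exact mul_le_mul_of_nonneg_left (pow_le_pow_left₀ h2 h1 2) (by positivity)
      _ = |σ| * |σ| := by field_simp
      _ ≤ 1 / 2 * c := mul_le_mul (by linarith only [hσc, hc4]) hσc hσ0.le (by norm_num)
  · refine le_trans (Real.exp_le_exp.2 ?_) he
    rw [div_le_iff₀ hσ0]
    linarith only [hσc]
  · refine le_trans (Real.exp_le_exp.2 ?_) he
    rw [div_le_iff₀ (by positivity)]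
    have h1 : σ ^ 2 ≤ c := by
      rw [← sq_abs]
      have h2 : |σ| ^ 2 ≤ |σ| ^ 1 := pow_le_pow_of_le_one hσ0.le (by linarith only [hσc, hc4]) (by norm_num)
      rw [pow_one] at h2
      linarith only [h2, hσc]
    linarith only [h1]

/-- above the edge: from the edge `b` to the edge `a` -/
theorem shift_asy {d : ℕ} {ε c c₂ C₂ σ t₂ a b W : ℝ} (hε : 0 < ε) (hε1 : ε < 1)
    (hB : Edge d (ε / 2) c₂ C₂ σ t₂ b) (hc : 0 < c) (k2 : c ≤ c₂ / 4) (hW0 : 0 < W)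
    (hab : a - b + c ≤ c₂)
    (hEb : ∀ E : ℝ, a + W ≤ E → (1 - ε / 4) * (E - a) ≤ E - b ∧
      E - b ≤ (1 + ε / 4) * (E - a) ∧ b + 1 / t₂ ≤ E) :
    (∀ E g : ℝ, a + W ≤ E → LyaAt d σ E g → c * Real.sqrt (min (E - a) 1) ≤ g) ∧
    ∀ E g : ℝ, a + W ≤ E → E ≤ a + c → LyaAt d σ E g →
      (1 - ε) * Real.sqrt (E - a) ≤ g ∧ g ≤ (1 + ε) * Real.sqrt (E - a) := by
  constructor
  · intro E g hE hg
    obtain ⟨e1, e2, e3⟩ := hEb E hE
    refine le_trans ?_ (hB.low E g e3 hg)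
    have hx : 0 < E - a := by linarith only [hE, hW0]
    have h1 : 1 / 4 * min (E - a) 1 ≤ min (E - b) 1 := by
      refine le_min ?_ ?_
      · have h3 := min_le_left (E - a) 1
        have h4 : 3 / 4 * (E - a) ≤ (1 - ε / 4) * (E - a) :=
          mul_le_mul_of_nonneg_right (by linarith only [hε1]) hx.le
        linarith only [h4, h3, e1, hE, hW0]
      · have h3 := min_le_right (E - a) 1
        linarith only [h3]
    have h2 : 1 / 2 * Real.sqrt (min (E - a) 1) ≤ Real.sqrt (min (E - b) 1) := by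
      refine le_trans (le_of_eq ?_) (Real.sqrt_le_sqrt h1)
      rw [Real.sqrt_mul (by norm_num), show (1 / 4 : ℝ) = (1 / 2) ^ 2 by norm_num,
        Real.sqrt_sq (by norm_num)]
    have h3 := Real.sqrt_nonneg (min (E - a) 1)
    have hc₂ : 0 < c₂ := by linarith only [k2, hc]
    calc c * Real.sqrt (min (E - a) 1) ≤ c₂ / 4 * Real.sqrt (min (E - a) 1) :=
          mul_le_mul_of_nonneg_right k2 h3
      _ ≤ c₂ * (1 / 2 * Real.sqrt (min (E - a) 1)) := by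
          have : 0 ≤ c₂ * Real.sqrt (min (E - a) 1) := by positivity
          linarith only [this]
      _ ≤ _ := mul_le_mul_of_nonneg_left h2 hc₂.le
  · intro E g hE hE2 hg
    obtain ⟨e1, e2, e3⟩ := hEb E hE
    have hx : 0 < E - a := by linarith only [hE, hW0]
    obtain ⟨r1, r2⟩ := hB.asy E g e3 (by linarith only [hE2, hab]) hg
    have hs := Real.sqrt_nonneg (E - a)
    have s1 : (1 - ε / 4) * Real.sqrt (E - a) ≤ Real.sqrt (E - b) := by
      have h1 : Real.sqrt ((1 - ε / 4) ^ 2 * (E - a)) ≤ Real.sqrt (E - b) := by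
        refine Real.sqrt_le_sqrt (le_trans ?_ e1)
        refine mul_le_mul_of_nonneg_right ?_ hx.le
        nlinarith only [hε1, hε]
      rwa [Real.sqrt_mul (sq_nonneg _), Real.sqrt_sq (by linarith only [hε1])] at h1
    have s2 : Real.sqrt (E - b) ≤ (1 + ε / 4) * Real.sqrt (E - a) := by
      have h1 : Real.sqrt (E - b) ≤ Real.sqrt ((1 + ε / 4) ^ 2 * (E - a)) := by
        refine Real.sqrt_le_sqrt (e2.trans ?_)
        refine mul_le_mul_of_nonneg_right ?_ hx.le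
        nlinarith only [hε]
      rwa [Real.sqrt_mul (sq_nonneg _), Real.sqrt_sq (by linarith only [hε])] at h1
    constructor
    · refine le_trans ?_ r1
      calc (1 - ε) * Real.sqrt (E - a) ≤ (1 - ε / 2) * (1 - ε / 4) * Real.sqrt (E - a) :=
            mul_le_mul_of_nonneg_right (by nlinarith only [hε]) hs
        _ = (1 - ε / 2) * ((1 - ε / 4) * Real.sqrt (E - a)) := by ring
        _ ≤ _ := mul_le_mul_of_nonneg_left s1 (by linarith only [hε1])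
    · refine r2.trans ?_
      calc (1 + ε / 2) * Real.sqrt (E - b) ≤ (1 + ε / 2) * ((1 + ε / 4) * Real.sqrt (E - a)) :=
            mul_le_mul_of_nonneg_left s2 (by linarith only [hε])
        _ = (1 + ε / 2) * (1 + ε / 4) * Real.sqrt (E - a) := by ring
        _ ≤ _ := mul_le_mul_of_nonneg_right (by nlinarith only [hε1, hε]) hs

/-- below and above the edge: the upper bound with the best scale -/
theorem shift_up {d : ℕ} {c₀ C₀ c σ t₀ a W : ℝ}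
    (h₀ : ∀ σ t : ℝ, σ ≠ 0 → |σ| ≤ c₀ → 1 / |σ| ≤ t → σ ^ 2 * growth d t * Real.log t ≤ c₀ →
      ∃ Es, Edge d (1 / 2) c₀ C₀ σ t Es) (hC₀ : 0 < C₀)
    (hσ : σ ≠ 0) (hσ1 : |σ| ≤ 1) (hE₀ : Edge d (1 / 2) c₀ C₀ σ t₀ a)
    (hσt₀ : 1 / |σ| ≤ t₀) (w2 : σ ^ 2 * growth d t₀ * Real.log t₀ ≤ c₀)
    (h1W : 1 / t₀ ≤ W) (hW0 : 0 < W) (hcW : c + W ≤ 1) (hc₀ : c + 8 * |σ| ≤ c₀)
    (hc₀' : 4 * (C₀ * |σ|) + |σ| ≤ c₀) (hc : 0 < c)
    (hex' : ∀ E, ∃ g, LyaAt d σ E g) (E g : ℝ) (hE : |E - a| ≤ c) (hg : LyaAt d σ E g) :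
    g ≤ 4 * C₀ * Real.sqrt (|E - a| + W) *
      (Real.log (1 / |σ|) + Real.log (1 / (|E - a| + W))) ^ 2 := by
  have hσ0 : 0 < |σ| := abs_pos.2 hσ
  have hσsq : σ ^ 2 ≤ |σ| := by
    rw [← sq_abs]
    have h1 : |σ| ^ 2 ≤ |σ| ^ 1 := pow_le_pow_of_le_one hσ0.le hσ1 (by norm_num)
    rwa [pow_one] at h1
  have hsinv : 1 ≤ |σ|⁻¹ := by
    rw [le_inv_comm₀ (by norm_num) hσ0]
    linarith only [hσ1]
  have ht₀0 : 0 < t₀ := lt_of_lt_of_le (by positivity) hσt₀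
  have hu₀ : 1 / t₀ ≤ |σ| := by
    rw [div_le_iff₀ ht₀0]
    rw [div_le_iff₀ hσ0] at hσt₀
    linarith only [hσt₀]
  have haσ : |a - 2 * d| ≤ 2 * (C₀ * |σ|) := by
    refine hE₀.pos.trans ?_
    have := mul_le_mul_of_nonneg_left (by linarith only [hu₀, hσsq] : σ ^ 2 + 1 / t₀ ≤ 2 * |σ|) hC₀.le
    linarith only [this]
  obtain ⟨lam, hlam⟩ : ∃ lam : ℝ, lam = |E - a| + W := ⟨_, rfl⟩
  rw [← hlam]
  have hEa0 := abs_nonneg (E - a)
  have hWl : W ≤ lam := by linarith only [hEa0, hlam]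
  have hl0 : 0 < lam := by linarith only [hEa0, hlam, hW0]
  have hl1 : lam ≤ 1 := by linarith only [hlam, hE, hcW]
  obtain ⟨t₁, ht₁⟩ : ∃ t : ℝ, t = max (1 / |σ|) (1 / lam) := ⟨_, rfl⟩
  have hσt₁ : 1 / |σ| ≤ t₁ := by rw [ht₁]; exact le_max_left _ _
  have hlt₁ : 1 / lam ≤ t₁ := by rw [ht₁]; exact le_max_right _ _
  have ht₁0 : 0 < t₁ := lt_of_lt_of_le (by positivity) hσt₁
  have ht₁1 : 1 ≤ t₁ := by
    refine le_trans ?_ hσt₁
    rw [one_div]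
    exact hsinv
  have ht₁t₀ : t₁ ≤ t₀ := by
    rw [ht₁]
    refine max_le hσt₀ ?_
    rw [div_le_iff₀ hl0]
    rw [div_le_iff₀ ht₀0] at h1W
    have := mul_le_mul_of_nonneg_left hWl ht₀0.le
    linarith only [this, h1W]
  have hu₁ : 1 / t₁ ≤ |σ| := by
    rw [div_le_iff₀ ht₁0]
    rw [div_le_iff₀ hσ0] at hσt₁
    linarith only [hσt₁]
  have hul : 1 / t₁ ≤ lam := by
    rw [div_le_iff₀ ht₁0]
    rw [div_le_iff₀ hl0] at hlt₁
    linarith only [hlt₁]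
  have hu₁0 : 0 < 1 / t₁ := by positivity
  obtain ⟨b₁, hB₁⟩ := h₀ σ t₁ hσ (by linarith only [hσ0, hc, hc₀]) hσt₁
    (growth_cond d ht₁1 ht₁t₀ w2)
  have hb₁σ : |b₁ - 2 * d| ≤ 2 * (C₀ * |σ|) := by
    refine hB₁.pos.trans ?_
    have := mul_le_mul_of_nonneg_left (by linarith only [hu₁, hσsq] : σ ^ 2 + 1 / t₁ ≤ 2 * |σ|) hC₀.le
    linarith only [this]
  have hab₁ : |a - b₁| ≤ 4 * (C₀ * |σ|) := by
    have h1 : a - b₁ = (a - 2 * d) - (b₁ - 2 * d) := by ring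
    rw [h1]
    refine (abs_sub _ _).trans ?_
    linarith only [hb₁σ, haσ]
  have hcl₁ : |a - b₁| ≤ 8 * (1 / t₁) := by
    refine close hE₀ hB₁ le_rfl le_rfl hu₁0 ?_ le_rfl ?_ ?_ hex'
    · exact one_div_le_one_div_of_le ht₁0 ht₁t₀
    · linarith only [hab₁, hu₁, hc₀']
    · linarith only [hab₁, hu₁, hc₀']
  have hEb₁ : |E - b₁| ≤ |E - a| + 8 * (1 / t₁) := by
    have h1 : E - b₁ = (E - a) + (a - b₁) := by ring
    rw [h1]
    exact (abs_add_le _ _).trans (by linarith only [hcl₁])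
  have h1 := hB₁.up E g (by linarith only [hEb₁, hu₁, hE, hc₀]) hg
  refine h1.trans ?_
  have h2 : Real.sqrt (|E - b₁| + 1 / t₁) ≤ 4 * Real.sqrt lam := by
    have h3 : Real.sqrt (|E - b₁| + 1 / t₁) ≤ Real.sqrt (4 ^ 2 * lam) :=
      Real.sqrt_le_sqrt (by linarith only [hEb₁, hul, hEa0, hlam, hW0])
    rwa [Real.sqrt_mul (by norm_num), Real.sqrt_sq (by norm_num)] at h3
  have h4 : 0 ≤ Real.log (1 / |σ|) := Real.log_nonneg (by rw [one_div]; exact hsinv)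
  have h5 : 0 ≤ Real.log (1 / lam) := Real.log_nonneg (by
    rw [le_div_iff₀ hl0]
    linarith only [hlam, hE, hcW])
  have h6 : Real.log t₁ ≤ Real.log (1 / |σ|) + Real.log (1 / lam) := by
    rw [ht₁]
    rcases max_choice (1 / |σ|) (1 / lam) with h | h
    · rw [h]; linarith only [h5]
    · rw [h]; linarith only [h4]
  have h7 : Real.log t₁ ^ 2 ≤ (Real.log (1 / |σ|) + Real.log (1 / lam)) ^ 2 :=
    pow_le_pow_left₀ (Real.log_nonneg ht₁1) h6 2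
  calc C₀ * Real.sqrt (|E - b₁| + 1 / t₁) * Real.log t₁ ^ 2
      ≤ C₀ * (4 * Real.sqrt lam) * (Real.log (1 / |σ|) + Real.log (1 / lam)) ^ 2 := by
        gcongr
    _ = _ := by ring

/-- Everything near the effective band edge, with one function `Es`. -/
theorem near_edge (qmf : QmfStmt)
    (hex : ∀ (d : ℕ) (σ E : ℝ), 1 ≤ d → σ ≠ 0 → ∃ g, LyaAt d σ E g) :
    ∀ d : ℕ, 3 ≤ d → ∃ Es : ℝ → ℝ, ∀ ε : ℝ, 0 < ε → ε < 1 →
      ∃ c C : ℝ, 0 < c ∧ c ≤ 1 / 4 ∧ 0 < C ∧ ∀ σ : ℝ, σ ≠ 0 → |σ| ≤ c →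
        |Es σ - (2 * d + watson d * σ ^ 2)| ≤ C * |σ| ^ (2 + 1 / (24 * d : ℝ)) ∧
        (∀ E g : ℝ, Es σ + LOC.window d c σ ≤ E → LyaAt d σ E g →
          c * Real.sqrt (min (E - Es σ) 1) ≤ g) ∧
        (∀ E g : ℝ, Es σ + LOC.window d c σ ≤ E → E ≤ Es σ + c → LyaAt d σ E g →
          (1 - ε) * Real.sqrt (E - Es σ) ≤ g ∧ g ≤ (1 + ε) * Real.sqrt (E - Es σ)) ∧
        ∀ E g : ℝ, |E - Es σ| ≤ c → LyaAt d σ E g →
          g ≤ C * Real.sqrt (|E - Es σ| + LOC.window d c σ) *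
            (Real.log (1 / |σ|) + Real.log (1 / (|E - Es σ| + LOC.window d c σ))) ^ 2 := by
  intro d hd
  have hd1 : 1 ≤ d := by omega
  obtain ⟨c₀, C₀, hc₀, hC₀, h₀'⟩ := qmf d (1 / 2) hd (by norm_num) (by norm_num)
  have h₀ : ∀ σ t : ℝ, σ ≠ 0 → |σ| ≤ c₀ → 1 / |σ| ≤ t → σ ^ 2 * growth d t * Real.log t ≤ c₀ →
      ∃ Es, Edge d (1 / 2) c₀ C₀ σ t Es := by
    intro σ t h1 h2 h3 h4
    obtain ⟨Es, e1, e2, e3, e4, e5⟩ := h₀' σ t h1 h2 h3 h4
    exact ⟨Es, e1, e2, e3, e4, e5⟩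
  obtain ⟨c₁, σ₁, hc₁, hσ₁, hσ₁1, hwin₁⟩ := LOC.window_spec d hc₀
  have hexE : ∀ σ : ℝ, ∃ Es : ℝ, σ ≠ 0 → |σ| ≤ min (min c₀ σ₁) (1 / 2) →
      Edge d (1 / 2) c₀ C₀ σ (LOC.window d c₁ σ)⁻¹ Es := by
    intro σ
    by_cases h : σ ≠ 0 ∧ |σ| ≤ min (min c₀ σ₁) (1 / 2)
    · obtain ⟨h1, h2⟩ := h
      have h3 : |σ| ≤ c₀ := h2.trans ((min_le_left _ _).trans (min_le_left _ _))
      have h4 : |σ| ≤ σ₁ := h2.trans ((min_le_left _ _).trans (min_le_right _ _))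
      have h6 : |σ| ≤ 1 / 2 := h2.trans (min_le_right _ _)
      obtain ⟨w0, w1, w2⟩ := hwin₁ σ h1 h4
      have hσ0 : 0 < |σ| := abs_pos.2 h1
      have h5 : 1 / |σ| ≤ (LOC.window d c₁ σ)⁻¹ := by
        refine le_trans ?_ w1
        rw [one_div]
        refine le_self_pow₀ ?_ (by norm_num)
        rw [le_inv_comm₀ (by norm_num) hσ0]
        linarith only [h4, hσ₁1]
      obtain ⟨Es, hEs⟩ := h₀ σ _ h1 h3 h5 w2
      exact ⟨Es, fun _ _ => hEs⟩
    · exact ⟨0, fun h1 h2 => absurd ⟨h1, h2⟩ h⟩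
  choose Es hEs using hexE
  refine ⟨Es, ?_⟩
  intro ε hε hε1
  obtain ⟨c₂, C₂, hc₂, hC₂, h₂⟩ := qmf d (ε / 2) hd (by linarith only [hε]) (by linarith only [hε1])
  obtain ⟨c₃, σ₃, hc₃, hσ₃, hσ₃1, hwin₃⟩ := LOC.window_spec d hc₂
  obtain ⟨K, hK⟩ : ∃ K : ℝ, K = 32 / ε := ⟨_, rfl⟩
  have hK1 : 1 ≤ K := by
    rw [hK, le_div_iff₀ hε]
    linarith only [hε1]
  obtain ⟨c₄, σ₄, hc₄, hc₄', hσ₄, hwK⟩ := window_K d (lt_min hc₁ hc₃) hK1
  obtain ⟨c, hc⟩ : ∃ c : ℝ, c = min (min (min (c₀ / 4) (c₂ / 4)) (min σ₁ σ₃))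
    (min (min (min c₄ σ₄) (1 / 4)) (min (c₀ / (16 * C₀ + 16 * C₂ + 36))
      (c₂ / (16 * C₀ + 16 * C₂ + 36)))) := ⟨_, rfl⟩
  have hc0 : 0 < c := by rw [hc]; positivity
  have k1 : c ≤ c₀ / 4 := by
    rw [hc]; exact (min_le_left _ _).trans ((min_le_left _ _).trans (min_le_left _ _))
  have k2 : c ≤ c₂ / 4 := by
    rw [hc]; exact (min_le_left _ _).trans ((min_le_left _ _).trans (min_le_right _ _))
  have k3 : c ≤ σ₁ := by
    rw [hc]; exact (min_le_left _ _).trans ((min_le_right _ _).trans (min_le_left _ _))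
  have k4 : c ≤ σ₃ := by
    rw [hc]; exact (min_le_left _ _).trans ((min_le_right _ _).trans (min_le_right _ _))
  have k5 : c ≤ c₄ := by
    rw [hc]; exact (min_le_right _ _).trans ((min_le_left _ _).trans ((min_le_left _ _).trans
      (min_le_left _ _)))
  have k6 : c ≤ σ₄ := by
    rw [hc]; exact (min_le_right _ _).trans ((min_le_left _ _).trans ((min_le_left _ _).trans
      (min_le_right _ _)))
  have k7 : c ≤ 1 / 4 := by
    rw [hc]; exact (min_le_right _ _).trans ((min_le_left _ _).trans (min_le_right _ _))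
  have k8 : c * (16 * C₀ + 16 * C₂ + 36) ≤ c₀ := by
    have : c ≤ c₀ / (16 * C₀ + 16 * C₂ + 36) := by
      rw [hc]; exact (min_le_right _ _).trans ((min_le_right _ _).trans (min_le_left _ _))
    rwa [le_div_iff₀ (by positivity)] at this
  have k9 : c * (16 * C₀ + 16 * C₂ + 36) ≤ c₂ := by
    have : c ≤ c₂ / (16 * C₀ + 16 * C₂ + 36) := by
      rw [hc]; exact (min_le_right _ _).trans ((min_le_right _ _).trans (min_le_right _ _))
    rwa [le_div_iff₀ (by positivity)] at this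
  refine ⟨c, 4 * C₀, hc0, k7, by positivity, ?_⟩
  intro σ hσ hσc
  have hσ0 : 0 < |σ| := abs_pos.2 hσ
  have hσ4 : |σ| ≤ 1 / 4 := hσc.trans k7
  have hσsq : σ ^ 2 ≤ |σ| := by
    rw [← sq_abs]
    have h1 : |σ| ^ 2 ≤ |σ| ^ 1 := pow_le_pow_of_le_one hσ0.le (by linarith only [hσc, k3, hσ₁1]) (by norm_num)
    rwa [pow_one] at h1
  have hσsq0 := sq_nonneg σ
  have hex' : ∀ E, ∃ g, LyaAt d σ E g := fun E => hex d σ E hd1 hσ
  have hE₀ := hEs σ hσ (le_min (le_min (hσc.trans (by linarith only [k1, hc₀])) (hσc.trans k3))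
    (by linarith only [hσc, k7]))
  obtain ⟨w0, w1, w2⟩ := hwin₁ σ hσ (hσc.trans k3)
  obtain ⟨v0, v1, v2⟩ := hwin₃ σ hσ (hσc.trans k4)
  have hsinv : 1 ≤ |σ|⁻¹ := by
    rw [le_inv_comm₀ (by norm_num) hσ0]
    linarith only [hσc, k3, hσ₁1]
  have hs3 : |σ|⁻¹ ≤ |σ|⁻¹ ^ 3 := le_self_pow₀ hsinv (by norm_num)
  obtain ⟨a, ha⟩ : ∃ a : ℝ, a = Es σ := ⟨_, rfl⟩
  rw [← ha] at hE₀ ⊢
  obtain ⟨t₀, ht₀⟩ : ∃ t : ℝ, t = (LOC.window d c₁ σ)⁻¹ := ⟨_, rfl⟩
  rw [← ht₀] at hE₀ w1 w2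
  obtain ⟨t₂, ht₂⟩ : ∃ t : ℝ, t = (LOC.window d c₃ σ)⁻¹ := ⟨_, rfl⟩
  rw [← ht₂] at v1 v2
  have ht₀0 : 0 < t₀ := by rw [ht₀]; positivity
  have ht₂0 : 0 < t₂ := by rw [ht₂]; positivity
  have h1t₀ : 1 / t₀ = LOC.window d c₁ σ := by rw [ht₀, one_div, inv_inv]
  have h1t₂ : 1 / t₂ = LOC.window d c₃ σ := by rw [ht₂, one_div, inv_inv]
  have hσt₀ : 1 / |σ| ≤ t₀ := by rw [one_div]; linarith only [w1, hs3]
  have hσt₂ : 1 / |σ| ≤ t₂ := by rw [one_div]; linarith only [v1, hs3]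
  have hu₀ : 1 / t₀ ≤ |σ| := by
    rw [div_le_iff₀ ht₀0]
    rw [div_le_iff₀ hσ0] at hσt₀
    linarith only [hσt₀]
  have hu₂ : 1 / t₂ ≤ |σ| := by
    rw [div_le_iff₀ ht₂0]
    rw [div_le_iff₀ hσ0] at hσt₂
    linarith only [hσt₂]
  -- the window
  obtain ⟨W, hW⟩ : ∃ W : ℝ, W = LOC.window d c σ := ⟨_, rfl⟩
  rw [← hW]
  obtain ⟨u, hu⟩ : ∃ u : ℝ, u = LOC.window d (min c₁ c₃) σ := ⟨_, rfl⟩
  have hKW : K * u ≤ W := by
    rw [hu, hW]
    exact (hwK σ hσ (hσc.trans k6)).trans (LOC.window_anti d hc0 k5)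
  have h1u : 1 / t₀ ≤ u := by
    rw [h1t₀, hu]
    exact LOC.window_anti d (lt_min hc₁ hc₃) (min_le_left _ _)
  have h2u : 1 / t₂ ≤ u := by
    rw [h1t₂, hu]
    exact LOC.window_anti d (lt_min hc₁ hc₃) (min_le_right _ _)
  have hu0 : 0 < u := lt_of_lt_of_le (by positivity) h1u
  have huW : u ≤ W := by nlinarith only [h1u, hKW, h1t₀, w0, hK1]
  have hW0 : 0 < W := lt_of_lt_of_le hu0 huW
  have h1W : 1 / t₀ ≤ W := h1u.trans huW
  have haσ : |a - 2 * d| ≤ 2 * C₀ * |σ| := by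
    refine hE₀.pos.trans ?_
    have := mul_le_mul_of_nonneg_left (by linarith only [hu₀, hσsq] : σ ^ 2 + 1 / t₀ ≤ 2 * |σ|) hC₀.le
    linarith only [this]
  have huσ : u ≤ |σ| := by
    rw [hu]
    rcases min_choice c₁ c₃ with h | h
    · rw [h, ← h1t₀]; exact hu₀
    · rw [h, ← h1t₂]; exact hu₂
  have hW12 : W ≤ 1 / 2 := by rw [hW]; exact window_le_half d hc0 k7 hσ hσc
  refine ⟨hE₀.exp w1 |>.trans ?_, ?_⟩
  · refine mul_le_mul_of_nonneg_right ?_ (Real.rpow_nonneg hσ0.le _)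
    linarith only [hC₀]
  -- the edge for `ε / 2`
  obtain ⟨b, q1, q2, q3, q4, q5⟩ := h₂ σ t₂ hσ (hσc.trans (by linarith only [k2, hc₂])) hσt₂ v2
  have hB : Edge d (ε / 2) c₂ C₂ σ t₂ b := ⟨q1, q2, q3, q4, q5⟩
  have hbσ : |b - 2 * d| ≤ 2 * C₂ * |σ| := by
    refine hB.pos.trans ?_
    have := mul_le_mul_of_nonneg_left (by linarith only [hu₂, hσsq] : σ ^ 2 + 1 / t₂ ≤ 2 * |σ|) hC₂.le
    linarith only [this]
  have hCσ : (16 * C₀ + 16 * C₂ + 36) * |σ| ≤ c * (16 * C₀ + 16 * C₂ + 36) := by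
    rw [mul_comm c]
    exact mul_le_mul_of_nonneg_left hσc (by positivity)
  have hC₀σ : 0 < C₀ * |σ| := by positivity
  have hC₂σ : 0 < C₂ * |σ| := by positivity
  have hCsum : (16 * C₀ + 16 * C₂ + 36) * |σ| = 16 * (C₀ * |σ|) + 16 * (C₂ * |σ|) + 36 * |σ| := by
    ring
  have hab : |a - b| ≤ 2 * (C₀ * |σ|) + 2 * (C₂ * |σ|) := by
    have h1 : a - b = (a - 2 * d) - (b - 2 * d) := by ring
    rw [h1]
    refine (abs_sub _ _).trans ?_
    linarith only [hbσ, haσ]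
  have hcl : |a - b| ≤ 8 * u := by
    refine close hE₀ hB le_rfl (by linarith only [hε1]) hu0 h1u h2u ?_ ?_ hex'
    · linarith only [hab, hCσ, huσ, hσ0, k8, hc₀]
    · linarith only [hab, hCσ, huσ, hσ0, k9, hc₂]
  have hab' := abs_le.1 hcl
  have hθ : ∀ E : ℝ, a + W ≤ E → 8 * u ≤ ε / 4 * (E - a) := by
    intro E hE
    have h1 : K * u ≤ E - a := by linarith only [hE, hKW]
    have h2 : ε / 4 * (K * u) = 8 * u := by
      rw [hK]
      field_simp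
      ring
    rw [← h2]
    exact mul_le_mul_of_nonneg_left h1 (by linarith only [hε])
  have hEb : ∀ E : ℝ, a + W ≤ E → (1 - ε / 4) * (E - a) ≤ E - b ∧
      E - b ≤ (1 + ε / 4) * (E - a) ∧ b + 1 / t₂ ≤ E := by
    intro E hE
    have h1 := hθ E hE
    have h2 : 32 * u ≤ K * u := by
      refine mul_le_mul_of_nonneg_right ?_ hu0.le
      rw [hK, le_div_iff₀ hε]
      linarith only [hε1]
    refine ⟨by linarith, by linarith, ?_⟩
    linarith
  have hasy := shift_asy hε hε1 hB hc0 k2 hW0 (by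
    have := le_abs_self (a - b)
    linarith only [this, hab, hCsum, hCσ, k9, k2, hC₀σ, hC₂σ, hσ0]) hEb
  refine ⟨hasy.1, hasy.2, ?_⟩
  intro E g hE hg
  exact shift_up h₀ hC₀ hσ (by linarith only [hσ4]) hE₀ hσt₀ w2 h1W hW0
    (by linarith only [hW12, k7]) (by linarith only [k1, hCsum, hCσ, k8, hC₀σ, hC₂σ, hσc, hσ0])
    (by linarith only [hCsum, hCσ, k8, hC₀σ, hC₂σ, hσ0]) hc0 hex' E g hE hg

end Pool.Agent.LE.H93F
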