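import Pool.Agent.Helper93_LSF.Main
import Pool.Agent.LE.StmtsP
import Pool.Agent.Helper42_LE.MainJ
import Pool.Agent.Helper96_LE.AllR

/-!
# The Lyapunov exponent at weak disorder
-/

set_option autoImplicit false

open MeasureTheory ProbabilityTheory Filter

open scoped ENNReal ComplexInnerProductSpace Topology

noncomputable section

namespace Pool.Agent.LE.H93F

open Pool.Agent.Anderson Pool.Agent.Loc Pool.Agent.Helper54.Bal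

universe u

variable {d : ℕ}

/-- the Lyapunov exponent is unique -/
theorem lya_unique {σ E g g' : ℝ} (h : Pool.Agent.LE.LyaAt d σ E g)
    (h' : Pool.Agent.LE.LyaAt d σ E g') : g = g' := by
  have key : ∀ {a b : ℝ}, Pool.Agent.LE.LyaAt d σ E a → Pool.Agent.LE.LyaAt d σ E b →
      ¬ a < b := by
    intro a b ha hb hab
    have h3 := (ha.2 ((b - a) / 2) (by linarith)).1
    have h4 := (hb.2 ((b - a) / 2) (by linarith)).2
    have e : b - (b - a) / 2 = a + (b - a) / 2 := by ring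
    rw [e] at h4
    have h5 := h3.add h4
    rw [add_zero] at h5
    have h6 : (1 : ℝ≥0∞) ≤ 0 := by
      refine ge_of_tendsto' h5 fun M => ?_
      rw [← measure_univ (μ := PP d (Pool.Agent.Loc.gl σ))]
      refine (measure_mono ?_).trans (measure_union_le _ _)
      intro V _
      by_cases hV : Pool.Agent.LE.SG V M (a + (b - a) / 2) E 0
      · exact Or.inl hV
      · exact Or.inr hV
    exact absurd h6 (by norm_num)
  exact le_antisymm (not_lt.1 (key h' h)) (not_lt.1 (key h h'))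

/-- the main theorem, in terms of `pr` -/
theorem final (qmf : QmfStmt) (pbd : CL.PbdStmt) (d : ℕ) (hd : 3 ≤ d) :
    ∃ (γ : ℝ → ℝ → ℝ) (Es : ℝ → ℝ),
    (∀ σ : ℝ, σ ≠ 0 → ∀ E : ℝ, 0 ≤ γ σ E ∧ ∀ ε : ℝ, 0 < ε →
      Tendsto (H93.pr d σ E (γ σ E + ε)) atTop (𝓝 0) ∧
      Tendsto (H93.pr d σ E (γ σ E - ε)) atTop (𝓝 1)) ∧
    (∀ ε : ℝ, 0 < ε → ε < 1 → ∃ c C : ℝ, 0 < c ∧ 0 < C ∧ ∀ σ : ℝ, σ ≠ 0 → |σ| ≤ c →
      |Es σ - (2 * d + watson d * σ ^ 2)| ≤ C * |σ| ^ (2 + 1 / (24 * d : ℝ)) ∧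
      (∀ E : ℝ, Es σ + LOC.window d c σ ≤ |E| →
        c * Real.sqrt (min (|E| - Es σ) 1) ≤ γ σ E ∧
        (|E| ≤ Es σ + c → (1 - ε) * Real.sqrt (|E| - Es σ) ≤ γ σ E ∧
          γ σ E ≤ (1 + ε) * Real.sqrt (|E| - Es σ))) ∧
      (∀ E lam : ℝ, lam = |(|E| - Es σ)| + LOC.window d c σ → |(|E| - Es σ)| ≤ c →
        γ σ E ≤ C * Real.sqrt lam * (Real.log (1 / |σ|) + Real.log (1 / lam)) ^ 2) ∧
      ∀ (Ω : Type u) [MeasurableSpace Ω] (P : Measure Ω) [IsProbabilityMeasure P]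
        (ξ : Site d → Ω → ℝ), (∀ y, Measurable (ξ y)) →
        (∀ y, P.map (ξ y) = gaussianReal 0 1) → iIndepFun ξ P →
        ∀ᵐ ω ∂P, ∀ a r : ℝ,
          (∀ E ∈ Set.Icc (a - r) (a + r), Es σ + LOC.window d c σ ≤ |E|) → ∀ u w : L2 d,
          (∀ x, w x = lap u x + ((σ * ξ x ω : ℝ) : ℂ) * u x) →
          (∀ (E : ℝ) (ψ : L2 d), E ∈ Set.Icc (a - r) (a + r) →
            IsEigen (fun x => σ * ξ x ω) E ψ → ⟪ψ, u⟫ = 0) →
          r * ‖u‖ ≤ ‖w - (a : ℂ) • u‖) ∧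
    (∀ δ : ℝ, 0 < δ → ∃ c C : ℝ, 0 < c ∧ c ≤ 1 / 4 ∧ 0 < C ∧ ∀ σ E : ℝ, σ ≠ 0 → |σ| ≤ c →
      |E| ≤ 2 * d - δ → γ σ E ≤ C * σ ^ 2 * Real.log (1 / |σ|) ^ 6) ∧
    ∀ σ : ℝ, σ ≠ 0 → ∀ (Ω : Type u) [MeasurableSpace Ω] (P : Measure Ω) [IsProbabilityMeasure P]
      (ξ : Site d → Ω → ℝ), (∀ y, Measurable (ξ y)) →
      (∀ y, P.map (ξ y) = gaussianReal 0 1) → iIndepFun ξ P →
      ∀ᵐ ω ∂P, ∀ (E : ℝ) (ψ : Site d → ℂ), (∃ x, ψ x ≠ 0) →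
        (∃ (B : ℝ) (k : ℕ), ∀ x, ‖ψ x‖ ≤ B * (1 + (sd 0 x : ℝ)) ^ k) →
        (∀ x, lap ψ x + ((σ * ξ x ω : ℝ) : ℂ) * ψ x = (E : ℂ) * ψ x) →
        (∀ m : ℝ, m < γ σ E → ∃ B : ℝ, ∀ x, ‖ψ x‖ ≤ B * Real.exp (-m * sd 0 x)) ∧
        ∀ m B : ℝ, γ σ E < m → ¬ ∀ x, ‖ψ x‖ ≤ B * Real.exp (-m * sd 0 x) := by
  have hd1 : 1 ≤ d := by omega
  obtain ⟨γ, h0, -, -, h3⟩ := H42J.mainJ.{u} H96.mainGT H96.smpT H15.smn H96.algT d hd1
  have hL : ∀ σ : ℝ, σ ≠ 0 → ∀ E, LyaAt d σ E (γ σ E) := fun σ hσ E =>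
    H96.lyaAt_of_pr (h0 σ hσ E).1 (h0 σ hσ E).2
  have hex : ∀ (d : ℕ) (σ E : ℝ), 1 ≤ d → σ ≠ 0 → ∃ g, LyaAt d σ E g := by
    intro d σ E hd hσ
    obtain ⟨γ', h0', -⟩ := H96.mainRT.{0} d hd σ hσ
    exact ⟨γ' E, H96.lyaAt_of_pr (h0' E).1 (h0' E).2⟩
  obtain ⟨Es, hEs⟩ := near_edge qmf hex d hd
  -- symmetry
  have key : ∀ (σ : ℝ), σ ≠ 0 → ∀ E : ℝ, LyaAt d σ |E| (γ σ E) := by
    intro σ hσ E
    rcases abs_choice E with he | he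
    · rw [he]; exact hL σ hσ E
    · rw [he]; exact H96C.lya_negE (hL σ hσ E)
  refine ⟨γ, Es, h0, ?_, ?_, ?_⟩
  · intro ε hε hε1
    obtain ⟨c, C, hc, hc4, hC, h⟩ := hEs ε hε hε1
    refine ⟨c, C, hc, hC, ?_⟩
    intro σ hσ hσc
    have hσ0 : 0 < |σ| := abs_pos.2 hσ
    have hσ4 : |σ| ≤ 1 / 4 := hσc.trans hc4
    obtain ⟨g1, g2, g3, g4⟩ := h σ hσ hσc
    have hw0 : 0 < LOC.window d c σ := by
      have hl : 0 ≤ Real.log (1 / |σ|) := Real.log_nonneg (by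
        rw [le_div_iff₀ hσ0]
        linarith)
      unfold LOC.window
      split_ifs
      · positivity
      · exact Real.exp_pos _
      · exact Real.exp_pos _
    have hlow : ∀ E : ℝ, Es σ + LOC.window d c σ ≤ |E| →
        c * Real.sqrt (min (|E| - Es σ) 1) ≤ γ σ E := fun E hE =>
      g2 |E| (γ σ E) hE (key σ hσ E)
    refine ⟨g1, fun E hE => ⟨hlow E hE, fun hE2 => ?_⟩, ?_, ?_⟩
    · exact g3 |E| (γ σ E) hE hE2 (key σ hσ E)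
    · intro E lam hlam hE
      rw [hlam]
      exact g4 |E| (γ σ E) hE (key σ hσ E)
    · intro Ω _ P _ ξ hm hlaw hind
      obtain ⟨-, -, k3⟩ := h3 σ hσ
      obtain ⟨-, k5, -⟩ := k3 Ω P ξ hm hlaw hind
      filter_upwards [k5] with ω hω a r har u w hw hort
      refine hω a r (fun E hE => ?_) u w hw hort
      have hE := har E hE
      refine lt_of_lt_of_le ?_ (hlow E hE)
      have h2 : 0 < min (|E| - Es σ) 1 := lt_min (by linarith) one_pos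
      have := Real.sqrt_pos.2 h2
      positivity
  · intro δ hδ
    obtain ⟨c, C, hc, hc4, hC, h⟩ := pbd d δ hd hδ
    exact ⟨c, C, hc, hc4, by linarith, fun σ E hσ hσc hE => h σ E _ hσ hσc hE (hL σ hσ E)⟩
  · intro σ hσ Ω _ P _ ξ hm hlaw hind
    obtain ⟨γ', h0', -, -, h4'⟩ := H96.mainRT.{u} d hd1 σ hσ
    have hγ : ∀ E, γ' E = γ σ E := fun E =>
      lya_unique (H96.lyaAt_of_pr (h0' E).1 (h0' E).2) (hL σ hσ E)
    filter_upwards [h4' Ω P ξ hm hlaw hind] with ω hω E ψ hne hpoly hψ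
    have hr := hω E ψ hψ hpoly hne
    rw [hγ E] at hr
    exact hr

end Pool.Agent.LE.H93F
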