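import Pool.Agent.Helper93_LSF.Final
import Pool.Agent.Helper93_LSH.AllZ
import Pool.Agent.Helper54_LSC.All
import Pool.Agent.Helper48_LOC.GreenLow
import Pool.Agent.Helper48_LOC.Up
import Pool.Agent.Helper28_LOC.Low

/-!
# The Lyapunov exponent at weak disorder: all modules
-/

set_option autoImplicit false

noncomputable section

namespace Pool.Agent.LE.H93F

open Pool.Agent.LE.H93Z

theorem qmfT : QmfStmt :=
  qmf fleT sgxT smsT cdpT upxT CL.H54.penT LOC.H48.up (LOC.H28.low LOC.H48.greenLow)

end Pool.Agent.LE.H93F
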