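import Pool.Agent.Helper93_LSF.Inner3

/-!
# Between the effective band edge and the bulk: numbers
-/

set_option autoImplicit false

open MeasureTheory ProbabilityTheory Function Filter

open scoped ENNReal BigOperators Topology NNReal

noncomputable section

namespace Pool.Agent.LE.H93F

open Pool.Agent.Anderson Pool.Agent.Loc Pool.Agent.Mob Pool.Agent.Helper54.Bal Pool.Agent.BED
  Pool.Agent.LE.H93W Pool.Agent.LE.H93Z Pool.Agent.LE.CL

/-- the condition implies that `lam` is outside of the window -/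
theorem cond_window {d : ℕ} (hd3 : 3 ≤ d) {c₁ K σ lam L : ℝ} (hc₁ : 0 < c₁)
    (hK : 4 / c₁ ^ 2 + 300 / c₁ + 2 / c₁ + 1 ≤ K) (hσ : σ ≠ 0) (hσ75 : |σ| ≤ 1 / 75)
    (hl0 : 0 < lam) (hl75 : lam ≤ 1 / 75) (hL : L = Real.log (1 / |σ|) + Real.log (1 / lam))
    (hH : K * σ ^ 2 * growth d (1 / lam) ^ 2 * L ^ (2 * d + 10) ≤ lam ^ (((d : ℝ) - 4) / 2)) :
    LOC.window d c₁ σ ≤ lam / 75 := by
  have hσ0 : 0 < |σ| := abs_pos.2 hσ
  have hσ2 : 0 < σ ^ 2 := by positivity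
  have hσsq : σ ^ 2 = |σ| ^ 2 := (sq_abs σ).symm
  have hi : 75 ≤ 1 / |σ| := by
    rw [le_div_iff₀ hσ0]
    linarith only [hσ75]
  have hil : 75 ≤ 1 / lam := by
    rw [le_div_iff₀ hl0]
    linarith only [hl75]
  have hil1 : 1 ≤ 1 / lam := by linarith only [hil]
  have hlog75 : 1 ≤ Real.log 75 := by
    rw [Real.le_log_iff_exp_le (by norm_num)]
    have := Real.exp_one_lt_d9
    linarith only [this]
  have hlσ : Real.log 75 ≤ Real.log (1 / |σ|) := Real.log_le_log (by norm_num) hi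
  have hll : Real.log 75 ≤ Real.log (1 / lam) := Real.log_le_log (by norm_num) hil
  have hL1 : 1 ≤ L := by linarith only [hL, hlσ, hll, hlog75]
  have hL0 : 0 < L := by linarith only [hL1]
  have q1 : 0 < 4 / c₁ ^ 2 := by positivity
  have q2 : 0 < 300 / c₁ := by positivity
  have q3 : 0 < 2 / c₁ := by positivity
  have hK1 : 1 ≤ K := by linarith only [hK, q1, q2, q3]
  have hK0 : 0 < K := by linarith only [hK1]
  have hG1 : 1 ≤ growth d (1 / lam) := one_le_growth d hil1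
  have hlll : Real.log (1 / lam) = -Real.log lam := by rw [one_div, Real.log_inv]
  -- an exponential window
  have hexp : ∀ w : ℝ, 2 * L ≤ w → Real.exp (-w) ≤ lam / 75 := by
    intro w hw
    have h1 : -w ≤ Real.log (lam / 75) := by
      rw [Real.log_div hl0.ne' (by norm_num)]
      linarith only [hw, hL, hlσ, hll, hlll, hlog75]
    calc Real.exp (-w) ≤ Real.exp (Real.log (lam / 75)) := Real.exp_le_exp.2 h1
      _ = lam / 75 := Real.exp_log (by positivity)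
  by_cases h3 : d = 3
  · subst h3
    unfold LOC.window
    rw [if_pos rfl]
    have e : (((3 : ℕ) : ℝ) - 4) / 2 = -(1 / 2) := by norm_num
    unfold growth at hH
    rw [if_pos rfl, e, Real.rpow_neg hl0.le, ← Real.sqrt_eq_rpow,
      Real.sq_sqrt (by positivity)] at hH
    have hs0 : 0 < Real.sqrt lam := Real.sqrt_pos.2 hl0
    have hs2 : Real.sqrt lam ^ 2 = lam := Real.sq_sqrt hl0.le
    -- `K σ² L¹⁶ ≤ √lam`
    have h1 : K * σ ^ 2 * L ^ 16 ≤ Real.sqrt lam := by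
      have h2 := mul_le_mul_of_nonneg_right hH hl0.le
      have e1 : K * σ ^ 2 * (1 / lam) * L ^ (2 * 3 + 10) * lam = K * σ ^ 2 * L ^ 16 := by
        field_simp
      have e2 : (Real.sqrt lam)⁻¹ * lam = Real.sqrt lam := by
        nth_rewrite 2 [← hs2]
        field_simp
      rw [e1, e2] at h2
      exact h2
    have h2 : (K * σ ^ 2 * L ^ 16) ^ 2 ≤ lam := by
      rw [← hs2]
      exact pow_le_pow_left₀ (by positivity) h1 2
    have h4 : 1 + Real.log (1 / |σ|) ≤ 2 * L := by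
      linarith only [hL, hL1, hll, hlog75]
    have h5 : 0 ≤ 1 + Real.log (1 / |σ|) := by linarith only [hlσ, hlog75]
    have h6 : (1 + Real.log (1 / |σ|)) ^ 2 ≤ 4 * L ^ 32 := by
      have h7 : (1 + Real.log (1 / |σ|)) ^ 2 ≤ (2 * L) ^ 2 := pow_le_pow_left₀ h5 h4 2
      have h8 : L ^ 2 ≤ L ^ 32 := pow_le_pow_right₀ hL1 (by norm_num)
      calc (1 + Real.log (1 / |σ|)) ^ 2 ≤ (2 * L) ^ 2 := h7
        _ = 4 * L ^ 2 := by ring
        _ ≤ _ := mul_le_mul_of_nonneg_left h8 (by norm_num)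
    rw [div_le_div_iff₀ hc₁ (by norm_num)]
    have h9 : 300 ≤ K * c₁ := by
      have : 300 / c₁ ≤ K := by linarith only [hK, q1, q3]
      rwa [div_le_iff₀ hc₁] at this
    calc σ ^ 4 * (1 + Real.log (1 / |σ|)) ^ 2 * 75 ≤ σ ^ 4 * (4 * L ^ 32) * 75 := by gcongr
      _ = 300 * (σ ^ 4 * L ^ 32) := by ring
      _ ≤ (K * c₁) * (σ ^ 4 * L ^ 32) := mul_le_mul_of_nonneg_right h9 (by positivity)
      _ ≤ (K * (K * c₁)) * (σ ^ 4 * L ^ 32) := by
          refine mul_le_mul_of_nonneg_right ?_ (by positivity)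
          have := mul_le_mul_of_nonneg_right hK1 (by positivity : 0 ≤ K * c₁)
          linarith only [this]
      _ = (K * σ ^ 2 * L ^ 16) ^ 2 * c₁ := by ring
      _ ≤ lam * c₁ := mul_le_mul_of_nonneg_right h2 hc₁.le
  · -- `K σ² L ^ (2 d + 10) ≤ 1`
    have hd4 : (4 : ℝ) ≤ d := by
      have : 4 ≤ d := by omega
      exact_mod_cast this
    have h1 : K * σ ^ 2 * L ^ (2 * d + 10) ≤ 1 := by
      have h2 : lam ^ (((d : ℝ) - 4) / 2) ≤ 1 :=
        Real.rpow_le_one hl0.le (by linarith only [hl75]) (by linarith only [hd4])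
      have h3 : (1 : ℝ) ≤ growth d (1 / lam) ^ 2 := one_le_pow₀ hG1
      calc K * σ ^ 2 * L ^ (2 * d + 10) = K * σ ^ 2 * 1 * L ^ (2 * d + 10) := by ring
        _ ≤ K * σ ^ 2 * growth d (1 / lam) ^ 2 * L ^ (2 * d + 10) := by gcongr
        _ ≤ 1 := hH.trans h2
    have h2 : K * σ ^ 2 * L ^ 2 ≤ 1 := by
      refine le_trans ?_ h1
      have : L ^ 2 ≤ L ^ (2 * d + 10) := pow_le_pow_right₀ hL1 (by omega)
      exact mul_le_mul_of_nonneg_left this (by positivity)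
    unfold LOC.window
    rw [if_neg h3]
    split_ifs with h4
    · -- `exp (- c₁ / |σ|)`
      rw [neg_div]
      refine hexp _ ?_
      rw [le_div_iff₀ hσ0]
      have h5 : 4 ≤ K * c₁ ^ 2 := by
        have : 4 / c₁ ^ 2 ≤ K := by linarith only [hK, q2, q3]
        rwa [div_le_iff₀ (by positivity)] at this
      have h6 : (2 * L * |σ|) ^ 2 ≤ c₁ ^ 2 := by
        have h7 : 4 * (σ ^ 2 * L ^ 2) ≤ (K * c₁ ^ 2) * (σ ^ 2 * L ^ 2) :=
          mul_le_mul_of_nonneg_right h5 (by positivity)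
        have h8 : (K * σ ^ 2 * L ^ 2) * c₁ ^ 2 ≤ 1 * c₁ ^ 2 :=
          mul_le_mul_of_nonneg_right h2 (by positivity)
        calc (2 * L * |σ|) ^ 2 = 4 * (σ ^ 2 * L ^ 2) := by rw [hσsq]; ring
          _ ≤ (K * c₁ ^ 2) * (σ ^ 2 * L ^ 2) := h7
          _ = (K * σ ^ 2 * L ^ 2) * c₁ ^ 2 := by ring
          _ ≤ c₁ ^ 2 := by rw [one_mul] at h8; exact h8
      exact le_of_sq_le_sq h6 hc₁.le
    · rw [neg_div]
      refine hexp _ ?_
      rw [le_div_iff₀ hσ2]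
      have h5 : 2 ≤ K * c₁ := by
        have : 2 / c₁ ≤ K := by linarith only [hK, q1, q2]
        rwa [div_le_iff₀ hc₁] at this
      have h6 : K * σ ^ 2 * L ≤ 1 := by
        refine le_trans ?_ h2
        have : L ≤ L ^ 2 := le_self_pow₀ hL1 (by norm_num)
        exact mul_le_mul_of_nonneg_left this (by positivity)
      calc 2 * L * σ ^ 2 = 2 * (σ ^ 2 * L) := by ring
        _ ≤ (K * c₁) * (σ ^ 2 * L) := mul_le_mul_of_nonneg_right h5 (by positivity)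
        _ = (K * σ ^ 2 * L) * c₁ := by ring
        _ ≤ 1 * c₁ := mul_le_mul_of_nonneg_right h6 hc₁.le
        _ = c₁ := one_mul _

/-- `√μ (A + log (1/μ))²` is increasing for small `μ` -/
theorem sqrt_log_mono {A μ μ₀ : ℝ} (hA : 0 ≤ A) (h0 : 0 < μ) (h1 : μ ≤ μ₀)
    (h4 : 4 ≤ Real.log (1 / μ₀)) :
    Real.sqrt μ * (A + Real.log (1 / μ)) ^ 2 ≤ Real.sqrt μ₀ * (A + Real.log (1 / μ₀)) ^ 2 := by
  have hμ₀ : 0 < μ₀ := by linarith
  obtain ⟨x, hx⟩ : ∃ x : ℝ, x = Real.log (1 / μ) := ⟨_, rfl⟩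
  obtain ⟨x₀, hx₀⟩ : ∃ x : ℝ, x = Real.log (1 / μ₀) := ⟨_, rfl⟩
  rw [← hx₀] at h4
  have hxx : x₀ ≤ x := by
    rw [hx, hx₀]
    exact Real.log_le_log (by positivity) (one_div_le_one_div_of_le h0 h1)
  have hx₀0 : 0 < x₀ := by linarith
  have e1 : Real.sqrt μ = Real.exp (-(x / 2)) := by
    have : μ = Real.exp (-x) := by
      rw [hx, one_div, Real.log_inv, neg_neg, Real.exp_log h0]
    rw [this, Real.sqrt_eq_rpow, ← Real.exp_mul]
    congr 1
    ring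
  have e2 : Real.sqrt μ₀ = Real.exp (-(x₀ / 2)) := by
    have : μ₀ = Real.exp (-x₀) := by
      rw [hx₀, one_div, Real.log_inv, neg_neg, Real.exp_log hμ₀]
    rw [this, Real.sqrt_eq_rpow, ← Real.exp_mul]
    congr 1
    ring
  rw [← hx, ← hx₀, e1, e2]
  -- `(A + x) / (A + x₀) ≤ 1 + (x - x₀) / x₀ ≤ exp ((x - x₀) / 4)`
  have h5 : A + x ≤ (A + x₀) * Real.exp ((x - x₀) / 4) := by
    have h6 : 1 + (x - x₀) / 4 ≤ Real.exp ((x - x₀) / 4) := by
      have := Real.add_one_le_exp ((x - x₀) / 4)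
      linarith
    have h7 : A + x ≤ (A + x₀) * (1 + (x - x₀) / 4) := by
      have h8 : 0 ≤ (x - x₀) / 4 := by linarith
      have h9 : 4 * ((x - x₀) / 4) ≤ (A + x₀) * ((x - x₀) / 4) :=
        mul_le_mul_of_nonneg_right (by linarith) h8
      have e3 : (A + x₀) * (1 + (x - x₀) / 4) = (A + x₀) + (A + x₀) * ((x - x₀) / 4) := by ring
      rw [e3]
      linarith
    exact h7.trans (mul_le_mul_of_nonneg_left h6 (by linarith))
  have h10 : (A + x) ^ 2 ≤ ((A + x₀) * Real.exp ((x - x₀) / 4)) ^ 2 :=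
    pow_le_pow_left₀ (by linarith) h5 2
  calc Real.exp (-(x / 2)) * (A + x) ^ 2
      ≤ Real.exp (-(x / 2)) * ((A + x₀) * Real.exp ((x - x₀) / 4)) ^ 2 :=
        mul_le_mul_of_nonneg_left h10 (Real.exp_pos _).le
    _ = (Real.exp (-(x / 2)) * Real.exp ((x - x₀) / 4) ^ 2) * (A + x₀) ^ 2 := by ring
    _ = Real.exp (-(x₀ / 2)) * (A + x₀) ^ 2 := by
        congr 1
        rw [← Real.exp_nat_mul, ← Real.exp_add]
        congr 1
        push_cast
        ring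

theorem small_log (n : ℕ) {η : ℝ} (hη : 0 < η) : ∃ s : ℝ, 0 < s ∧ ∀ x : ℝ, 0 < x → x ≤ s →
    x * Real.log (1 / x) ^ n ≤ η := by
  have h1 : Tendsto (fun x : ℝ => Real.log x ^ n / (1 * x + 0)) atTop (𝓝 0) :=
    Real.tendsto_pow_log_div_mul_add_atTop 1 0 n one_ne_zero
  have h2 : ∀ᶠ x : ℝ in atTop, Real.log x ^ n / (1 * x + 0) ≤ η :=
    (h1.eventually (gt_mem_nhds hη)).mono fun x hx => hx.le
  obtain ⟨X, hX⟩ := eventually_atTop.1 h2
  refine ⟨1 / max X 1, by positivity, fun x hx hxs => ?_⟩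
  have h3 : max X 1 ≤ 1 / x := by
    rw [le_div_iff₀ hx]
    rw [le_div_iff₀ (by positivity)] at hxs
    linarith
  have h4 := hX (1 / x) ((le_max_left _ _).trans h3)
  have e : Real.log (1 / x) ^ n / (1 * (1 / x) + 0) = x * Real.log (1 / x) ^ n := by
    field_simp
    ring
  rwa [e] at h4

/-- the window is smaller than `B σ⁴ ℓ ^ 40` -/
theorem window_le_sig {d : ℕ} {c₁ B σ : ℝ} (hc₁ : 0 < c₁) (hB : 4 / c₁ + 1 ≤ B) (hσ : σ ≠ 0)
    (hσ1 : |σ| ≤ 1) (hσ2 : |σ| ≤ c₁ ^ 5 / 120) (hℓ : 1 ≤ Real.log (1 / |σ|)) :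
    LOC.window d c₁ σ ≤ B * (σ ^ 4 * Real.log (1 / |σ|) ^ 40) := by
  have hσ0 : 0 < |σ| := abs_pos.2 hσ
  have hσ4 : σ ^ 4 = |σ| ^ 4 := by
    rw [← abs_pow]
    exact (abs_of_nonneg (by positivity)).symm
  have hσsq : σ ^ 2 = |σ| ^ 2 := (sq_abs σ).symm
  obtain ⟨ℓ, hℓd⟩ : ∃ ℓ : ℝ, ℓ = Real.log (1 / |σ|) := ⟨_, rfl⟩
  rw [← hℓd] at hℓ ⊢
  have q : 0 < 4 / c₁ := by positivity
  have hB1 : 1 ≤ B := by linarith
  have hℓ40 : (1 : ℝ) ≤ ℓ ^ 40 := one_le_pow₀ hℓ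
  have key : Real.exp (-(c₁ / |σ|)) ≤ σ ^ 4 := by
    have h1 := Real.pow_div_factorial_le_exp (c₁ / |σ|) (by positivity) 5
    have h2 : (0 : ℝ) < (c₁ / |σ|) ^ 5 / (Nat.factorial 5 : ℕ) := by positivity
    have h3 : Real.exp (-(c₁ / |σ|)) ≤ ((c₁ / |σ|) ^ 5 / (Nat.factorial 5 : ℕ))⁻¹ := by
      rw [Real.exp_neg]
      exact inv_anti₀ h2 h1
    refine h3.trans ?_
    have e5 : ((Nat.factorial 5 : ℕ) : ℝ) = 120 := by norm_num [Nat.factorial]
    rw [e5, inv_div, hσ4, div_pow, div_div_eq_mul_div, div_le_iff₀ (by positivity)]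
    have h4 : |σ| * 120 ≤ c₁ ^ 5 := by
      have := hσ2
      rw [le_div_iff₀ (by norm_num)] at this
      exact this
    calc 120 * |σ| ^ 5 = |σ| ^ 4 * (|σ| * 120) := by ring
      _ ≤ |σ| ^ 4 * c₁ ^ 5 := mul_le_mul_of_nonneg_left h4 (by positivity)
  have key2 : σ ^ 4 ≤ B * (σ ^ 4 * ℓ ^ 40) := by
    have h1 : σ ^ 4 * 1 ≤ σ ^ 4 * ℓ ^ 40 := mul_le_mul_of_nonneg_left hℓ40 (by positivity)
    have h2 : 1 * (σ ^ 4 * ℓ ^ 40) ≤ B * (σ ^ 4 * ℓ ^ 40) :=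
      mul_le_mul_of_nonneg_right hB1 (by positivity)
    linarith
  unfold LOC.window
  rw [← hℓd]
  split_ifs
  · have h1 : (1 + ℓ) ^ 2 ≤ 4 * ℓ ^ 40 := by
      have h2 : (1 + ℓ) ^ 2 ≤ (2 * ℓ) ^ 2 := pow_le_pow_left₀ (by linarith) (by linarith) 2
      have h3 : ℓ ^ 2 ≤ ℓ ^ 40 := pow_le_pow_right₀ hℓ (by norm_num)
      calc (1 + ℓ) ^ 2 ≤ (2 * ℓ) ^ 2 := h2
        _ = 4 * ℓ ^ 2 := by ring
        _ ≤ _ := mul_le_mul_of_nonneg_left h3 (by norm_num)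
    calc σ ^ 4 * (1 + ℓ) ^ 2 / c₁ ≤ σ ^ 4 * (4 * ℓ ^ 40) / c₁ := by gcongr
      _ = (4 / c₁) * (σ ^ 4 * ℓ ^ 40) := by ring
      _ ≤ B * (σ ^ 4 * ℓ ^ 40) := mul_le_mul_of_nonneg_right (by linarith) (by positivity)
  · rw [neg_div]
    exact key.trans key2
  · rw [neg_div]
    refine le_trans (Real.exp_le_exp.2 ?_) (key.trans key2)
    rw [neg_le_neg_iff, hσsq]
    refine div_le_div_of_nonneg_left hc₁.le (by positivity) ?_
    have : |σ| ^ 2 ≤ |σ| ^ 1 := pow_le_pow_of_le_one hσ0.le hσ1 (by norm_num)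
    rwa [pow_one] at this

/-- the mean free path, `d = 3, 4, 5`, close to the edge -/
theorem mfp {d : ℕ} (hd3 : 3 ≤ d) (hd5 : d ≤ 5) {c₁ C₁ K : ℝ} (hc₁ : 0 < c₁) (hC₁ : 0 < C₁)
    (hK : 1 ≤ K) :
    ∃ c C : ℝ, 0 < c ∧ 1 ≤ C ∧ ∀ σ D g : ℝ, σ ≠ 0 → |σ| ≤ c → 0 ≤ D → D ≤ 1 / 75 →
      g ≤ C₁ * Real.sqrt (D + LOC.window d c₁ σ) *
        (Real.log (1 / |σ|) + Real.log (1 / (D + LOC.window d c₁ σ))) ^ 2 →
      (0 < D → K * σ ^ 2 * growth d (1 / D) ^ 2 *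
          (Real.log (1 / |σ|) + Real.log (1 / D)) ^ (2 * d + 10) ≤ D ^ (((d : ℝ) - 4) / 2) →
        g ≤ K * σ ^ 2 * growth d (1 / D) * Real.sqrt D *
          (Real.log (1 / |σ|) + Real.log (1 / D)) ^ (d + 6)) →
      g ≤ C * σ ^ 2 * Real.log (1 / |σ|) ^ 22 := by
  obtain ⟨A, hAd⟩ : ∃ A : ℝ, A = 2 * K * 5 ^ 20 + 2 * (4 / c₁ + 1) + 2 := ⟨_, rfl⟩
  have q0 : 0 < 4 / c₁ := by positivity
  have q1 : 0 < 2 * K * 5 ^ 20 := by positivity
  have hA2 : 2 ≤ A := by linarith only [hAd, q0, q1]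
  have hA0 : 0 < A := by linarith only [hA2]
  have hAK : 2 * K * 5 ^ 20 ≤ A := by linarith only [hAd, q0]
  have hAc : 2 * (4 / c₁ + 1) ≤ A := by linarith only [hAd, q1]
  obtain ⟨η, hηd⟩ : ∃ η : ℝ, η = min (Real.exp (-2) / A) (1 / (K * 5 ^ 20)) := ⟨_, rfl⟩
  have hη : 0 < η := by rw [hηd]; positivity
  have hη1 : A * η ≤ Real.exp (-2) := by
    have : η ≤ Real.exp (-2) / A := by rw [hηd]; exact min_le_left _ _
    rw [le_div_iff₀ hA0] at this
    linarith only [this]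
  have hη2 : K * 5 ^ 20 * η ≤ 1 := by
    have : η ≤ 1 / (K * 5 ^ 20) := by rw [hηd]; exact min_le_right _ _
    rw [le_div_iff₀ (by positivity)] at this
    linarith only [this]
  obtain ⟨s, hs, hsl⟩ := small_log 20 hη
  refine ⟨min (min s (1 / 75)) (c₁ ^ 5 / 120), 25 * C₁ * A + K * 5 ^ 11 + 1, by positivity, ?_, ?_⟩
  · have : 0 < 25 * C₁ * A := by positivity
    have : 0 < K * 5 ^ 11 := by positivity
    linarith
  intro σ D g hσ hσc hD0 hD75 hg1 hg2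
  have hσs : |σ| ≤ s := hσc.trans ((min_le_left _ _).trans (min_le_left _ _))
  have hσ75 : |σ| ≤ 1 / 75 := hσc.trans ((min_le_left _ _).trans (min_le_right _ _))
  have hσc₁ : |σ| ≤ c₁ ^ 5 / 120 := hσc.trans (min_le_right _ _)
  have hσ0 : 0 < |σ| := abs_pos.2 hσ
  have hσ1 : |σ| ≤ 1 := by linarith only [hσ75]
  have hσ4 : σ ^ 4 = |σ| ^ 4 := by
    rw [← abs_pow]
    exact (abs_of_nonneg (by positivity)).symm
  have hσsq : σ ^ 2 = |σ| ^ 2 := (sq_abs σ).symm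
  have hσ2 : 0 < σ ^ 2 := by positivity
  have hσ40 : 0 < σ ^ 4 := by positivity
  have hi : 75 ≤ 1 / |σ| := by
    rw [le_div_iff₀ hσ0]
    linarith only [hσ75]
  obtain ⟨ℓ, hℓd⟩ : ∃ ℓ : ℝ, ℓ = Real.log (1 / |σ|) := ⟨_, rfl⟩
  have hℓ1 : 1 ≤ ℓ := by
    rw [hℓd, Real.le_log_iff_exp_le (by positivity)]
    have := Real.exp_one_lt_d9
    linarith only [this, hi]
  have hsl' := hsl |σ| hσ0 hσs
  have hwin := window_le_sig (d := d) hc₁ le_rfl hσ hσ1 hσc₁ (by rw [← hℓd]; exact hℓ1)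
  rw [← hℓd] at hsl' hwin hg1 hg2 ⊢
  have hℓ0 : 0 < ℓ := by linarith only [hℓ1]
  obtain ⟨w, hw⟩ : ∃ w : ℝ, w = LOC.window d c₁ σ := ⟨_, rfl⟩
  have hw0 : 0 ≤ w := by
    rw [hw]
    unfold LOC.window
    split_ifs <;> positivity
  rw [← hw] at hg1 hwin
  -- `μ₀ = A² σ⁴ ℓ ^ 40`
  obtain ⟨r, hr⟩ : ∃ r : ℝ, r = A * (σ ^ 2 * ℓ ^ 20) := ⟨_, rfl⟩
  have hr0 : 0 < r := by rw [hr]; positivity
  have hre : r ≤ Real.exp (-2) := by
    have h1 : σ ^ 2 * ℓ ^ 20 ≤ η := by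
      calc σ ^ 2 * ℓ ^ 20 = |σ| * (|σ| * ℓ ^ 20) := by rw [hσsq]; ring
        _ ≤ 1 * η := mul_le_mul hσ1 hsl' (by positivity) (by norm_num)
        _ = η := one_mul _
    rw [hr]
    exact (mul_le_mul_of_nonneg_left h1 hA0.le).trans hη1
  have hlogr : 4 ≤ Real.log (1 / r ^ 2) := by
    have h1 : Real.log r ≤ -2 := by
      have := Real.log_le_log hr0 hre
      rwa [Real.log_exp] at this
    rw [one_div, Real.log_inv, Real.log_pow]
    push_cast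
    linarith only [h1]
  have hℓ20 : (1 : ℝ) ≤ ℓ ^ 20 := one_le_pow₀ hℓ1
  have hσr : σ ^ 2 ≤ r := by
    rw [hr]
    have h1 : σ ^ 2 * 1 ≤ σ ^ 2 * ℓ ^ 20 := mul_le_mul_of_nonneg_left hℓ20 hσ2.le
    have h2 : 1 * (σ ^ 2 * ℓ ^ 20) ≤ A * (σ ^ 2 * ℓ ^ 20) :=
      mul_le_mul_of_nonneg_right (by linarith only [hA2]) (by positivity)
    linarith only [h1, h2]
  have hlσ2 : Real.log (σ ^ 2) = -(2 * ℓ) := by
    rw [hσsq, Real.log_pow, hℓd, one_div, Real.log_inv]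
    push_cast
    ring
  have hlogr2 : Real.log (1 / r ^ 2) ≤ 4 * ℓ := by
    have h1 : Real.log (σ ^ 2) ≤ Real.log r := Real.log_le_log hσ2 hσr
    rw [hlσ2] at h1
    rw [one_div, Real.log_inv, Real.log_pow]
    push_cast
    linarith only [h1]
  rcases le_or_gt (D + w) (r ^ 2) with hcase | hcase
  · -- very close to the edge
    by_cases hμ : D + w = 0
    · rw [hμ] at hg1
      have h1 : g ≤ 0 := by simpa using hg1
      refine h1.trans ?_
      positivity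
    have hμ0 : 0 < D + w := lt_of_le_of_ne (by positivity) (Ne.symm hμ)
    have h1 := sqrt_log_mono hℓ0.le hμ0 hcase hlogr
    rw [Real.sqrt_sq hr0.le] at h1
    have h2 : (ℓ + Real.log (1 / r ^ 2)) ^ 2 ≤ (5 * ℓ) ^ 2 :=
      pow_le_pow_left₀ (by linarith only [hℓ0, hlogr]) (by linarith only [hlogr2]) 2
    have q2 : 0 ≤ K * 5 ^ 11 + 1 := by positivity
    calc g ≤ C₁ * Real.sqrt (D + w) * (ℓ + Real.log (1 / (D + w))) ^ 2 := hg1
      _ = C₁ * (Real.sqrt (D + w) * (ℓ + Real.log (1 / (D + w))) ^ 2) := by ring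
      _ ≤ C₁ * (r * (ℓ + Real.log (1 / r ^ 2)) ^ 2) := mul_le_mul_of_nonneg_left h1 hC₁.le
      _ ≤ C₁ * (r * (5 * ℓ) ^ 2) := by gcongr
      _ = 25 * C₁ * A * (σ ^ 2 * ℓ ^ 22) := by rw [hr]; ring
      _ ≤ (25 * C₁ * A + K * 5 ^ 11 + 1) * (σ ^ 2 * ℓ ^ 22) :=
          mul_le_mul_of_nonneg_right (by linarith only [q2]) (by positivity)
      _ = _ := by ring
  · -- `D ≥ r² / 2`
    have hwr : w ≤ r ^ 2 / 2 := by
      refine hwin.trans ?_
      have e1 : r ^ 2 / 2 = A ^ 2 / 2 * (σ ^ 4 * ℓ ^ 40) := by rw [hr]; ring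
      rw [e1]
      refine mul_le_mul_of_nonneg_right ?_ (by positivity)
      have h1 : A * 1 ≤ A * A := mul_le_mul_of_nonneg_left (by linarith only [hA2]) hA0.le
      have h2 : A ^ 2 / 2 = A * A / 2 := by ring
      rw [h2]
      linarith only [h1, hAc]
    have hDr : r ^ 2 / 2 ≤ D := by linarith only [hcase, hwr]
    have hD : 0 < D := lt_of_lt_of_le (by positivity) hDr
    have hDσ : σ ^ 4 ≤ D := by
      refine le_trans ?_ hDr
      have e1 : r ^ 2 / 2 = A ^ 2 / 2 * (σ ^ 4 * ℓ ^ 40) := by rw [hr]; ring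
      rw [e1]
      have h1 : (1 : ℝ) ≤ ℓ ^ 40 := one_le_pow₀ hℓ1
      have h2 : σ ^ 4 * 1 ≤ σ ^ 4 * ℓ ^ 40 := mul_le_mul_of_nonneg_left h1 hσ40.le
      have h3 : 2 * 2 ≤ A * A := mul_le_mul hA2 hA2 (by norm_num) hA0.le
      have h4 : 1 * (σ ^ 4 * ℓ ^ 40) ≤ A ^ 2 / 2 * (σ ^ 4 * ℓ ^ 40) :=
        mul_le_mul_of_nonneg_right (by rw [pow_two]; linarith only [h3]) (by positivity)
      linarith only [h2, h4]
    have hsD : r / 2 ≤ Real.sqrt D := by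
      refine Real.le_sqrt_of_sq_le ?_
      have h1 : 0 ≤ r ^ 2 := by positivity
      have e1 : (r / 2) ^ 2 = r ^ 2 / 4 := by ring
      rw [e1]
      linarith only [h1, hDr]
    obtain ⟨L, hL⟩ : ∃ L : ℝ, L = ℓ + Real.log (1 / D) := ⟨_, rfl⟩
    rw [← hL] at hg2
    have hlD : Real.log (1 / D) ≤ 4 * ℓ := by
      have h1 : Real.log (σ ^ 4) ≤ Real.log D := Real.log_le_log hσ40 hDσ
      have h2 : Real.log (σ ^ 4) = -(4 * ℓ) := by
        rw [hσ4, Real.log_pow, hℓd, one_div, Real.log_inv]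
        push_cast
        ring
      rw [h2] at h1
      rw [one_div, Real.log_inv]
      linarith only [h1]
    have hlD0 : 0 ≤ Real.log (1 / D) := Real.log_nonneg (by
      rw [le_div_iff₀ hD]
      linarith only [hD75])
    have hL5 : L ≤ 5 * ℓ := by linarith only [hL, hlD]
    have hL0 : 0 ≤ L := by linarith only [hL, hlD0, hℓ0]
    have hKr : K * 5 ^ 20 * (σ ^ 2 * ℓ ^ 20) ≤ Real.sqrt D := by
      refine le_trans ?_ hsD
      rw [hr]
      have := mul_le_mul_of_nonneg_right hAK (by positivity : 0 ≤ σ ^ 2 * ℓ ^ 20)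
      linarith only [this]
    have hK0 : 0 < K := by linarith only [hK]
    have hfin : ∀ m : ℕ, m ≤ 11 → K * (σ ^ 2 * (5 * ℓ) ^ m) ≤
        (25 * C₁ * A + K * 5 ^ 11 + 1) * σ ^ 2 * ℓ ^ 22 := by
      intro m hm
      have h1 : (5 * ℓ) ^ m ≤ (5 * ℓ) ^ 11 := pow_le_pow_right₀ (by linarith only [hℓ1]) hm
      have h2 : ℓ ^ 11 ≤ ℓ ^ 22 := pow_le_pow_right₀ hℓ1 (by norm_num)
      have q2 : 0 ≤ 25 * C₁ * A + 1 := by positivity
      calc K * (σ ^ 2 * (5 * ℓ) ^ m) ≤ K * (σ ^ 2 * (5 * ℓ) ^ 11) := by gcongr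
        _ = K * 5 ^ 11 * (σ ^ 2 * ℓ ^ 11) := by ring
        _ ≤ K * 5 ^ 11 * (σ ^ 2 * ℓ ^ 22) := by gcongr
        _ ≤ (25 * C₁ * A + K * 5 ^ 11 + 1) * (σ ^ 2 * ℓ ^ 22) :=
            mul_le_mul_of_nonneg_right (by linarith only [q2]) (by positivity)
        _ = _ := by ring
    have hL16 : L ^ 16 ≤ 5 ^ 20 * ℓ ^ 20 := by
      calc L ^ 16 ≤ (5 * ℓ) ^ 16 := pow_le_pow_left₀ hL0 hL5 16
        _ ≤ (5 * ℓ) ^ 20 := pow_le_pow_right₀ (by linarith only [hℓ1]) (by norm_num)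
        _ = _ := by ring
    have hL20 : L ^ 20 ≤ 5 ^ 20 * ℓ ^ 20 := by
      calc L ^ 20 ≤ (5 * ℓ) ^ 20 := pow_le_pow_left₀ hL0 hL5 20
        _ = _ := by ring
    have hsD0 : 0 < Real.sqrt D := Real.sqrt_pos.2 hD
    have hsD2 : Real.sqrt D ^ 2 = D := Real.sq_sqrt hD.le
    have hsD1 : Real.sqrt D ≤ 1 := Real.sqrt_le_one.2 (by linarith only [hD75])
    obtain rfl | rfl | rfl : d = 3 ∨ d = 4 ∨ d = 5 := by omega
    · -- d = 3
      have e : (((3 : ℕ) : ℝ) - 4) / 2 = -(1 / 2) := by norm_num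
      have h1 := hg2 hD (by
        unfold growth
        rw [if_pos rfl, e, Real.rpow_neg hD.le, ← Real.sqrt_eq_rpow,
          Real.sq_sqrt (by positivity)]
        have h2 : K * σ ^ 2 * L ^ (2 * 3 + 10) ≤ Real.sqrt D := by
          refine le_trans ?_ hKr
          calc K * σ ^ 2 * L ^ (2 * 3 + 10) = K * σ ^ 2 * L ^ 16 := by norm_num
            _ ≤ K * σ ^ 2 * (5 ^ 20 * ℓ ^ 20) := by gcongr
            _ = _ := by ring
        rw [← one_div, le_div_iff₀ hsD0]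
        calc K * σ ^ 2 * (1 / D) * L ^ (2 * 3 + 10) * Real.sqrt D
            = (K * σ ^ 2 * L ^ (2 * 3 + 10)) * Real.sqrt D / D := by ring
          _ ≤ Real.sqrt D * Real.sqrt D / D := by gcongr
          _ = 1 := by
              rw [← pow_two, hsD2]
              exact div_self hD.ne')
      refine h1.trans (le_trans ?_ (hfin 9 (by norm_num)))
      unfold growth
      rw [if_pos rfl]
      have e2 : Real.sqrt (1 / D) * Real.sqrt D = 1 := by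
        rw [← Real.sqrt_mul (by positivity), one_div, inv_mul_cancel₀ hD.ne', Real.sqrt_one]
      calc K * σ ^ 2 * Real.sqrt (1 / D) * Real.sqrt D * L ^ (3 + 6)
          = K * (σ ^ 2 * L ^ 9) * (Real.sqrt (1 / D) * Real.sqrt D) := by ring
        _ = K * (σ ^ 2 * L ^ 9) := by rw [e2, mul_one]
        _ ≤ K * (σ ^ 2 * (5 * ℓ) ^ 9) := by gcongr
    · -- d = 4
      have e : (((4 : ℕ) : ℝ) - 4) / 2 = 0 := by norm_num
      have hg5 : growth 4 (1 / D) ≤ 5 * ℓ := by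
        unfold growth
        rw [if_neg (by norm_num), if_pos rfl]
        linarith only [hlD, hℓ1]
      have hg0 : 0 ≤ growth 4 (1 / D) := by
        unfold growth
        rw [if_neg (by norm_num), if_pos rfl]
        linarith only [hlD0]
      have h1 := hg2 hD (by
        rw [e, Real.rpow_zero]
        calc K * σ ^ 2 * growth 4 (1 / D) ^ 2 * L ^ (2 * 4 + 10)
            ≤ K * σ ^ 2 * (5 * ℓ) ^ 2 * (5 * ℓ) ^ (2 * 4 + 10) := by gcongr
          _ = K * 5 ^ 20 * (σ ^ 2 * ℓ ^ 20) := by ring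
          _ = K * 5 ^ 20 * (|σ| * (|σ| * ℓ ^ 20)) := by rw [hσsq]; ring
          _ ≤ K * 5 ^ 20 * (1 * η) := by gcongr
          _ ≤ 1 := by rw [one_mul]; exact hη2)
      refine h1.trans (le_trans ?_ (hfin 11 (by norm_num)))
      calc K * σ ^ 2 * growth 4 (1 / D) * Real.sqrt D * L ^ (4 + 6)
          ≤ K * σ ^ 2 * (5 * ℓ) * 1 * (5 * ℓ) ^ (4 + 6) := by gcongr
        _ = K * (σ ^ 2 * (5 * ℓ) ^ 11) := by ring
    · -- d = 5
      have e : (((5 : ℕ) : ℝ) - 4) / 2 = 1 / 2 := by norm_num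
      have hg1' : growth 5 (1 / D) = 1 := by
        unfold growth
        rw [if_neg (by norm_num), if_neg (by norm_num)]
      have h1 := hg2 hD (by
        rw [e, ← Real.sqrt_eq_rpow, hg1']
        refine le_trans ?_ hKr
        calc K * σ ^ 2 * 1 ^ 2 * L ^ (2 * 5 + 10) = K * σ ^ 2 * L ^ 20 := by norm_num
          _ ≤ K * σ ^ 2 * (5 ^ 20 * ℓ ^ 20) := by gcongr
          _ = _ := by ring)
      refine h1.trans (le_trans ?_ (hfin 11 (by norm_num)))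
      rw [hg1']
      calc K * σ ^ 2 * 1 * Real.sqrt D * L ^ (5 + 6)
          ≤ K * σ ^ 2 * 1 * 1 * (5 * ℓ) ^ (5 + 6) := by gcongr
        _ = K * (σ ^ 2 * (5 * ℓ) ^ 11) := by ring

end Pool.Agent.LE.H93F
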