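import Pool.Agent.Helper93_LSF.Final
import Pool.Agent.Helper93_LSF.Numb

/-!
# The Lyapunov exponent at weak disorder, the whole spectrum
-/

set_option autoImplicit false

open MeasureTheory ProbabilityTheory Filter

open scoped ENNReal ComplexInnerProductSpace Topology

noncomputable section

namespace Pool.Agent.LE.H93F

open Pool.Agent.Anderson Pool.Agent.Loc Pool.Agent.Mob Pool.Agent.Helper54.Bal Pool.Agent.BED
  Pool.Agent.LE.H93W Pool.Agent.LE.H93Z Pool.Agent.LE.CL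

universe u

variable {d : ℕ}

/-- the main theorem, in terms of `pr` -/
theorem final2 (qmf : QmfStmt) (pbd : CL.PbdStmt) (fle : FleStmt) (sgx : SgxStmt) (sms : SmsStmt)
    (cdp : CdpStmt) (upx : UpxStmt) (flq : IR.FlqStmt) (pie : IR.PieStmt) (d : ℕ) (hd : 3 ≤ d) :
    ∃ (γ : ℝ → ℝ → ℝ) (Es : ℝ → ℝ),
    (∀ σ : ℝ, σ ≠ 0 → ∀ E : ℝ, 0 ≤ γ σ E ∧ ∀ ε : ℝ, 0 < ε →
      Tendsto (H93.pr d σ E (γ σ E + ε)) atTop (𝓝 0) ∧
      Tendsto (H93.pr d σ E (γ σ E - ε)) atTop (𝓝 1)) ∧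
    (∀ ε : ℝ, 0 < ε → ε < 1 → ∃ c C : ℝ, 0 < c ∧ 0 < C ∧ ∀ σ : ℝ, σ ≠ 0 → |σ| ≤ c →
      |Es σ - (2 * d + watson d * σ ^ 2)| ≤ C * |σ| ^ (2 + 1 / (24 * d : ℝ)) ∧
      (∀ E : ℝ, Es σ + LOC.window d c σ ≤ |E| →
        c * Real.sqrt (min (|E| - Es σ) 1) ≤ γ σ E ∧
        (|E| ≤ Es σ + c → (1 - ε) * Real.sqrt (|E| - Es σ) ≤ γ σ E ∧
          γ σ E ≤ (1 + ε) * Real.sqrt (|E| - Es σ))) ∧
      (∀ E lam : ℝ, lam = |(|E| - Es σ)| + LOC.window d c σ → |(|E| - Es σ)| ≤ c →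
        γ σ E ≤ C * Real.sqrt lam * (Real.log (1 / |σ|) + Real.log (1 / lam)) ^ 2) ∧
      ∀ (Ω : Type u) [MeasurableSpace Ω] (P : Measure Ω) [IsProbabilityMeasure P]
        (ξ : Site d → Ω → ℝ), (∀ y, Measurable (ξ y)) →
        (∀ y, P.map (ξ y) = gaussianReal 0 1) → iIndepFun ξ P →
        ∀ᵐ ω ∂P, ∀ a r : ℝ,
          (∀ E ∈ Set.Icc (a - r) (a + r), Es σ + LOC.window d c σ ≤ |E|) → ∀ u w : L2 d,
          (∀ x, w x = lap u x + ((σ * ξ x ω : ℝ) : ℂ) * u x) →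
          (∀ (E : ℝ) (ψ : L2 d), E ∈ Set.Icc (a - r) (a + r) →
            IsEigen (fun x => σ * ξ x ω) E ψ → ⟪ψ, u⟫ = 0) →
          r * ‖u‖ ≤ ‖w - (a : ℂ) • u‖) ∧
    (∃ c C : ℝ, 0 < c ∧ c ≤ 1 / 75 ∧ 1 ≤ C ∧ ∀ σ : ℝ, σ ≠ 0 → |σ| ≤ c →
      (∀ E lam L : ℝ, lam = Es σ - |E| → 0 < lam → lam ≤ c →
        L = Real.log (1 / |σ|) + Real.log (1 / lam) →
        C * σ ^ 2 * growth d (1 / lam) ^ 2 * L ^ (2 * d + 10) ≤ lam ^ (((d : ℝ) - 4) / 2) →
        γ σ E ≤ C * σ ^ 2 * growth d (1 / lam) * Real.sqrt lam * L ^ (d + 6)) ∧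
      (d ≤ 5 → ∀ E : ℝ, |E| ≤ Es σ → γ σ E ≤ C * σ ^ 2 * Real.log (1 / |σ|) ^ 22)) ∧
    (∀ δ : ℝ, 0 < δ → ∃ c C : ℝ, 0 < c ∧ c ≤ 1 / 4 ∧ 0 < C ∧ ∀ σ E : ℝ, σ ≠ 0 → |σ| ≤ c →
      |E| ≤ 2 * d - δ → γ σ E ≤ C * σ ^ 2 * Real.log (1 / |σ|) ^ 6) ∧
    ∀ σ : ℝ, σ ≠ 0 → ∀ (Ω : Type u) [MeasurableSpace Ω] (P : Measure Ω) [IsProbabilityMeasure P]
      (ξ : Site d → Ω → ℝ), (∀ y, Measurable (ξ y)) →
      (∀ y, P.map (ξ y) = gaussianReal 0 1) → iIndepFun ξ P →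
      ∀ᵐ ω ∂P, ∀ (E : ℝ) (ψ : Site d → ℂ), (∃ x, ψ x ≠ 0) →
        (∃ (B : ℝ) (k : ℕ), ∀ x, ‖ψ x‖ ≤ B * (1 + (sd 0 x : ℝ)) ^ k) →
        (∀ x, lap ψ x + ((σ * ξ x ω : ℝ) : ℂ) * ψ x = (E : ℂ) * ψ x) →
        (∀ m : ℝ, m < γ σ E → ∃ B : ℝ, ∀ x, ‖ψ x‖ ≤ B * Real.exp (-m * sd 0 x)) ∧
        ∀ m B : ℝ, γ σ E < m → ¬ ∀ x, ‖ψ x‖ ≤ B * Real.exp (-m * sd 0 x) := by
  have hd1 : 1 ≤ d := by omega
  obtain ⟨γ, h0, -, -, h3⟩ := H42J.mainJ.{u} H96.mainGT H96.smpT H15.smn H96.algT d hd1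
  have hL : ∀ σ : ℝ, σ ≠ 0 → ∀ E, LyaAt d σ E (γ σ E) := fun σ hσ E =>
    H96.lyaAt_of_pr (h0 σ hσ E).1 (h0 σ hσ E).2
  have hex : ∀ (d : ℕ) (σ E : ℝ), 1 ≤ d → σ ≠ 0 → ∃ g, LyaAt d σ E g := by
    intro d σ E hd hσ
    obtain ⟨γ', h0', -⟩ := H96.mainRT.{0} d hd σ hσ
    exact ⟨γ' E, H96.lyaAt_of_pr (h0' E).1 (h0' E).2⟩
  obtain ⟨Es, hEs⟩ := near_edge qmf hex d hd
  -- symmetry
  have key : ∀ (σ : ℝ), σ ≠ 0 → ∀ E : ℝ, LyaAt d σ |E| (γ σ E) := by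
    intro σ hσ E
    rcases abs_choice E with he | he
    · rw [he]; exact hL σ hσ E
    · rw [he]; exact H96C.lya_negE (hL σ hσ E)
  refine ⟨γ, Es, h0, ?_, ?_, ?_, ?_⟩
  · intro ε hε hε1
    obtain ⟨c, C, hc, hc4, hC, h⟩ := hEs ε hε hε1
    refine ⟨c, C, hc, hC, ?_⟩
    intro σ hσ hσc
    have hσ0 : 0 < |σ| := abs_pos.2 hσ
    have hσ4 : |σ| ≤ 1 / 4 := hσc.trans hc4
    obtain ⟨g1, g2, g3, g4⟩ := h σ hσ hσc
    have hw0 : 0 < LOC.window d c σ := by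
      have hl : 0 ≤ Real.log (1 / |σ|) := Real.log_nonneg (by
        rw [le_div_iff₀ hσ0]
        linarith)
      unfold LOC.window
      split_ifs
      · positivity
      · exact Real.exp_pos _
      · exact Real.exp_pos _
    have hlow : ∀ E : ℝ, Es σ + LOC.window d c σ ≤ |E| →
        c * Real.sqrt (min (|E| - Es σ) 1) ≤ γ σ E := fun E hE =>
      g2 |E| (γ σ E) hE (key σ hσ E)
    refine ⟨g1, fun E hE => ⟨hlow E hE, fun hE2 => ?_⟩, ?_, ?_⟩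
    · exact g3 |E| (γ σ E) hE hE2 (key σ hσ E)
    · intro E lam hlam hE
      rw [hlam]
      exact g4 |E| (γ σ E) hE (key σ hσ E)
    · intro Ω _ P _ ξ hm hlaw hind
      obtain ⟨-, -, k3⟩ := h3 σ hσ
      obtain ⟨-, k5, -⟩ := k3 Ω P ξ hm hlaw hind
      filter_upwards [k5] with ω hω a r har u w hw hort
      refine hω a r (fun E hE => ?_) u w hw hort
      have hE := har E hE
      refine lt_of_lt_of_le ?_ (hlow E hE)
      have h2 : 0 < min (|E| - Es σ) 1 := lt_min (by linarith) one_pos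
      have := Real.sqrt_pos.2 h2
      positivity
  · -- inside
    obtain ⟨c₁, C₁, hc₁, hc₁4, hC₁, h₁⟩ := hEs (1 / 2) (by norm_num) (by norm_num)
    obtain ⟨cI, KI, η₀, hcI, hcI75, hKI, hη₀, hinner⟩ :=
      inner fle sgx sms cdp upx flq pie hex d hd c₁ hc₁
    obtain ⟨K, hKd⟩ : ∃ K : ℝ, K = KI + (4 / c₁ ^ 2 + 300 / c₁ + 2 / c₁ + 1) := ⟨_, rfl⟩
    have q1 : 0 < 4 / c₁ ^ 2 + 300 / c₁ + 2 / c₁ + 1 := by positivity
    have hKI0 : 0 < KI := by linarith only [hKI]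
    have hKI' : KI ≤ K := by linarith only [hKd, q1]
    have hKw : 4 / c₁ ^ 2 + 300 / c₁ + 2 / c₁ + 1 ≤ K := by linarith only [hKd, hKI0]
    have hK1 : 1 ≤ K := hKI.trans hKI'
    have hK0 : 0 < K := by linarith only [hK1]
    obtain ⟨c₂, hc₂d⟩ : ∃ c : ℝ, c = min cI c₁ := ⟨_, rfl⟩
    have hc₂ : 0 < c₂ := by rw [hc₂d]; positivity
    have hc₂I : c₂ ≤ cI := by rw [hc₂d]; exact min_le_left _ _
    have hc₂1 : c₂ ≤ c₁ := by rw [hc₂d]; exact min_le_right _ _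
    obtain ⟨cB, CB, hcB, hcB4, hCB, hbulk⟩ := pbd d (c₂ / 2) hd (by positivity)
    -- the edge is close to `2 d`
    have hsmall : ∀ η : ℝ, 0 < η → ∃ s : ℝ, 0 < s ∧ s ≤ 1 ∧ ∀ σ : ℝ, σ ≠ 0 → |σ| ≤ s → |σ| ≤ c₁ →
        |Es σ - 2 * d| ≤ η := by
      intro η hη
      obtain ⟨A, hA⟩ : ∃ A : ℝ, A = |watson d| + C₁ + 1 := ⟨_, rfl⟩
      have hA0 : 0 < A := by
        have := abs_nonneg (watson d)
        linarith
      refine ⟨min 1 (η / A), by positivity, min_le_left _ _, fun σ hσ hs hc => ?_⟩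
      have hσ0 : 0 < |σ| := abs_pos.2 hσ
      have hσ1 : |σ| ≤ 1 := hs.trans (min_le_left _ _)
      have hσA : |σ| * A ≤ η := by
        have := hs.trans (min_le_right _ _)
        rwa [le_div_iff₀ hA0] at this
      obtain ⟨g1, -⟩ := h₁ σ hσ hc
      have h2 : |σ| ^ (2 + 1 / (24 * d : ℝ)) ≤ |σ| := by
        have h3 : |σ| ^ (2 + 1 / (24 * d : ℝ)) ≤ |σ| ^ (1 : ℝ) := by
          refine Real.rpow_le_rpow_of_exponent_ge hσ0 hσ1 ?_
          have : 0 ≤ 1 / (24 * d : ℝ) := by positivity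
          linarith
        rwa [Real.rpow_one] at h3
      have h4 : |watson d * σ ^ 2| ≤ |watson d| * |σ| := by
        rw [abs_mul]
        refine mul_le_mul_of_nonneg_left ?_ (abs_nonneg _)
        rw [abs_pow, pow_two]
        exact mul_le_of_le_one_left hσ0.le hσ1
      have h5 : Es σ - 2 * d = (Es σ - (2 * d + watson d * σ ^ 2)) + watson d * σ ^ 2 := by ring
      calc |Es σ - 2 * d| = |(Es σ - (2 * d + watson d * σ ^ 2)) + watson d * σ ^ 2| := by rw [← h5]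
        _ ≤ |Es σ - (2 * d + watson d * σ ^ 2)| + |watson d * σ ^ 2| := abs_add_le _ _
        _ ≤ C₁ * |σ| + |watson d| * |σ| :=
            add_le_add (g1.trans (mul_le_mul_of_nonneg_left h2 hC₁.le)) h4
        _ ≤ |σ| * A := by
            rw [hA]
            have : |σ| * (|watson d| + C₁ + 1) = C₁ * |σ| + |watson d| * |σ| + |σ| := by ring
            linarith
        _ ≤ η := hσA
    obtain ⟨s₁, hs₁, hs₁1, hclose₁⟩ := hsmall η₀ hη₀
    obtain ⟨s₂, hs₂, hs₂1, hclose₂⟩ := hsmall (c₂ / 2) (by positivity)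
    -- one constant for the two
    obtain ⟨cF, CF, hcF, hCF, hcrit⟩ : ∃ cF CF : ℝ, 0 < cF ∧ 1 ≤ CF ∧ (d ≤ 5 →
        ∀ σ D g : ℝ, σ ≠ 0 → |σ| ≤ cF → 0 ≤ D → D ≤ 1 / 75 →
      g ≤ C₁ * Real.sqrt (D + LOC.window d c₁ σ) *
        (Real.log (1 / |σ|) + Real.log (1 / (D + LOC.window d c₁ σ))) ^ 2 →
      (0 < D → K * σ ^ 2 * growth d (1 / D) ^ 2 *
          (Real.log (1 / |σ|) + Real.log (1 / D)) ^ (2 * d + 10) ≤ D ^ (((d : ℝ) - 4) / 2) →
        g ≤ K * σ ^ 2 * growth d (1 / D) * Real.sqrt D *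
          (Real.log (1 / |σ|) + Real.log (1 / D)) ^ (d + 6)) →
      g ≤ CF * σ ^ 2 * Real.log (1 / |σ|) ^ 22) := by
      by_cases hd5 : d ≤ 5
      · obtain ⟨cF, CF, h1, h2, h3⟩ := mfp hd hd5 hc₁ hC₁ hK1
        exact ⟨cF, CF, h1, h2, fun _ => h3⟩
      · exact ⟨1, 1, one_pos, le_rfl, fun h => absurd h hd5⟩
    obtain ⟨c, hcd⟩ : ∃ c : ℝ, c = min (min (min c₂ cB) (min s₁ s₂)) (min cF (1 / 75)) :=
      ⟨_, rfl⟩
    have hc : 0 < c := by rw [hcd]; positivity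
    have k1 : c ≤ c₂ := by
      rw [hcd]; exact (min_le_left _ _).trans ((min_le_left _ _).trans (min_le_left _ _))
    have k2 : c ≤ cB := by
      rw [hcd]; exact (min_le_left _ _).trans ((min_le_left _ _).trans (min_le_right _ _))
    have k3 : c ≤ s₁ := by
      rw [hcd]; exact (min_le_left _ _).trans ((min_le_right _ _).trans (min_le_left _ _))
    have k4 : c ≤ s₂ := by
      rw [hcd]; exact (min_le_left _ _).trans ((min_le_right _ _).trans (min_le_right _ _))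
    have k5 : c ≤ cF := by rw [hcd]; exact (min_le_right _ _).trans (min_le_left _ _)
    have k6 : c ≤ 1 / 75 := by rw [hcd]; exact (min_le_right _ _).trans (min_le_right _ _)
    obtain ⟨C, hCd⟩ : ∃ C : ℝ, C = K + CF + CB := ⟨_, rfl⟩
    have hCF0 : 0 < CF := by linarith only [hCF]
    have hCB0 : 0 < CB := by linarith only [hCB]
    have m1 : K ≤ C := by linarith only [hCd, hCF0, hCB0]
    have m2 : CF ≤ C := by linarith only [hCd, hK0, hCB0]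
    have m3 : CB ≤ C := by linarith only [hCd, hK0, hCF0]
    have hC0 : 0 < C := by linarith only [m1, hK0]
    refine ⟨c, C, hc, k6, hK1.trans m1, ?_⟩
    intro σ hσ hσc
    have hσ0 : 0 < |σ| := abs_pos.2 hσ
    have hσ2 : 0 < σ ^ 2 := by positivity
    have hσc₁ : |σ| ≤ c₁ := (hσc.trans k1).trans hc₂1
    have hσ75 : |σ| ≤ 1 / 75 := hσc.trans k6
    have hi : 75 ≤ 1 / |σ| := by
      rw [le_div_iff₀ hσ0]
      linarith only [hσ75]
    have hℓ1 : 1 ≤ Real.log (1 / |σ|) := by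
      rw [Real.le_log_iff_exp_le (by positivity)]
      have := Real.exp_one_lt_d9
      linarith only [this, hi]
    obtain ⟨g1, g2, g3, g4⟩ := h₁ σ hσ hσc₁
    have hEs1 : |Es σ - 2 * d| ≤ η₀ := hclose₁ σ hσ (hσc.trans k3) hσc₁
    have hEs2 : |Es σ - 2 * d| ≤ c₂ / 2 := hclose₂ σ hσ (hσc.trans k4) hσc₁
    -- the inner bound with the constant `K`
    have hin : ∀ E lam L : ℝ, lam = Es σ - |E| → 0 < lam → lam ≤ c₂ →
        L = Real.log (1 / |σ|) + Real.log (1 / lam) →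
        K * σ ^ 2 * growth d (1 / lam) ^ 2 * L ^ (2 * d + 10) ≤ lam ^ (((d : ℝ) - 4) / 2) →
        γ σ E ≤ K * σ ^ 2 * growth d (1 / lam) * Real.sqrt lam * L ^ (d + 6) := by
      intro E lam L hlam hl0 hlc hLd hH
      have hlI : lam ≤ cI := hlc.trans hc₂I
      have hl75 : lam ≤ 1 / 75 := hlI.trans hcI75
      have hil : 75 ≤ 1 / lam := by
        rw [le_div_iff₀ hl0]
        linarith only [hl75]
      have hil1 : 1 ≤ 1 / lam := by linarith only [hil]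
      have hll : 0 ≤ Real.log (1 / lam) := Real.log_nonneg hil1
      have hL0 : 0 ≤ L := by linarith only [hLd, hll, hℓ1]
      have hG0 : 0 < growth d (1 / lam) := lt_of_lt_of_le one_pos (one_le_growth d hil1)
      have hwin := cond_window hd hc₁ hKw hσ hσ75 hl0 hl75 hLd hH
      have hasy : ∀ E g : ℝ, Es σ + lam / 75 ≤ E → E ≤ Es σ + c₁ → LyaAt d σ E g →
          1 / 2 * Real.sqrt (E - Es σ) ≤ g ∧ g ≤ 3 / 2 * Real.sqrt (E - Es σ) := by
        intro E g hE1 hE2 hg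
        obtain ⟨a1, a2⟩ := g3 E g (by linarith only [hE1, hwin]) hE2 hg
        constructor
        · calc 1 / 2 * Real.sqrt (E - Es σ) = (1 - 1 / 2) * Real.sqrt (E - Es σ) := by norm_num
            _ ≤ g := a1
        · calc g ≤ (1 + 1 / 2) * Real.sqrt (E - Es σ) := a2
            _ = 3 / 2 * Real.sqrt (E - Es σ) := by norm_num
      have hH2 : KI * σ ^ 2 * growth d (1 / lam) ^ 2 * L ^ (2 * d + 10) ≤
          lam ^ (((d : ℝ) - 4) / 2) := by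
        refine le_trans ?_ hH
        gcongr
      have hlya : LyaAt d σ (Es σ - lam) (γ σ E) := by
        have e : Es σ - lam = |E| := by rw [hlam]; ring
        rw [e]
        exact key σ hσ E
      refine (hinner σ lam L (Es σ) (γ σ E) hσ ((hσc.trans k1).trans hc₂I) hl0 hlI hLd hEs1 hasy
        hH2 hlya).trans ?_
      gcongr
    refine ⟨?_, ?_⟩
    · intro E lam L hlam hl0 hlc hLd hH
      have hil1 : 1 ≤ 1 / lam := by
        rw [le_div_iff₀ hl0]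
        linarith only [hlc, k6]
      have hll : 0 ≤ Real.log (1 / lam) := Real.log_nonneg hil1
      have hL0 : 0 ≤ L := by linarith only [hLd, hll, hℓ1]
      have hG0 : 0 < growth d (1 / lam) := lt_of_lt_of_le one_pos (one_le_growth d hil1)
      have hH2 : K * σ ^ 2 * growth d (1 / lam) ^ 2 * L ^ (2 * d + 10) ≤
          lam ^ (((d : ℝ) - 4) / 2) := by
        refine le_trans ?_ hH
        gcongr
      refine (hin E lam L hlam hl0 (hlc.trans k1) hLd hH2).trans ?_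
      gcongr
    · intro hd5 E hE
      rcases le_or_gt (Es σ - |E|) c₂ with hD | hD
      · -- near the edge
        obtain ⟨D, hDd⟩ : ∃ D : ℝ, D = Es σ - |E| := ⟨_, rfl⟩
        have hD0 : 0 ≤ D := by linarith only [hDd, hE]
        rw [← hDd] at hD
        have habs : |(|E| - Es σ)| = D := by
          rw [abs_sub_comm, ← hDd, abs_of_nonneg hD0]
        have hb := g4 |E| (γ σ E) (by rw [habs]; exact hD.trans hc₂1) (key σ hσ E)
        rw [habs] at hb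
        refine (hcrit hd5 σ D (γ σ E) hσ (hσc.trans k5) hD0 ((hD.trans hc₂I).trans hcI75) hb
          (fun hDpos hcond => hin E D _ hDd hDpos hD rfl hcond)).trans ?_
        gcongr
      · -- the bulk
        have h1 : |E| ≤ 2 * d - c₂ / 2 := by
          have := abs_le.1 hEs2
          linarith only [this.2, hD]
        refine (hbulk σ E (γ σ E) hσ (hσc.trans k2) h1 (hL σ hσ E)).trans ?_
        have h2 : Real.log (1 / |σ|) ^ 6 ≤ Real.log (1 / |σ|) ^ 22 :=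
          pow_le_pow_right₀ hℓ1 (by norm_num)
        gcongr
  · intro δ hδ
    obtain ⟨c, C, hc, hc4, hC, h⟩ := pbd d δ hd hδ
    exact ⟨c, C, hc, hc4, by linarith, fun σ E hσ hσc hE => h σ E _ hσ hσc hE (hL σ hσ E)⟩
  · intro σ hσ Ω _ P _ ξ hm hlaw hind
    obtain ⟨γ', h0', -, -, h4'⟩ := H96.mainRT.{u} d hd1 σ hσ
    have hγ : ∀ E, γ' E = γ σ E := fun E =>
      lya_unique (H96.lyaAt_of_pr (h0' E).1 (h0' E).2) (hL σ hσ E)
    filter_upwards [h4' Ω P ξ hm hlaw hind] with ω hω E ψ hne hpoly hψ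
    have hr := hω E ψ hψ hpoly hne
    rw [hγ E] at hr
    exact hr

end Pool.Agent.LE.H93F
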