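import Pool.Agent.Helper93_LSF.All
import Pool.Agent.Helper93_LSF.Final2
import Pool.Agent.Helper54_LIR.All

/-!
# The Lyapunov exponent at weak disorder, the whole spectrum: all modules
-/
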