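import Pool.Agent.LE.StmtsQ
import Pool.Agent.Helper54_LOC.Edge

/-!
# Expansion of the effective band edge
-/

set_option autoImplicit false

open MeasureTheory ProbabilityTheory Function Filter

open scoped ENNReal BigOperators Topology NNReal

noncomputable section

namespace Pool.Agent.LE.H93F

open Pool.Agent.Anderson Pool.Agent.Loc Pool.Agent.Mob Pool.Agent.BED Pool.Agent.LOC

/-- the position of the effective band edge, for any flat `z` at a scale `t ≥ |σ|^{-3}` -/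
theorem expand (hUp : UpStmt.{0}) (hLow : LowStmt.{0}) (d : ℕ) (hd : 3 ≤ d) :
    ∃ c C : ℝ, 0 < c ∧ 0 < C ∧ ∀ (σ t p z μ : ℝ) (v : ℝ≥0) (r : ℕ), σ ≠ 0 → |σ| ≤ c →
      |σ|⁻¹ ^ 3 ≤ t → (v : ℝ) = σ ^ 2 → 10 * t ≤ μ → 2 * t ≤ r → 0 ≤ p →
      p ≤ 1 / t ^ (8 * d + 3) → gau d (4 * r + 3) v {V | ¬ Flat z μ V} ≤ ENNReal.ofReal p →
        |z - (2 * d + watson d * σ ^ 2)| ≤ C * |σ| ^ (2 + 1 / (24 * d : ℝ)) := by
  obtain ⟨Cc, hCc, hcount⟩ := countAll d (by omega)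
  obtain ⟨σ₂, hσ₂, hup⟩ := hUp d hd
  obtain ⟨σ₃, C₃, hσ₃, hC₃, hlow⟩ := hLow d hd
  have hG := watson_pos hd
  obtain ⟨G, hGdef⟩ : ∃ G : ℝ, G = watson d := ⟨_, rfl⟩
  rw [← hGdef] at hG hup hlow ⊢
  obtain ⟨c, hc⟩ : ∃ c : ℝ, c = min (min (σ₂ / 2) (σ₃ / 2)) (min (1 / (1 + 4 * Cc)) (1 / 2)) :=
    ⟨_, rfl⟩
  have hc0 : 0 < c := by rw [hc]; positivity
  have hcC : c ≤ σ₂ / 2 := by
    rw [hc]; exact (min_le_left _ _).trans (min_le_left _ _)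
  have hcD : c ≤ σ₃ / 2 := by
    rw [hc]; exact (min_le_left _ _).trans (min_le_right _ _)
  have hcF : c ≤ 1 / (1 + 4 * Cc) := by
    rw [hc]; exact (min_le_right _ _).trans (min_le_left _ _)
  have hcG : c ≤ 1 / 2 := by
    rw [hc]; exact (min_le_right _ _).trans (min_le_right _ _)
  refine ⟨c, G + 1 + 4 * Cc + C₃, hc0, by positivity, ?_⟩
  intro σ t p z μ v r hσ hσc hwt hv hμ hr hp0 hp hgau
  obtain ⟨s, hs⟩ : ∃ s : ℝ, s = |σ| := ⟨_, rfl⟩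
  rw [← hs] at hσc hwt ⊢
  have hs0 : 0 < s := by rw [hs]; exact abs_pos.2 hσ
  have hs2 : s ≤ 1 / 2 := hσc.trans hcG
  have hs1 : s ≤ 1 := by linarith
  have hss : s ^ 2 = σ ^ 2 := by rw [hs, sq_abs]
  have hsinv : 0 < s⁻¹ := by positivity
  have hsinv2 : 2 ≤ s⁻¹ := by
    rw [le_inv_comm₀ (by norm_num) hs0]; linarith
  have hbig : 1 + 4 * Cc ≤ s⁻¹ := by
    rw [le_inv_comm₀ (by positivity) hs0]
    have := hσc.trans hcF
    rwa [one_div] at this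
  have h8 : 8 ≤ s⁻¹ ^ 3 := by
    calc (8:ℝ) = 2 ^ 3 := by norm_num
      _ ≤ s⁻¹ ^ 3 := by gcongr
  have ht8 : 8 ≤ t := h8.trans hwt
  have ht0 : 0 < t := by linarith
  have hμ0 : 0 < μ := by linarith
  have hCA : CountAt d Cc r z μ := by
    intro W hW x₀ L hL hH lam h1 h2 h3
    exact hcount (4 * r + 3) r le_rfl z μ W hμ0 hW x₀ L hL hH lam h1 h2 h3
  have hs3' : s ^ 3 ≤ s ^ (2 + 1 / (24 * d : ℝ)) := by
    have hd3 : (3:ℝ) ≤ d := by exact_mod_cast hd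
    have h1 : 1 / (24 * d : ℝ) ≤ 1 := by
      rw [div_le_one (by positivity)]; linarith
    calc s ^ 3 = s ^ (3:ℝ) := by norm_cast
      _ ≤ s ^ (2 + 1 / (24 * d : ℝ)) :=
        Real.rpow_le_rpow_of_exponent_ge hs0 hs1 (by linarith)
  have hsp : 0 < s ^ (2 + 1 / (24 * d : ℝ)) := Real.rpow_pos_of_pos hs0 _
  have hts : 1 / t ≤ s ^ 3 := by
    rw [div_le_iff₀ ht0]
    have h1 : s ^ 3 * s⁻¹ ^ 3 = 1 := by
      rw [← mul_pow, mul_inv_cancel₀ hs0.ne', one_pow]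
    calc (1:ℝ) = s ^ 3 * s⁻¹ ^ 3 := h1.symm
      _ ≤ s ^ 3 * t := by gcongr
  have hpT : p ≤ s ^ (24 * d + 9) := by
    refine hp.trans ?_
    have h1 : (1 / t) ^ (8 * d + 3) ≤ (s ^ 3) ^ (8 * d + 3) :=
      pow_le_pow_left₀ (by positivity) hts _
    rw [div_pow, one_pow, ← pow_mul] at h1
    refine h1.trans (le_of_eq ?_)
    congr 1
    ring
  have hp8 : p ≤ 1 / 8 := by
    refine hpT.trans ?_
    calc s ^ (24 * d + 9) ≤ s ^ 3 := pow_le_pow_of_le_one hs0.le hs1 (by omega)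
      _ ≤ (1 / 2) ^ 3 := pow_le_pow_left₀ hs0.le hs2 3
      _ = 1 / 8 := by norm_num
  -- upper bound
  have hupper : z ≤ 2 * d + G * σ ^ 2 + G * s ^ (2 + 1 / (24 * d : ℝ)) + (1 + 4 * Cc) * s ^ 3 := by
    obtain ⟨L, hL⟩ : ∃ L : ℕ, L = ⌊s⁻¹ ^ 3⌋₊ := ⟨_, rfl⟩
    have hL1 : (L : ℝ) ≤ s⁻¹ ^ 3 := by rw [hL]; exact Nat.floor_le (by positivity)
    have hL2 : s⁻¹ ^ 3 / 2 ≤ L := by
      have := Nat.lt_floor_add_one (s⁻¹ ^ 3)
      rw [← hL] at this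
      linarith
    have hLr : L ≤ r := by
      have : (L : ℝ) ≤ r := by linarith
      exact_mod_cast this
    have hlam0 : 0 < (1 + 4 * Cc) * s ^ 3 := by positivity
    have hlam1 : (1 + 4 * Cc) * s ^ 3 ≤ 1 := by
      have h2 : s ^ 3 ≤ s := by
        calc s ^ 3 ≤ s ^ 1 := pow_le_pow_of_le_one hs0.le hs1 (by norm_num)
          _ = s := pow_one s
      calc (1 + 4 * Cc) * s ^ 3 ≤ s⁻¹ * s := by gcongr
        _ = 1 := inv_mul_cancel₀ hs0.ne'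
    have h10 : 10 / μ ≤ (1 + 4 * Cc) * s ^ 3 := by
      have h1 : 10 / μ ≤ 1 / t := by
        rw [div_le_div_iff₀ hμ0 ht0]; linarith
      have h2 : s ^ 3 ≤ (1 + 4 * Cc) * s ^ 3 :=
        le_mul_of_one_le_left (by positivity) (by linarith)
      linarith
    have hCL : Cc ≤ (1 + 4 * Cc) * s ^ 3 * (L : ℝ) ^ 2 := by
      have h1 : (s⁻¹ ^ 3 / 2) ^ 2 ≤ (L : ℝ) ^ 2 := by gcongr
      have h2 : s ^ 3 * (s⁻¹ ^ 3 / 2) ^ 2 = s⁻¹ ^ 3 / 4 := by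
        field_simp; norm_num
      have h3 : Cc * 1 ≤ Cc * s⁻¹ ^ 3 := mul_le_mul_of_nonneg_left (by linarith) hCc.le
      calc Cc ≤ 4 * Cc * (s⁻¹ ^ 3 / 4) := by linarith
        _ ≤ (1 + 4 * Cc) * (s⁻¹ ^ 3 / 4) :=
            mul_le_mul_of_nonneg_right (by linarith) (by positivity)
        _ = (1 + 4 * Cc) * (s ^ 3 * (s⁻¹ ^ 3 / 2) ^ 2) := by rw [h2]
        _ ≤ (1 + 4 * Cc) * (s ^ 3 * (L : ℝ) ^ 2) := by gcongr
        _ = _ := by ring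
    have hσ2 : |σ| < σ₂ := by
      rw [← hs]
      have := hσc.trans hcC
      linarith
    refine edge_upper hCA hv hp0 hp8 hgau (fun Ω _ P _ ξ hm hlaw hind => ?_) hLr hlam0 h10
      hlam1 hCL
    have h0 := hup σ hσ hσ2 L (by rw [← hs]; exact hL1) Ω P ξ hm hlaw hind
    rwa [← hs] at h0
  -- lower bound
  have hlower : 2 * d + G * σ ^ 2 - C₃ * s ^ (2 + 1 / (24 * d : ℝ)) ≤ z := by
    obtain ⟨L, hL⟩ : ∃ L : ℕ, L = ⌈s⁻¹ ^ 3⌉₊ := ⟨_, rfl⟩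
    have hL1 : s⁻¹ ^ 3 ≤ L := by rw [hL]; exact Nat.le_ceil _
    have hL2 : (L : ℝ) ≤ 2 * s⁻¹ ^ 3 := by
      have := (Nat.ceil_lt_add_one (show 0 ≤ s⁻¹ ^ 3 by positivity)).le
      rw [← hL] at this
      linarith
    have hLr : L ≤ r := by
      have : (L : ℝ) ≤ r := by linarith
      exact_mod_cast this
    have hσ3 : |σ| < σ₃ := by
      rw [← hs]
      have := hσc.trans hcD
      linarith
    have hpq : 2 * p < s ^ (24 * d) := by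
      have h1 : 2 * p ≤ s ^ (24 * d + 1) := by
        calc 2 * p ≤ 2 * s ^ (24 * d + 9) := by linarith
          _ = 2 * s * s ^ (24 * d + 8) := by ring
          _ ≤ 1 * s ^ (24 * d + 8) :=
              mul_le_mul_of_nonneg_right (by linarith) (by positivity)
          _ = s ^ (24 * d + 8) := one_mul _
          _ ≤ s ^ (24 * d + 1) := pow_le_pow_of_le_one hs0.le hs1 (by omega)
      exact h1.trans_lt (pow_lt_pow_right_of_lt_one₀ hs0 (by linarith) (by omega))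
    refine edge_lower hμ0 hv hp0 hgau hpq (fun Ω _ P _ ξ hm hlaw hind => ?_) hLr
    have h0 := hlow σ hσ hσ3 L (by rw [← hs]; exact hL1) (by rw [← hs]; exact hL2) Ω P ξ hm
      hlaw hind
    rwa [← hs] at h0
  rw [abs_le]
  have e1 : (1 + 4 * Cc) * s ^ 3 ≤ (1 + 4 * Cc) * s ^ (2 + 1 / (24 * d : ℝ)) := by gcongr
  have e2 : 0 < G * s ^ (2 + 1 / (24 * d : ℝ)) := by positivity
  have e3 : 0 < C₃ * s ^ (2 + 1 / (24 * d : ℝ)) := by positivity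
  have e4 : 0 < Cc * s ^ (2 + 1 / (24 * d : ℝ)) := by positivity
  have e5 : (G + 1 + 4 * Cc + C₃) * s ^ (2 + 1 / (24 * d : ℝ)) =
      G * s ^ (2 + 1 / (24 * d : ℝ)) + (1 + 4 * Cc) * s ^ (2 + 1 / (24 * d : ℝ)) +
      C₃ * s ^ (2 + 1 / (24 * d : ℝ)) := by ring
  have e6 : (1 + 4 * Cc) * s ^ (2 + 1 / (24 * d : ℝ)) =
    s ^ (2 + 1 / (24 * d : ℝ)) + 4 * (Cc * s ^ (2 + 1 / (24 * d : ℝ))) := by ring
  constructor
  · linarith
  · linarith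

end Pool.Agent.LE.H93F
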