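import Pool.Agent.Helper93_LSF.Torus
import Pool.Agent.LE.StmtsJ

/-!
# Between the effective band edge and the bulk
-/

set_option autoImplicit false

open MeasureTheory ProbabilityTheory Function Filter

open scoped ENNReal BigOperators Topology NNReal

noncomputable section

namespace Pool.Agent.LE.H93F

open Pool.Agent.Anderson Pool.Agent.Loc Pool.Agent.Mob Pool.Agent.Helper54.Bal Pool.Agent.BED
  Pool.Agent.LE.H93W Pool.Agent.LE.H93Z Pool.Agent.LE.CL

/-- two landscape functions of one potential -/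
theorem z_close {d M : ℕ} [NeZero M] {ε ε' z z' μ μ' m : ℝ} {V : Tor d M → ℝ}
    (h : FlatE ε z μ V) (h' : FlatE ε' z' μ' V) (hε : ε ≤ 1 / 50) (hε' : ε' ≤ 1 / 50)
    (hm : 0 < m) (hμ : m ≤ μ) (hμ' : m ≤ μ') : |z - z'| ≤ 6 / 5 / m := by
  obtain ⟨-, hA, hf⟩ := h
  obtain ⟨-, hA', hf'⟩ := h'
  obtain ⟨D, hD⟩ : ∃ D : Tor d M → ℝ, D = DD z V := ⟨_, rfl⟩
  obtain ⟨D', hD'⟩ : ∃ D' : Tor d M → ℝ, D' = DD z' V := ⟨_, rfl⟩
  have hμ0 : 0 < μ := by linarith
  have hμ0' : 0 < μ' := by linarith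
  have b1 : ∀ x, 49 / 50 * μ ≤ D x := fun x => by
    have h1 := (abs_le.1 (hf x)).1
    have h2 := mul_le_mul_of_nonneg_right hε hμ0.le
    rw [hD]
    linarith
  have b2 : ∀ x, D x ≤ 51 / 50 * μ := fun x => by
    have h1 := (abs_le.1 (hf x)).2
    have h2 := mul_le_mul_of_nonneg_right hε hμ0.le
    rw [hD]
    linarith
  have b1' : ∀ x, 49 / 50 * μ' ≤ D' x := fun x => by
    have h1 := (abs_le.1 (hf' x)).1
    have h2 := mul_le_mul_of_nonneg_right hε' hμ0'.le
    rw [hD']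
    linarith
  have b2' : ∀ x, D' x ≤ 51 / 50 * μ' := fun x => by
    have h1 := (abs_le.1 (hf' x)).2
    have h2 := mul_le_mul_of_nonneg_right hε' hμ0'.le
    rw [hD']
    linarith
  -- the identity
  have e1 : Matrix.mulVec (AM z V) D = 1 := by rw [hD]; exact AM_DD hA
  have e2 : Matrix.mulVec (AM z' V) D' = 1 := by rw [hD']; exact AM_DD hA'
  have e3 : AM z' V = AM z V - (z - z') • (1 : Matrix _ _ ℝ) := by
    rw [← AM_sub]
    congr 1
    ring
  have e4 : ∑ x, D x = ∑ x, D' x - (z - z') * ∑ x, D x * D' x := by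
    have h1 : ∑ x, D x * (Matrix.mulVec (AM z' V) D') x = ∑ x, D x := by
      rw [e2]
      simp
    have h2 : ∀ x, (Matrix.mulVec (AM z' V) D') x =
        (Matrix.mulVec (AM z V) D') x - (z - z') * D' x := by
      intro x
      rw [e3, Matrix.sub_mulVec, Matrix.smul_mulVec, Matrix.one_mulVec]
      simp
    have h3 : ∑ x, D x * (Matrix.mulVec (AM z V) D') x = ∑ x, D' x := by
      have h4 : ∑ x, D x * (Matrix.mulVec (AM z V) D') x =
          ∑ x, (Matrix.mulVec (AM z V) D) x * D' x := by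
        simp only [Matrix.mulVec, dotProduct]
        simp only [Finset.mul_sum, Finset.sum_mul]
        rw [Finset.sum_comm]
        refine Finset.sum_congr rfl fun x _ => Finset.sum_congr rfl fun y _ => ?_
        rw [AM_symm z V y x]
        ring
      rw [h4, e1]
      simp
    rw [← h1]
    simp only [h2, mul_sub, Finset.sum_sub_distrib, h3]
    congr 1
    rw [Finset.mul_sum]
    exact Finset.sum_congr rfl fun x _ => by ring
  -- the bounds
  obtain ⟨n, hn⟩ : ∃ n : ℝ, n = (Finset.univ : Finset (Tor d M)).card := ⟨_, rfl⟩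
  have hn0 : 0 < n := by
    rw [hn]
    exact_mod_cast Finset.card_pos.2 ⟨0, Finset.mem_univ _⟩
  have s1 : ∑ x, D x ≤ n * (51 / 50 * μ) := by
    refine (Finset.sum_le_card_nsmul _ _ _ fun x _ => b2 x).trans (le_of_eq ?_)
    rw [hn, nsmul_eq_mul]
  have s1' : ∑ x, D' x ≤ n * (51 / 50 * μ') := by
    refine (Finset.sum_le_card_nsmul _ _ _ fun x _ => b2' x).trans (le_of_eq ?_)
    rw [hn, nsmul_eq_mul]
  have s0 : 0 ≤ ∑ x, D x := Finset.sum_nonneg fun x _ => by
    have := b1 x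
    linarith
  have s0' : 0 ≤ ∑ x, D' x := Finset.sum_nonneg fun x _ => by
    have := b1' x
    linarith
  have s2 : n * (49 / 50 * μ * (49 / 50 * μ')) ≤ ∑ x, D x * D' x := by
    refine le_trans (le_of_eq ?_) (Finset.card_nsmul_le_sum _ _ _ fun x _ =>
      mul_le_mul (b1 x) (b1' x) (by positivity) (by have := b1 x; linarith))
    rw [hn, nsmul_eq_mul]
  obtain ⟨S, hS⟩ : ∃ S : ℝ, S = ∑ x, D x * D' x := ⟨_, rfl⟩
  rw [← hS] at e4 s2
  have hS0 : 0 < S := lt_of_lt_of_le (by positivity) s2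
  have key : |z - z'| * S ≤ max (n * (51 / 50 * μ')) (n * (51 / 50 * μ)) := by
    rw [← abs_of_pos hS0, ← abs_mul]
    have h5 : (z - z') * S = ∑ x, D' x - ∑ x, D x := by linarith
    rw [h5, abs_le]
    constructor
    · have := le_max_right (n * (51 / 50 * μ')) (n * (51 / 50 * μ))
      linarith
    · have := le_max_left (n * (51 / 50 * μ')) (n * (51 / 50 * μ))
      linarith
  rw [le_div_iff₀ hm]
  have h6 : |z - z'| * (n * (49 / 50 * μ * (49 / 50 * μ'))) ≤
      max (n * (51 / 50 * μ')) (n * (51 / 50 * μ)) :=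
    (mul_le_mul_of_nonneg_left s2 (abs_nonneg _)).trans key
  have h7 : 0 ≤ |z - z'| := abs_nonneg _
  rcases le_total μ μ' with hle | hle
  · have h8 : max (n * (51 / 50 * μ')) (n * (51 / 50 * μ)) = n * (51 / 50 * μ') :=
      max_eq_left (mul_le_mul_of_nonneg_left (by linarith) hn0.le)
    rw [h8] at h6
    have h9 : |z - z'| * (49 / 50 * (49 / 50) * μ) ≤ 51 / 50 := by
      have h10 : (|z - z'| * (49 / 50 * (49 / 50) * μ)) * (n * μ') ≤ 51 / 50 * (n * μ') := by
        nlinarith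
      exact le_of_mul_le_mul_right h10 (by positivity)
    have h11 := mul_le_mul_of_nonneg_left hμ h7
    nlinarith
  · have h8 : max (n * (51 / 50 * μ')) (n * (51 / 50 * μ)) = n * (51 / 50 * μ) :=
      max_eq_right (mul_le_mul_of_nonneg_left (by linarith) hn0.le)
    rw [h8] at h6
    have h9 : |z - z'| * (49 / 50 * (49 / 50) * μ') ≤ 51 / 50 := by
      have h10 : (|z - z'| * (49 / 50 * (49 / 50) * μ')) * (n * μ) ≤ 51 / 50 * (n * μ) := by
        nlinarith
      exact le_of_mul_le_mul_right h10 (by positivity)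
    have h11 := mul_le_mul_of_nonneg_left hμ' h7
    nlinarith

/-- closeness of two effective edges -/
theorem close_asy1 {d : ℕ} {c c' σ a b u : ℝ}
    (hA : ∀ E g : ℝ, a + u ≤ E → E ≤ a + c → LyaAt d σ E g →
      1 / 2 * Real.sqrt (E - a) ≤ g ∧ g ≤ 3 / 2 * Real.sqrt (E - a))
    (hB : ∀ E g : ℝ, b + u ≤ E → E ≤ b + c' → LyaAt d σ E g →
      1 / 2 * Real.sqrt (E - b) ≤ g ∧ g ≤ 3 / 2 * Real.sqrt (E - b))
    (hu : 0 < u) (hc : |a - b| + u ≤ c) (hc' : u ≤ c')
    (hex : ∀ E, ∃ g, LyaAt d σ E g) : b - a ≤ 8 * u := by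
  by_contra hcon
  push Not at hcon
  obtain ⟨g, hg⟩ := hex (b + u)
  have h1 := (hB (b + u) g (by linarith) (by linarith) hg).2
  have h2 := neg_abs_le (a - b)
  have h3 := (hA (b + u) g (by linarith) (by linarith) hg).1
  have e1 : b + u - b = u := by ring
  rw [e1] at h1
  have h5 : 3 * Real.sqrt u < Real.sqrt (b + u - a) := by
    have e2 : 3 * Real.sqrt u = Real.sqrt (9 * u) := by
      rw [Real.sqrt_mul (by norm_num)]
      congr 1
      rw [show (9 : ℝ) = 3 ^ 2 by norm_num, Real.sqrt_sq (by norm_num)]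
    rw [e2]
    exact Real.sqrt_lt_sqrt (by positivity) (by linarith)
  linarith

theorem close_asy {d : ℕ} {c c' σ a b u : ℝ}
    (hA : ∀ E g : ℝ, a + u ≤ E → E ≤ a + c → LyaAt d σ E g →
      1 / 2 * Real.sqrt (E - a) ≤ g ∧ g ≤ 3 / 2 * Real.sqrt (E - a))
    (hB : ∀ E g : ℝ, b + u ≤ E → E ≤ b + c' → LyaAt d σ E g →
      1 / 2 * Real.sqrt (E - b) ≤ g ∧ g ≤ 3 / 2 * Real.sqrt (E - b))
    (hu : 0 < u) (hc : |a - b| + u ≤ c) (hc' : |a - b| + u ≤ c')
    (hex : ∀ E, ∃ g, LyaAt d σ E g) : |a - b| ≤ 8 * u := by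
  have h0 := abs_nonneg (a - b)
  rw [abs_le]
  constructor
  · have := close_asy1 hA hB hu hc (by linarith) hex
    linarith
  · have := close_asy1 hB hA hu (by rw [abs_sub_comm]; exact hc') (by linarith) hex
    linarith

theorem growth_le_self (d : ℕ) {x : ℝ} (hx : 1 ≤ x) : growth d x ≤ x := by
  unfold growth
  split_ifs
  · rw [Real.sqrt_le_left (by linarith)]
    nlinarith
  · have := Real.log_le_sub_one_of_pos (by linarith : 0 < x)
    linarith
  · exact hx

theorem rpow_le_growth {d : ℕ} (hd : 3 ≤ d) {lam : ℝ} (h0 : 0 < lam) (h1 : lam ≤ 1) :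
    lam ^ (((d : ℝ) - 4) / 2) ≤ growth d (1 / lam) := by
  have h2 : 1 ≤ 1 / lam := by rw [le_div_iff₀ h0]; linarith
  by_cases h3 : d = 3
  · subst h3
    have e : (((3 : ℕ) : ℝ) - 4) / 2 = -(1 / 2) := by norm_num
    unfold growth
    rw [if_pos rfl, e, Real.rpow_neg h0.le, ← Real.sqrt_eq_rpow, one_div, Real.sqrt_inv]
  · refine le_trans ?_ (one_le_growth d h2)
    refine Real.rpow_le_one h0.le h1 ?_
    have : (4 : ℝ) ≤ d := by
      have : 4 ≤ d := by omega
      exact_mod_cast this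
    linarith

theorem rpow_half {d : ℕ} (hd : 3 ≤ d) {lam lam' : ℝ} (h0 : 0 < lam) (h1 : lam / 2 ≤ lam')
    (h2 : lam' ≤ 2 * lam) :
    (1 / 2) ^ d * lam ^ (((d : ℝ) - 4) / 2) ≤ lam' ^ (((d : ℝ) - 4) / 2) := by
  have h0' : 0 < lam' := by linarith
  have hdR : (3 : ℝ) ≤ d := by exact_mod_cast hd
  have hp : (0 : ℝ) < lam ^ (((d : ℝ) - 4) / 2) := Real.rpow_pos_of_pos h0 _
  rcases le_total 0 (((d : ℝ) - 4) / 2) with ha | ha
  · have h3 : (lam / 2) ^ (((d : ℝ) - 4) / 2) ≤ lam' ^ (((d : ℝ) - 4) / 2) :=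
      Real.rpow_le_rpow (by positivity) h1 ha
    refine le_trans ?_ h3
    have e0 : lam / 2 = lam * (1 / 2) := by ring
    rw [e0, Real.mul_rpow h0.le (by norm_num), mul_comm]
    refine mul_le_mul_of_nonneg_left ?_ hp.le
    rw [← Real.rpow_natCast]
    exact Real.rpow_le_rpow_of_exponent_ge (by norm_num) (by norm_num) (by linarith)
  · have h3 : (2 * lam) ^ (((d : ℝ) - 4) / 2) ≤ lam' ^ (((d : ℝ) - 4) / 2) :=
      Real.rpow_le_rpow_of_nonpos h0' h2 ha
    refine le_trans ?_ h3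
    rw [Real.mul_rpow (by norm_num) h0.le]
    refine mul_le_mul_of_nonneg_right ?_ hp.le
    have e : (2 : ℝ) ^ (((d : ℝ) - 4) / 2) = (1 / 2) ^ (-(((d : ℝ) - 4) / 2)) := by
      rw [one_div, Real.inv_rpow (by norm_num), Real.rpow_neg (by norm_num), inv_inv]
    rw [e, ← Real.rpow_natCast]
    refine Real.rpow_le_rpow_of_exponent_ge (by norm_num) (by norm_num) ?_
    linarith

/-- the probability of a large torus -/
theorem p_large {d m : ℕ} {C T x y K₀ b σ : ℝ} {M : ℕ} (hC : 0 < C) (hT : 1 ≤ T) (hσ : 0 < σ)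
    (hx : 1 ≤ x) (hy : y = x / σ)
    (hM : (M : ℝ) ≤ 2 * y ^ K₀) (hb : (d * K₀ + m) * Real.log y ≤ b) :
    C * (1 + Real.log T) * (M : ℝ) ^ d * Real.exp (-b) ≤ C * T * 2 ^ d * (σ / x) ^ m := by
  have hx0 : 0 < x := by linarith
  have hy0 : 0 < y := by rw [hy]; positivity
  have h1 : 1 + Real.log T ≤ T := by
    have := Real.log_le_sub_one_of_pos (by linarith : 0 < T)
    linarith
  have h1' : 0 ≤ 1 + Real.log T := by
    have := Real.log_nonneg hT
    linarith
  have h2 : (M : ℝ) ^ d ≤ 2 ^ d * Real.exp (d * K₀ * Real.log y) := by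
    refine (pow_le_pow_left₀ (Nat.cast_nonneg _) hM d).trans (le_of_eq ?_)
    rw [mul_pow, Real.rpow_def_of_pos hy0, ← Real.exp_nat_mul]
    congr 2
    ring
  have h3 : Real.exp (-b) ≤ Real.exp (-((d * K₀ + m) * Real.log y)) :=
    Real.exp_le_exp.2 (by linarith)
  have h4 : Real.exp (d * K₀ * Real.log y) * Real.exp (-((d * K₀ + m) * Real.log y)) =
      (σ / x) ^ m := by
    rw [← Real.exp_add]
    have e : d * K₀ * Real.log y + -((d * K₀ + m) * Real.log y) = (m : ℝ) * (-Real.log y) := by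
      ring
    rw [e, Real.exp_nat_mul, Real.exp_neg, Real.exp_log hy0, hy, inv_div]
  calc C * (1 + Real.log T) * (M : ℝ) ^ d * Real.exp (-b)
      ≤ C * T * (2 ^ d * Real.exp (d * K₀ * Real.log y)) *
          Real.exp (-((d * K₀ + m) * Real.log y)) := by gcongr
    _ = C * T * 2 ^ d * (Real.exp (d * K₀ * Real.log y) *
          Real.exp (-((d * K₀ + m) * Real.log y))) := by ring
    _ = _ := by rw [h4]

end Pool.Agent.LE.H93F
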