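import Pool.Agent.Helper93_LSF.Inner

/-!
# Between the effective band edge and the bulk, part 2
-/

set_option autoImplicit false

open MeasureTheory ProbabilityTheory Function Filter

open scoped ENNReal BigOperators Topology NNReal

noncomputable section

namespace Pool.Agent.LE.H93F

open Pool.Agent.Anderson Pool.Agent.Loc Pool.Agent.Mob Pool.Agent.Helper54.Bal Pool.Agent.BED
  Pool.Agent.LE.H93W Pool.Agent.LE.H93Z Pool.Agent.LE.CL

theorem exists_both {d M : ℕ} [NeZero M] {v : ℝ≥0} {p q : ℝ} {A B : (Tor d M → ℝ) → Prop}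
    (hA : gau d M v {V | ¬ A V} ≤ ENNReal.ofReal p) (hB : gau d M v {V | ¬ B V} ≤ ENNReal.ofReal q)
    (hp : p ≤ 1 / 4) (hq : q ≤ 1 / 4) : ∃ V, A V ∧ B V := by
  by_contra hcon
  push Not at hcon
  have h1 : (Set.univ : Set (Tor d M → ℝ)) ⊆ {V | ¬ A V} ∪ {V | ¬ B V} := by
    intro V _
    by_cases h : A V
    · exact Or.inr (hcon V h)
    · exact Or.inl h
  have : IsProbabilityMeasure (gau d M v) := by unfold gau; infer_instance
  have h2 : (1 : ℝ≥0∞) ≤ ENNReal.ofReal (1 / 4) + ENNReal.ofReal (1 / 4) := by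
    rw [← measure_univ (μ := gau d M v)]
    refine (measure_mono h1).trans ((measure_union_le _ _).trans (add_le_add ?_ ?_))
    · exact hA.trans (ENNReal.ofReal_le_ofReal hp)
    · exact hB.trans (ENNReal.ofReal_le_ofReal hq)
  rw [← ENNReal.ofReal_add (by norm_num) (by norm_num)] at h2
  rw [← ENNReal.ofReal_one, ENNReal.ofReal_le_ofReal_iff (by norm_num)] at h2
  norm_num at h2

/-- the two landscape functions of one torus: both edges are within `9 / t` of each other -/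
theorem two_edges (fle : FleStmt) (sgx : SgxStmt) (sms : SmsStmt) (cdp : CdpStmt) (upx : UpxStmt)
    (flq : IR.FlqStmt) (hexE : ∀ (d : ℕ) (σ E : ℝ), 1 ≤ d → σ ≠ 0 → ∃ g, LyaAt d σ E g)
    (d : ℕ) (hd3 : 3 ≤ d) (K₀ c' : ℝ) (hK₀ : 1 ≤ K₀) (hc' : 0 < c') :
    ∃ Kε c s B η₀ : ℝ, 1 ≤ Kε ∧ 0 < c ∧ 0 < s ∧ 1 ≤ B ∧ 0 < η₀ ∧
      ∀ (M' : ℕ) (v : ℝ≥0) (σ t L Es : ℝ), σ ≠ 0 → |σ| ≤ c → (v : ℝ) = σ ^ 2 → B ≤ t →
      L = Real.log (1 / |σ|) + Real.log t → σ ^ 2 * growth d t * L ≤ s →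
      (t / |σ|) ^ K₀ ≤ M' → M' ≤ 2 * (t / |σ|) ^ K₀ → |Es - 2 * d| ≤ η₀ →
      (∀ E g : ℝ, Es + 1 / t ≤ E → E ≤ Es + c' → LyaAt d σ E g →
        1 / 2 * Real.sqrt (E - Es) ≤ g ∧ g ≤ 3 / 2 * Real.sqrt (E - Es)) →
      ∃ z μ ε p : ℝ, z ≤ 2 * d + 1 ∧ 10 * t ≤ μ ∧ μ ≤ 12 * t ∧ 0 < ε ∧
        ε ^ 2 ≤ Kε * L * σ ^ 2 * growth d t ∧ 0 ≤ p ∧ p ≤ (|σ| / t) ^ (2 * (d : ℝ) + 1) ∧
        (∀ h : NeZero M', gau d M' v {V | ¬ FlatE ε z μ V} ≤ ENNReal.ofReal p) ∧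
        |Es - z| ≤ 9 / t := by
  have hd1 : 1 ≤ d := by omega
  have hdR : (3 : ℝ) ≤ d := by exact_mod_cast hd3
  obtain ⟨e, ct, c0, C0, Q, he0, he50, hct, hct4, hc0, hC0, htor⟩ :=
    torus fle sgx sms cdp upx d hd3
  obtain ⟨q0, D0, hq0, hD0, hflq⟩ := flq d hd3
  obtain ⟨Kε, hKεd⟩ : ∃ K : ℝ, K = max 1 ((d * K₀ + (2 * d + 4)) / q0) := ⟨_, rfl⟩
  have hKε1 : 1 ≤ Kε := by rw [hKεd]; exact le_max_left _ _
  have hKε2 : d * K₀ + (2 * d + 4) ≤ q0 * Kε := by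
    have : (d * K₀ + (2 * d + 4)) / q0 ≤ Kε := by rw [hKεd]; exact le_max_right _ _
    rw [div_le_iff₀ hq0] at this
    linarith only [this]
  have hmm : 0 < d * K₀ + ((Q : ℝ) + 5) := by positivity
  obtain ⟨s₂, hs₂d⟩ : ∃ s : ℝ, s = c0 * e / (d * K₀ + ((Q : ℝ) + 5)) := ⟨_, rfl⟩
  have hs₂ : 0 < s₂ := by rw [hs₂d]; positivity
  have hs₂e : (d * K₀ + ((Q : ℝ) + 5)) * s₂ = c0 * e := by
    rw [hs₂d]
    field_simp
  obtain ⟨T₀, hT₀, hlog⟩ := log_le_sqrt (2 / s₂ + 1)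
  have hT₀0 : 0 < T₀ := by linarith only [hT₀]
  obtain ⟨s, hsd⟩ : ∃ s : ℝ, s = min s₂ (1 / (2500 * Kε)) := ⟨_, rfl⟩
  have hs : 0 < s := by rw [hsd]; positivity
  have hss₂ : s ≤ s₂ := by rw [hsd]; exact min_le_left _ _
  have hsK : Kε * s ≤ 1 / 2500 := by
    have : s ≤ 1 / (2500 * Kε) := by rw [hsd]; exact min_le_right _ _
    rw [le_div_iff₀ (by positivity)] at this
    linarith only [this]
  obtain ⟨m, hmd⟩ : ∃ m : ℝ, m = min c' ct := ⟨_, rfl⟩
  have hm : 0 < m := by rw [hmd]; exact lt_min hc' hct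
  have hmc' : m ≤ c' := by rw [hmd]; exact min_le_left _ _
  have hmct : m ≤ ct := by rw [hmd]; exact min_le_right _ _
  obtain ⟨c, hcd⟩ : ∃ c : ℝ, c = min (min (min ct (1 / T₀)) (min (1 / (1 / e + 4)) (1 / 4)))
      (min (min (e ^ Q / (4 * (C0 * 2 ^ d / e + 1))) (1 / (D0 * 2 ^ d + 1)))
        (m / (16 * (C0 + 1)))) := ⟨_, rfl⟩
  have hc : 0 < c := by rw [hcd]; positivity
  have k1 : c ≤ ct := by
    rw [hcd]; exact (min_le_left _ _).trans ((min_le_left _ _).trans (min_le_left _ _))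
  have k2 : T₀ * c ≤ 1 := by
    have : c ≤ 1 / T₀ := by
      rw [hcd]; exact (min_le_left _ _).trans ((min_le_left _ _).trans (min_le_right _ _))
    rw [le_div_iff₀ hT₀0] at this
    linarith only [this]
  have k3 : (1 / e + 4) * c ≤ 1 := by
    have : c ≤ 1 / (1 / e + 4) := by
      rw [hcd]; exact (min_le_left _ _).trans ((min_le_right _ _).trans (min_le_left _ _))
    rw [le_div_iff₀ (by positivity)] at this
    linarith only [this]
  have k4 : c ≤ 1 / 4 := by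
    rw [hcd]; exact (min_le_left _ _).trans ((min_le_right _ _).trans (min_le_right _ _))
  have k5 : (C0 * 2 ^ d / e + 1) * c ≤ e ^ Q / 4 := by
    have : c ≤ e ^ Q / (4 * (C0 * 2 ^ d / e + 1)) := by
      rw [hcd]; exact (min_le_right _ _).trans ((min_le_left _ _).trans (min_le_left _ _))
    rw [le_div_iff₀ (by positivity)] at this
    linarith only [this]
  have k6 : (D0 * 2 ^ d + 1) * c ≤ 1 := by
    have : c ≤ 1 / (D0 * 2 ^ d + 1) := by
      rw [hcd]; exact (min_le_right _ _).trans ((min_le_left _ _).trans (min_le_right _ _))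
    rw [le_div_iff₀ (by positivity)] at this
    linarith only [this]
  have k7 : 16 * (C0 + 1) * c ≤ m := by
    have : c ≤ m / (16 * (C0 + 1)) := by
      rw [hcd]; exact (min_le_right _ _).trans (min_le_right _ _)
    rw [le_div_iff₀ (by positivity)] at this
    linarith only [this]
  obtain ⟨B, hBd⟩ : ∃ B : ℝ, B = 1 / e + 4 + 1 / c := ⟨_, rfl⟩
  have hB1 : 1 / e + 4 ≤ B := by
    rw [hBd]
    have : 0 < 1 / c := by positivity
    linarith only [this]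
  have hB2 : 1 / c ≤ B := by
    rw [hBd]
    have : 0 < 1 / e := by positivity
    linarith only [this]
  have he1 : 0 < 1 / e := by positivity
  refine ⟨Kε, c, s, B, m / 4, hKε1, hc, hs, by linarith only [hB1, he1],
    by linarith only [hm], ?_⟩
  intro M' v σ t L Es hσ hσc hv hBt hL hS hM1 hM2 hEs hasy
  have hσ0 : 0 < |σ| := abs_pos.2 hσ
  have hσ1 : |σ| ≤ 1 := by linarith only [hσc, k4]
  have hσ2 : 0 < σ ^ 2 := by positivity
  have hσsq : σ ^ 2 = |σ| ^ 2 := (sq_abs σ).symm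
  have ht4 : 1 / e + 4 ≤ t := hB1.trans hBt
  have ht1 : 1 ≤ t := by linarith only [ht4, he1]
  have ht0 : 0 < t := by linarith only [ht1]
  have hi1 : 1 / e + 4 ≤ 1 / |σ| := by
    rw [le_div_iff₀ hσ0]
    exact (mul_le_mul_of_nonneg_left hσc (by positivity)).trans k3
  have hiT : T₀ ≤ 1 / |σ| := by
    rw [le_div_iff₀ hσ0]
    exact (mul_le_mul_of_nonneg_left hσc hT₀0.le).trans k2
  have hi0 : 0 < 1 / |σ| := by positivity
  have hi1' : 1 ≤ 1 / |σ| := by linarith only [hi1, he1]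
  obtain ⟨t₁, ht₁d⟩ : ∃ t₁ : ℝ, t₁ = max t (1 / |σ|) := ⟨_, rfl⟩
  have htt₁ : t ≤ t₁ := by rw [ht₁d]; exact le_max_left _ _
  have hit₁ : 1 / |σ| ≤ t₁ := by rw [ht₁d]; exact le_max_right _ _
  have ht₁1 : 1 ≤ t₁ := ht1.trans htt₁
  have ht₁0 : 0 < t₁ := by linarith only [ht₁1]
  obtain ⟨T, hT⟩ : ∃ T : ℝ, T = 1 / e * t₁ := ⟨_, rfl⟩
  have h1e : 1 ≤ 1 / e := by rw [le_div_iff₀ he0]; linarith only [he50]
  have hTt₁ : t₁ ≤ T := by
    rw [hT]
    have := mul_le_mul_of_nonneg_right h1e ht₁0.le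
    linarith only [this]
  have hT1 : 1 ≤ T := ht₁1.trans hTt₁
  have hT0 : 0 < T := by linarith only [hT1]
  obtain ⟨y, hy⟩ : ∃ y : ℝ, y = t / |σ| := ⟨_, rfl⟩
  obtain ⟨y₁, hy₁⟩ : ∃ y : ℝ, y = t₁ / |σ| := ⟨_, rfl⟩
  rw [← hy] at hM1 hM2
  have hyy₁ : y ≤ y₁ := by
    rw [hy, hy₁]
    exact div_le_div_of_nonneg_right htt₁ hσ0.le
  have hyt : t ≤ y := by
    rw [hy, le_div_iff₀ hσ0]
    have := mul_le_mul_of_nonneg_left hσ1 ht0.le
    linarith only [this]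
  have hy1 : 1 ≤ y := ht1.trans hyt
  have hy0 : 0 < y := by linarith only [hy1]
  have hlogy : Real.log y = L := by
    rw [hy, hL, Real.log_div ht0.ne' hσ0.ne', one_div, Real.log_inv]
    ring
  have hlogy₁ : Real.log y₁ = Real.log (1 / |σ|) + Real.log t₁ := by
    rw [hy₁, Real.log_div ht₁0.ne' hσ0.ne', one_div, Real.log_inv]
    ring
  have hL0 : 0 ≤ L := by rw [← hlogy]; exact Real.log_nonneg hy1
  have hyM : y ≤ M' := by
    refine le_trans ?_ hM1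
    calc y = y ^ (1 : ℝ) := (Real.rpow_one y).symm
      _ ≤ y ^ K₀ := Real.rpow_le_rpow_of_exponent_le hy1 hK₀
  have hM2' : (M' : ℝ) ≤ 2 * y₁ ^ K₀ := by
    refine hM2.trans (mul_le_mul_of_nonneg_left ?_ (by norm_num))
    exact Real.rpow_le_rpow hy0.le hyy₁ (by linarith only [hK₀])
  have hTM : T + 3 ≤ M' := by
    refine le_trans ?_ hyM
    rw [hT, hy]
    rcases le_total t (1 / |σ|) with h | h
    · have e1 : t₁ = 1 / |σ| := by rw [ht₁d]; exact max_eq_right h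
      rw [e1]
      have h2 : (1 / e + 4) * (1 / |σ|) ≤ t * (1 / |σ|) := mul_le_mul_of_nonneg_right ht4 hi0.le
      have e2 : t / |σ| = t * (1 / |σ|) := by ring
      rw [e2]
      have h3 : (1 / e + 4) * (1 / |σ|) = 1 / e * (1 / |σ|) + 4 * (1 / |σ|) := by ring
      linarith only [h2, h3, hi1']
    · have e1 : t₁ = t := by rw [ht₁d]; exact max_eq_left h
      rw [e1]
      have h2 : t * (1 / e + 4) ≤ t * (1 / |σ|) := mul_le_mul_of_nonneg_left hi1 ht0.le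
      have e2 : t / |σ| = t * (1 / |σ|) := by ring
      rw [e2]
      have h3 : t * (1 / e + 4) = 1 / e * t + 4 * t := by ring
      linarith only [h2, h3, ht1]
  -- the scale `t₁`
  have hS2 : σ ^ 2 * growth d t₁ * Real.log y₁ ≤ s₂ := by
    rcases le_total t (1 / |σ|) with h | h
    · have e1 : t₁ = 1 / |σ| := by rw [ht₁d]; exact max_eq_right h
      have h1 := growth_le_self d hi1'
      have h2 := hlog _ hiT
      have h3 : Real.sqrt (1 / |σ|) ≤ 1 / |σ| := by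
        rw [Real.sqrt_le_left hi0.le]
        exact le_self_pow₀ hi1' (by norm_num)
      have h4 : Real.log y₁ = 2 * Real.log (1 / |σ|) := by rw [hlogy₁, e1]; ring
      have h5 : 0 ≤ Real.log (1 / |σ|) := Real.log_nonneg hi1'
      rw [h4, e1]
      have h6 : (2 / s₂) * Real.log (1 / |σ|) ≤ 1 / |σ| := by
        have : 0 < 2 / s₂ := by positivity
        have h8 : (2 / s₂ + 1) * (1 + Real.log (1 / |σ|)) =
          (2 / s₂) * Real.log (1 / |σ|) + (2 / s₂ + 1 + Real.log (1 / |σ|)) := by ring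
        linarith only [this, h8, h2, h3, h5]
      have h7 : 2 * Real.log (1 / |σ|) ≤ s₂ * (1 / |σ|) := by
        have := mul_le_mul_of_nonneg_left h6 hs₂.le
        have e3 : s₂ * (2 / s₂ * Real.log (1 / |σ|)) = 2 * Real.log (1 / |σ|) := by
          field_simp
        linarith only [this, e3]
      calc σ ^ 2 * growth d (1 / |σ|) * (2 * Real.log (1 / |σ|))
          ≤ σ ^ 2 * (1 / |σ|) * (s₂ * (1 / |σ|)) := by gcongr
        _ = s₂ := by
            rw [hσsq]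
            field_simp
    · have e1 : t₁ = t := by rw [ht₁d]; exact max_eq_left h
      have e2 : y₁ = y := by rw [hy₁, hy, e1]
      rw [e1, e2, hlogy]
      exact hS.trans hss₂
  have hgr₁ := one_le_growth d ht₁1
  have hgrT := one_le_growth d hT1
  have hgrt := one_le_growth d ht1
  have hly₁ : 0 ≤ Real.log y₁ := Real.log_nonneg (hy1.trans hyy₁)
  have hbT : (d * K₀ + ((Q + 5 : ℕ) : ℝ)) * Real.log y₁ ≤ c0 / (σ ^ 2 * growth d T) := by
    rw [le_div_iff₀ (by positivity)]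
    push_cast
    have h1 : growth d T ≤ 1 / e * growth d t₁ := by rw [hT]; exact growth_mul d h1e ht₁1
    calc (d * K₀ + ((Q : ℝ) + 5)) * Real.log y₁ * (σ ^ 2 * growth d T)
        ≤ (d * K₀ + ((Q : ℝ) + 5)) * Real.log y₁ * (σ ^ 2 * (1 / e * growth d t₁)) := by
          gcongr
      _ = (d * K₀ + ((Q : ℝ) + 5)) * (1 / e) * (σ ^ 2 * growth d t₁ * Real.log y₁) := by ring
      _ ≤ (d * K₀ + ((Q : ℝ) + 5)) * (1 / e) * s₂ := by gcongr
      _ = ((d * K₀ + ((Q : ℝ) + 5)) * s₂) * (1 / e) := by ring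
      _ = c0 := by
          rw [hs₂e]
          field_simp
  obtain ⟨pT, hpT⟩ : ∃ p : ℝ, p = C0 * (1 + Real.log T) * (M' : ℝ) ^ d *
    Real.exp (-c0 / (σ ^ 2 * growth d T)) := ⟨_, rfl⟩
  have hpT1 : pT ≤ C0 * T * 2 ^ d * (|σ| / t₁) ^ (Q + 5) := by
    rw [hpT, neg_div]
    exact p_large hC0 hT1 hσ0 ht₁1 hy₁ hM2' hbT
  have hpT2 : pT ≤ e ^ Q / 4 * |σ| ^ 2 / t₁ ^ (Q + 4) := by
    refine hpT1.trans ?_
    have e1 : C0 * T * 2 ^ d * (|σ| / t₁) ^ (Q + 5) =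
        (C0 * 2 ^ d / e * |σ| ^ (Q + 5)) / t₁ ^ (Q + 4) := by
      have e2 : (|σ| / t₁) ^ (Q + 5) = |σ| ^ (Q + 5) / (t₁ ^ (Q + 4) * t₁) := by
        rw [div_pow, ← pow_succ]
      rw [e2, hT]
      field_simp
    rw [e1]
    refine div_le_div_of_nonneg_right ?_ (by positivity)
    have h1 : |σ| ^ (Q + 5) ≤ |σ| ^ 3 := pow_le_pow_of_le_one hσ0.le hσ1 (by omega)
    calc C0 * 2 ^ d / e * |σ| ^ (Q + 5) ≤ C0 * 2 ^ d / e * |σ| ^ 3 :=
          mul_le_mul_of_nonneg_left h1 (by positivity)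
      _ = (C0 * 2 ^ d / e * |σ|) * |σ| ^ 2 := by ring
      _ ≤ e ^ Q / 4 * |σ| ^ 2 := by
          refine mul_le_mul_of_nonneg_right ?_ (by positivity)
          refine le_trans ?_ k5
          have h2 : C0 * 2 ^ d / e * |σ| ≤ C0 * 2 ^ d / e * c :=
            mul_le_mul_of_nonneg_left hσc (by positivity)
          linarith only [h2, hc]
  have heQ : e ^ Q ≤ 1 := pow_le_one₀ he0.le (by linarith only [he50])
  have hpTσ : pT ≤ |σ| ^ 2 / 4 := by
    refine hpT2.trans ?_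
    rw [div_le_iff₀ (by positivity)]
    have h1 : 1 ≤ t₁ ^ (Q + 4) := one_le_pow₀ ht₁1
    have h2 : e ^ Q / 4 * |σ| ^ 2 ≤ |σ| ^ 2 / 4 := by
      have := mul_le_mul_of_nonneg_right heQ (by positivity : (0 : ℝ) ≤ |σ| ^ 2 / 4)
      linarith only [this]
    have h3 : |σ| ^ 2 / 4 * 1 ≤ |σ| ^ 2 / 4 * t₁ ^ (Q + 4) :=
      mul_le_mul_of_nonneg_left h1 (by positivity)
    linarith only [h2, h3]
  have hσsq1 : |σ| ^ 2 ≤ 1 := pow_le_one₀ hσ0.le hσ1
  have hpT4 : pT ≤ 1 / 4 := by linarith only [hpTσ, hσsq1]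
  have hpTQ : pT ≤ 1 / T ^ Q := by
    refine hpT2.trans ?_
    have e1 : 1 / T ^ Q = e ^ Q / t₁ ^ Q := by
      rw [hT, mul_pow, div_pow, one_pow]
      field_simp
    rw [e1]
    refine div_le_div₀ (by positivity) ?_ (by positivity) ?_
    · have h1 : e ^ Q * |σ| ^ 2 ≤ e ^ Q * 1 := mul_le_mul_of_nonneg_left hσsq1 (by positivity)
      have h2 : 0 ≤ e ^ Q := by positivity
      linarith only [h1, h2]
    · exact pow_le_pow_right₀ ht₁1 (by omega)
  have hpT0 : 0 ≤ pT := by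
    rw [hpT]
    have := Real.log_nonneg hT1
    positivity
  have hsqT : Real.sqrt pT ≤ |σ| := by
    rw [Real.sqrt_le_left hσ0.le]
    have : (0 : ℝ) ≤ |σ| ^ 2 := by positivity
    linarith only [this, hpTσ]
  -- the scale `t`
  obtain ⟨ε, hεd⟩ : ∃ ε : ℝ, ε = Real.sqrt (Kε * L * σ ^ 2 * growth d t) := ⟨_, rfl⟩
  have hLpos : 0 < L := by
    rw [hL]
    have h1 : 0 < Real.log t := Real.log_pos (by linarith only [ht4, he1])
    have h2 : 0 ≤ Real.log (1 / |σ|) := Real.log_nonneg hi1'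
    linarith only [h1, h2]
  have hin : 0 < Kε * L * σ ^ 2 * growth d t := by positivity
  have hε0 : 0 < ε := by rw [hεd]; exact Real.sqrt_pos.2 hin
  have hε2 : ε ^ 2 = Kε * L * σ ^ 2 * growth d t := by
    rw [hεd]; exact Real.sq_sqrt hin.le
  have hε50 : ε ≤ 1 / 50 := by
    have h1 : ε ^ 2 ≤ (1 / 50) ^ 2 := by
      rw [hε2]
      calc Kε * L * σ ^ 2 * growth d t = Kε * (σ ^ 2 * growth d t * L) := by ring
        _ ≤ Kε * s := mul_le_mul_of_nonneg_left hS (by linarith only [hKε1])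
        _ ≤ 1 / 2500 := hsK
        _ = (1 / 50) ^ 2 := by norm_num
    exact le_of_sq_le_sq h1 (by norm_num)
  have hbq : (d * K₀ + ((2 * d + 4 : ℕ) : ℝ)) * Real.log y ≤
      q0 * ε ^ 2 / (σ ^ 2 * growth d t) := by
    rw [le_div_iff₀ (by positivity), hε2, hlogy]
    push_cast
    calc (d * K₀ + (2 * (d : ℝ) + 4)) * L * (σ ^ 2 * growth d t)
        ≤ (q0 * Kε) * L * (σ ^ 2 * growth d t) := by gcongr
      _ = _ := by ring
  obtain ⟨pq, hpq⟩ : ∃ p : ℝ, p = D0 * (1 + Real.log t) * (M' : ℝ) ^ d *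
    Real.exp (-(q0 * ε ^ 2) / (σ ^ 2 * growth d t)) := ⟨_, rfl⟩
  have hpq1 : pq ≤ D0 * t * 2 ^ d * (|σ| / t) ^ (2 * d + 4) := by
    rw [hpq, neg_div]
    exact p_large hD0 ht1 hσ0 ht1 hy hM2 hbq
  have hst : |σ| / t ≤ |σ| := div_le_self hσ0.le ht1
  have hst0 : 0 < |σ| / t := by positivity
  have hpq2 : pq ≤ (|σ| / t) ^ (2 * d + 1) := by
    refine hpq1.trans ?_
    have e1 : D0 * t * 2 ^ d * (|σ| / t) ^ (2 * d + 4) =
        (D0 * 2 ^ d * |σ|) * (|σ| / t) ^ 2 * (|σ| / t) ^ (2 * d + 1) := by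
      have : (|σ| / t) ^ (2 * d + 4) = (|σ| / t) ^ (2 * d + 1) * (|σ| / t) ^ 2 * (|σ| / t) := by
        ring
      rw [this]
      field_simp
    rw [e1]
    have h1 : (D0 * 2 ^ d * |σ|) * (|σ| / t) ^ 2 ≤ 1 := by
      have h2 : D0 * 2 ^ d * |σ| ≤ 1 := by
        have h3 : D0 * 2 ^ d * |σ| ≤ D0 * 2 ^ d * c :=
          mul_le_mul_of_nonneg_left hσc (by positivity)
        linarith only [h3, k6, hc]
      have h4 : (|σ| / t) ^ 2 ≤ 1 := pow_le_one₀ hst0.le (hst.trans hσ1)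
      exact mul_le_one₀ h2 (by positivity) h4
    have h5 : 0 ≤ (|σ| / t) ^ (2 * d + 1) := by positivity
    have := mul_le_mul_of_nonneg_right h1 h5
    linarith only [this]
  have hpq3 : pq ≤ (|σ| / t) ^ (2 * (d : ℝ) + 1) := by
    refine hpq2.trans (le_of_eq ?_)
    rw [← Real.rpow_natCast]
    push_cast
    rfl
  have hpq4 : pq ≤ 1 / 4 := by
    refine hpq2.trans ?_
    have h1 : (|σ| / t) ^ (2 * d + 1) ≤ (|σ| / t) ^ 1 :=
      pow_le_pow_of_le_one hst0.le (hst.trans hσ1) (by omega)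
    rw [pow_one] at h1
    linarith only [h1, hst, hσc, k4]
  have hpq0 : 0 ≤ pq := by
    rw [hpq]
    have := Real.log_nonneg ht1
    positivity
  have hM3 : 3 ≤ M' := by
    have : (3 : ℝ) ≤ M' := by linarith only [hTM, hT0]
    exact_mod_cast this
  have hM0 : M' ≠ 0 := by omega
  obtain ⟨z, μ, -, hz, hμ1, hμ2, hflat⟩ := hflq M' v σ t ε pq hσ hσ1 hv hM3 ht1
    (hyt.trans hyM) hε0 hε50 hpq (by linarith only [hpq4])
  obtain ⟨z', μ', hz', -, hμ', hflat', hasy'⟩ := htor M' v σ t₁ T pT hσ (hσc.trans k1) hv hit₁ hT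
    hTM hpT hpTQ
  refine ⟨z, μ, ε, pq, hz, hμ1, hμ2, hε0, hε2.le, hpq0, hpq3, hflat, ?_⟩
  have : NeZero M' := ⟨hM0⟩
  obtain ⟨V, hV1, hV2⟩ := exists_both (hflat ‹_›) (hflat' ‹_›) hpq4 hpT4
  have hzz : |z - z'| ≤ 6 / 5 / (9 * t) :=
    z_close hV1 hV2 hε50 he50 (by positivity) (by linarith only [hμ1, ht0])
      (by linarith only [hμ', hTt₁, htt₁, ht0])
  have hu : 0 < 1 / t := by positivity
  have hz'2 : |z' - 2 * d| ≤ 3 * m / 16 := by
    refine hz'.trans ?_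
    have h1 : σ ^ 2 ≤ c := by
      rw [hσsq]
      have : |σ| ^ 2 ≤ |σ| ^ 1 := pow_le_pow_of_le_one hσ0.le hσ1 (by norm_num)
      rw [pow_one] at this
      linarith only [this, hσc]
    have h2 : 1 / T ≤ c := by
      rw [div_le_iff₀ hT0]
      have h3 : 1 / c ≤ T := hB2.trans (hBt.trans (htt₁.trans hTt₁))
      rw [div_le_iff₀ hc] at h3
      linarith only [h3]
    have h3 : σ ^ 2 + 1 / T + Real.sqrt pT ≤ 3 * c := by
      linarith only [h1, h2, hsqT, hσc]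
    have h4 : C0 * (σ ^ 2 + 1 / T + Real.sqrt pT) ≤ C0 * (3 * c) :=
      mul_le_mul_of_nonneg_left h3 hC0.le
    have h5 : 0 ≤ C0 * c := by positivity
    linarith only [h4, k7, h5, hc]
  have hut : 1 / t ≤ c := by
    rw [div_le_iff₀ ht0]
    have h3 : 1 / c ≤ t := hB2.trans hBt
    rw [div_le_iff₀ hc] at h3
    linarith only [h3]
  have hcm : c ≤ m / 16 := by
    have h1 : 16 * 1 * c ≤ 16 * (C0 + 1) * c :=
      mul_le_mul_of_nonneg_right (by linarith only [hC0]) hc.le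
    linarith only [h1, k7]
  have hdiff : |Es - z'| ≤ m / 4 + 3 * m / 16 := by
    have h1 : Es - z' = (Es - 2 * d) - (z' - 2 * d) := by ring
    rw [h1]
    exact (abs_sub _ _).trans (add_le_add hEs hz'2)
  have hu₁ : 1 / t₁ ≤ 1 / t := one_div_le_one_div_of_le ht0 htt₁
  have hcl : |Es - z'| ≤ 8 * (1 / t) := by
    refine close_asy hasy (fun E g hE hE2 hg => hasy' E g (by linarith only [hE, hu₁]) hE2 hg)
      hu ?_ ?_ (fun E => hexE d σ E hd1 hσ)
    · linarith only [hdiff, hut, hcm, hmc', hm]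
    · linarith only [hdiff, hut, hcm, hmct, hm]
  have h1 : Es - z = (Es - z') - (z - z') := by ring
  rw [h1]
  refine (abs_sub _ _).trans ((add_le_add hcl hzz).trans ?_)
  have e1 : 8 * (1 / t) + 6 / 5 / (9 * t) = (8 + 2 / 15) / t := by
    field_simp
    ring
  rw [e1]
  exact div_le_div_of_nonneg_right (by norm_num) ht0.le

end Pool.Agent.LE.H93F
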