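import Pool.Agent.Helper93_LSH.QMS
import Pool.Agent.Helper93_LSF.Expand

/-!
# QMF: everything near the effective band edge, at one scale
-/

set_option autoImplicit false

open MeasureTheory ProbabilityTheory Function Filter

open scoped ENNReal BigOperators Topology NNReal

noncomputable section

namespace Pool.Agent.LE.H93F

open Pool.Agent.Anderson Pool.Agent.Loc Pool.Agent.Mob Pool.Agent.Helper54.Bal Pool.Agent.BED
  Pool.Agent.LE.H93W Pool.Agent.LE.H93Z Pool.Agent.LE.CL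

/-- everything near the effective band edge, at one scale `t` -/
def QmfStmt : Prop :=
  ∀ (d : ℕ) (ε : ℝ), 3 ≤ d → 0 < ε → ε < 1 → ∃ c C : ℝ, 0 < c ∧ 0 < C ∧
    ∀ σ t : ℝ, σ ≠ 0 → |σ| ≤ c → 1 / |σ| ≤ t → σ ^ 2 * growth d t * Real.log t ≤ c →
    ∃ Es : ℝ, |Es - 2 * d| ≤ C * (σ ^ 2 + 1 / t) ∧
      (|σ|⁻¹ ^ 3 ≤ t →
        |Es - (2 * d + watson d * σ ^ 2)| ≤ C * |σ| ^ (2 + 1 / (24 * d : ℝ))) ∧
      (∀ E g : ℝ, Es + 1 / t ≤ E → LyaAt d σ E g → c * Real.sqrt (min (E - Es) 1) ≤ g) ∧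
      (∀ E g : ℝ, Es + 1 / t ≤ E → E ≤ Es + c → LyaAt d σ E g →
        (1 - ε) * Real.sqrt (E - Es) ≤ g ∧ g ≤ (1 + ε) * Real.sqrt (E - Es)) ∧
      ∀ E g : ℝ, |E - Es| ≤ c → LyaAt d σ E g →
        g ≤ C * Real.sqrt (|E - Es| + 1 / t) * Real.log t ^ 2

theorem p_pow5 {d N : ℕ} {c0 C0 c σ T : ℝ} {M' : ℕ} (hc0 : 0 < c0) (hC0 : 0 < C0)
    (hσ : σ ≠ 0) (hT : 1 ≤ T) (hcc : c * (d + N + 3) ≤ c0)
    (hM' : (M' : ℝ) ≤ 5 * T) (hu : σ ^ 2 * growth d T * Real.log T ≤ c)
    (hTC : C0 * 5 ^ d ≤ T) :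
    C0 * (1 + Real.log T) * (M' : ℝ) ^ d * Real.exp (-c0 / (σ ^ 2 * growth d T)) ≤
      1 / T ^ (N + 1) := by
  have ht0 : 0 < T := by linarith only [hT]
  have hgr := one_le_growth d hT
  have hσ2 : 0 < σ ^ 2 := by positivity
  have hu0 : 0 < σ ^ 2 * growth d T := by positivity
  have hlog : 0 ≤ Real.log T := Real.log_nonneg hT
  have h1 : (d + N + 3 : ℝ) * Real.log T ≤ c0 / (σ ^ 2 * growth d T) := by
    rw [le_div_iff₀ hu0]
    calc (d + N + 3 : ℝ) * Real.log T * (σ ^ 2 * growth d T) =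
          (σ ^ 2 * growth d T * Real.log T) * (d + N + 3) := by ring
      _ ≤ c * (d + N + 3) := mul_le_mul_of_nonneg_right hu (by positivity)
      _ ≤ c0 := hcc
  have h2 : Real.exp (-c0 / (σ ^ 2 * growth d T)) ≤ 1 / T ^ (d + N + 3) := by
    have h3 : Real.exp (-c0 / (σ ^ 2 * growth d T)) ≤
        Real.exp (-((d + N + 3 : ℝ) * Real.log T)) := by
      apply Real.exp_le_exp.2
      rw [neg_div]
      linarith only [h1]
    refine h3.trans (le_of_eq ?_)
    rw [Real.exp_neg, one_div]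
    congr 1
    have : (d + N + 3 : ℝ) * Real.log T = ((d + N + 3 : ℕ) : ℝ) * Real.log T := by push_cast; ring
    rw [this, Real.exp_nat_mul, Real.exp_log ht0]
  have h3 : 1 + Real.log T ≤ T := by
    have := Real.log_le_sub_one_of_pos ht0
    linarith only [this]
  have h4 : (M' : ℝ) ^ d ≤ 5 ^ d * T ^ d := by
    rw [← mul_pow]
    exact pow_le_pow_left₀ (Nat.cast_nonneg _) hM' d
  calc C0 * (1 + Real.log T) * (M' : ℝ) ^ d * Real.exp (-c0 / (σ ^ 2 * growth d T))
      ≤ C0 * T * (5 ^ d * T ^ d) * (1 / T ^ (d + N + 3)) := by gcongr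
    _ = (C0 * 5 ^ d) / T ^ (N + 2) := by
        field_simp
        ring
    _ ≤ T / T ^ (N + 2) := by gcongr
    _ = _ := by
        rw [div_eq_div_iff (by positivity) (by positivity)]
        ring

theorem qmf (fle : FleStmt) (sgx : SgxStmt) (sms : SmsStmt) (cdp : CdpStmt) (upx : UpxStmt)
    (pen : PenStmt) (hUp : LOC.UpStmt.{0}) (hLow : LOC.LowStmt.{0}) : QmfStmt := by
  intro d ε hd3 hε hε1
  have hd : 1 ≤ d := by omega
  have hdR : (1 : ℝ) ≤ d := by exact_mod_cast hd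
  obtain ⟨CP, hCP, hcdp'⟩ := cdp d hd
  obtain ⟨e, hedef⟩ : ∃ e : ℝ, e = min (min (ε / 4) (ε / (CP + 4))) (min (1 / 50) (1 / CP)) :=
    ⟨_, rfl⟩
  have he0 : 0 < e := by rw [hedef]; positivity
  have he4 : 4 * e ≤ ε := by
    have : e ≤ ε / 4 := by rw [hedef]; exact (min_le_left _ _).trans (min_le_left _ _)
    linarith only [this]
  have heC : e * (CP + 4) ≤ ε := by
    have : e ≤ ε / (CP + 4) := by rw [hedef]; exact (min_le_left _ _).trans (min_le_right _ _)
    rwa [le_div_iff₀ (by positivity)] at this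
  have he50 : e ≤ 1 / 50 := by
    rw [hedef]; exact (min_le_right _ _).trans (min_le_left _ _)
  have heCP : CP * e ≤ 1 := by
    have : e ≤ 1 / CP := by rw [hedef]; exact (min_le_right _ _).trans (min_le_right _ _)
    rw [le_div_iff₀ (by positivity)] at this
    linarith only [heC, he0, hε1]
  obtain ⟨c0, C0, C1, hc0, hC0, hC1, hfle⟩ := fle d e hd3 he0 he50
  obtain ⟨cp, Cp, hcp0, hCp1, hpen⟩ := pen d hd
  obtain ⟨cx, Cx, hcx0, hCx0, hexp⟩ := expand hUp hLow d hd3
  obtain ⟨A, p₀, hA, hp₀, hsms⟩ := sms d e hd he0 (by linarith only [he4, hε1])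
  obtain ⟨C2, hC2, hcdp⟩ := hcdp' e he0 he50 heCP
  obtain ⟨A2, CU, hA2, hCU, hupx⟩ := upx d hd
  obtain ⟨N0, hN0⟩ := exists_nat_ge (A2 + Cp)
  obtain ⟨N, hNdef⟩ : ∃ N : ℕ, N = N0 + 8 * d := ⟨_, rfl⟩
  have hA20 : 0 ≤ A2 := by linarith only [hA2]
  have hNN0 : (N0 : ℝ) ≤ N := by
    rw [hNdef]
    push_cast
    linarith only []
  have hN : A2 ≤ N := by linarith only [hNN0, hN0, hCp1]
  have hNp : Cp ≤ N := by linarith only [hNN0, hN0, hA20]
  have hN8 : 8 * d ≤ N := by omega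
  have hloge : 0 ≤ Real.log (1 / e) := Real.log_nonneg (by
    rw [le_div_iff₀ he0]; linarith only [he4, hε1])
  have hlog2e : 0 ≤ Real.log (2 / e) := Real.log_nonneg (by
    rw [le_div_iff₀ he0]; linarith only [he4, hε1])
  obtain ⟨b1, hb1⟩ : ∃ x : ℝ, x = 16 * (Real.log (2 / e) + 1) := ⟨_, rfl⟩
  obtain ⟨b2, hb2⟩ : ∃ x : ℝ, x = A * (4 + Real.log (2 / e)) := ⟨_, rfl⟩
  obtain ⟨b3, hb3⟩ : ∃ x : ℝ, x = C2 * (4 + Real.log (1 / e)) := ⟨_, rfl⟩
  obtain ⟨b4, hb4⟩ : ∃ x : ℝ, x = 2 * (N + 5 : ℝ) * (Real.log (1 / e) + 1) := ⟨_, rfl⟩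
  have hb10 : 0 ≤ b1 := by rw [hb1]; positivity
  have hb20 : 0 ≤ b2 := by rw [hb2]; positivity
  have hb30 : 0 ≤ b3 := by rw [hb3]; positivity
  have hb40 : 0 ≤ b4 := by rw [hb4]; positivity
  obtain ⟨T₀, hT₀, hlogT⟩ := log_le_sqrt (b1 + b2 + b3 + b4 + 480 + 40 * C2)
  have hT₀0 : 0 < T₀ := by linarith only [hT₀]
  obtain ⟨c, hcdef⟩ : ∃ c : ℝ, c = min (min (min (min cp cx) (c0 * e / (2 * (d + N + 7))))
    (min (e / 2) p₀)) (min (min (1 / (C0 * 5 ^ d + 50)) (1 / (4 * C0 + 1)))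
      (min (min (1 / T₀) (1 / Cp)) (1 / (2 * CU)))) := ⟨_, rfl⟩
  have hc : 0 < c := by rw [hcdef]; positivity
  have hc1 : c ≤ cp := by
    rw [hcdef]
    exact (min_le_left _ _).trans ((min_le_left _ _).trans ((min_le_left _ _).trans
      (min_le_left _ _)))
  have hcx : c ≤ cx := by
    rw [hcdef]
    exact (min_le_left _ _).trans ((min_le_left _ _).trans ((min_le_left _ _).trans
      (min_le_right _ _)))
  have hc2 : 2 * (1 / e) * c * (d + N + 7) ≤ c0 := by
    have : c ≤ c0 * e / (2 * (d + N + 7)) := by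
      rw [hcdef]; exact (min_le_left _ _).trans ((min_le_left _ _).trans (min_le_right _ _))
    rw [le_div_iff₀ (by positivity)] at this
    calc 2 * (1 / e) * c * (d + N + 7) = 1 / e * (c * (2 * (d + N + 7))) := by ring
      _ ≤ 1 / e * (c0 * e) := mul_le_mul_of_nonneg_left this (by positivity)
      _ = c0 := by field_simp
  have hce2 : c ≤ e / 2 := by
    rw [hcdef]; exact (min_le_left _ _).trans ((min_le_right _ _).trans (min_le_left _ _))
  have hcp : c ≤ p₀ := by
    rw [hcdef]; exact (min_le_left _ _).trans ((min_le_right _ _).trans (min_le_right _ _))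
  have hc4 : (C0 * 5 ^ d + 50) * c ≤ 1 := by
    have : c ≤ 1 / (C0 * 5 ^ d + 50) := by
      rw [hcdef]; exact (min_le_right _ _).trans ((min_le_left _ _).trans (min_le_left _ _))
    rw [le_div_iff₀ (by positivity)] at this
    linarith only [this]
  have hc5 : (4 * C0 + 1) * c ≤ 1 := by
    have : c ≤ 1 / (4 * C0 + 1) := by
      rw [hcdef]; exact (min_le_right _ _).trans ((min_le_left _ _).trans (min_le_right _ _))
    rw [le_div_iff₀ (by positivity)] at this
    linarith only [this]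
  have hc7 : T₀ * c ≤ 1 := by
    have : c ≤ 1 / T₀ := by
      rw [hcdef]
      exact (min_le_right _ _).trans ((min_le_right _ _).trans ((min_le_left _ _).trans
        (min_le_left _ _)))
    rw [le_div_iff₀ (by positivity)] at this
    linarith only [this]
  have hc9 : Cp * c ≤ 1 := by
    have : c ≤ 1 / Cp := by
      rw [hcdef]
      exact (min_le_right _ _).trans ((min_le_right _ _).trans ((min_le_left _ _).trans
        (min_le_right _ _)))
    rw [le_div_iff₀ (by positivity)] at this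
    linarith only [this]
  have hc8 : 2 * CU * c ≤ 1 := by
    have : c ≤ 1 / (2 * CU) := by
      rw [hcdef]; exact (min_le_right _ _).trans ((min_le_right _ _).trans (min_le_right _ _))
    rw [le_div_iff₀ (by positivity)] at this
    linarith only [this]
  have hce : c ≤ e := by linarith only [hce2, he0]
  refine ⟨c, 2 * C0 + Cp + Cx, hc, by positivity, ?_⟩
  intro σ t hσ hσc hσt hu
  have hσ0 : 0 < |σ| := abs_pos.2 hσ
  have hσ1 : |σ| ≤ 1 := by linarith only [hσc, hce2, he4, hε1]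
  have ht1c : 1 / c ≤ t := (one_div_le_one_div_of_le hσ0 hσc).trans hσt
  have hct : 1 ≤ c * t := by
    rw [div_le_iff₀ hc] at ht1c
    linarith only [ht1c]
  have ht0 : 0 < t := lt_of_lt_of_le (by positivity) hσt
  have hbig : ∀ B : ℝ, 0 ≤ B → B * c ≤ 1 → B ≤ t := by
    intro B hB hBc
    have h1 : (B * c) * t ≤ 1 * t := mul_le_mul_of_nonneg_right hBc ht0.le
    have h2 : B * 1 ≤ B * (c * t) := mul_le_mul_of_nonneg_left hct hB
    linarith only [h2, h1]
  have htb : C0 * 5 ^ d + 50 ≤ t := hbig _ (by positivity) hc4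
  have htT : T₀ ≤ t := hbig _ (by positivity) hc7
  have htU : 2 * CU ≤ t := hbig _ (by positivity) hc8
  have htp : Cp ≤ t := hbig _ (by linarith only [hCp1]) hc9
  have hC3 : 0 < C0 * 5 ^ d := by positivity
  have ht50 : 50 ≤ t := by linarith only [hC3, htb]
  have hte : 1 / e ≤ t := by
    refine hbig _ (by positivity) ?_
    rw [div_mul_eq_mul_div, one_mul, div_le_one he0]
    exact hce
  have h1tc : 1 / t ≤ c := by
    rw [div_le_iff₀ ht0]
    linarith only [hct]
  have h1te : 1 / t ≤ e := h1tc.trans hce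
  have hlogt : 0 ≤ Real.log t := Real.log_nonneg (by linarith only [htT, hT₀])
  have hlt1 : 1 ≤ 1 + Real.log t := by linarith only [hlogt]
  have hbig2 := hlogT t htT
  have hsq0 := Real.sqrt_nonneg t
  have hb : ∀ b : ℝ, b ≤ b1 + b2 + b3 + b4 + 480 + 40 * C2 → b * (1 + Real.log t) ≤ Real.sqrt t :=
    fun b hb => (mul_le_mul_of_nonneg_right hb (by linarith only [hlogt])).trans hbig2
  have hC20 : 0 ≤ 40 * C2 := by linarith only [hC2]
  have r1 : 16 * (Real.log (2 / e) + Real.log t) ≤ Real.sqrt t := by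
    refine le_trans ?_ (hb b1 (by linarith only [hb20, hb30, hb40, hC20]))
    rw [hb1, mul_assoc]
    exact mul_le_mul_of_nonneg_left (aux1 hlog2e hlogt) (by norm_num)
  have r2 : A * (1 + Real.log (2 / e) + 3 * Real.log t) ≤ Real.sqrt t := by
    refine le_trans ?_ (hb b2 (by linarith only [hb10, hb30, hb40, hC20]))
    rw [hb2, mul_assoc]
    refine mul_le_mul_of_nonneg_left ?_ (by linarith only [hA])
    have := aux2 hlog2e hlogt
    linarith only [this]
  have r3 : C2 * (4 + Real.log (1 / e) + 3 * Real.log t) ≤ Real.sqrt t := by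
    refine le_trans ?_ (hb b3 (by linarith only [hb10, hb20, hb40, hC20]))
    rw [hb3, mul_assoc]
    exact mul_le_mul_of_nonneg_left (aux2 hloge hlogt) (by linarith only [hC2])
  have r4 : 2 * (N + 5 : ℝ) * (Real.log (1 / e) + Real.log t) ≤ Real.sqrt t := by
    refine le_trans ?_ (hb b4 (by linarith only [hb10, hb20, hb30, hC20]))
    rw [hb4, mul_assoc (2 * (N + 5 : ℝ))]
    exact mul_le_mul_of_nonneg_left (aux1 hloge hlogt) (by positivity)
  have r5 : 40 * (12 + Real.log t) ≤ Real.sqrt t := by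
    refine le_trans ?_ (hb 480 (by linarith only [hb10, hb20, hb30, hb40, hC20]))
    linarith only [hlogt]
  have r6 : 40 * (C2 * (1 + Real.log t)) ≤ Real.sqrt t := by
    refine le_trans (le_of_eq ?_) (hb (40 * C2) (by linarith only [hb10, hb20, hb30, hb40]))
    ring
  obtain ⟨T, hT⟩ : ∃ T : ℝ, T = 1 / e * t := ⟨_, rfl⟩
  have hT50 : 50 * t ≤ T := by
    have h7 : (50 : ℝ) ≤ 1 / e := by
      rw [le_div_iff₀ he0]; linarith only [he50]
    rw [hT]
    exact mul_le_mul_of_nonneg_right h7 ht0.le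
  have hT0 : 0 < T := by linarith only [hT50, ht0]
  have huT : σ ^ 2 * growth d T * Real.log T ≤ 2 * (1 / e) * c := by
    rw [hT]
    exact scale_T he0 (by linarith only [he4, hε1]) hte hu hσ
  obtain ⟨r, hrdef⟩ : ∃ r : ℕ, r = ⌈T⌉₊ := ⟨_, rfl⟩
  have hrT : T ≤ r := by rw [hrdef]; exact Nat.le_ceil T
  have hrT1 : (r : ℝ) < T + 1 := by rw [hrdef]; exact Nat.ceil_lt_add_one hT0.le
  obtain ⟨M', hM'⟩ : ∃ M' : ℕ, M' = 4 * r + 3 := ⟨_, rfl⟩
  have hM'R : (M' : ℝ) = 4 * r + 3 := by rw [hM']; push_cast; ring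
  have hM1 : T + 10 ≤ M' := by linarith only [hM'R, hrT, hT50, ht50]
  have hM2 : (M' : ℝ) ≤ 5 * T := by linarith only [hM'R, hrT1, hT50, ht50]
  obtain ⟨p, hp⟩ : ∃ p : ℝ, p = C0 * (1 + Real.log T) * (M' : ℝ) ^ d *
    Real.exp (-c0 / (σ ^ 2 * growth d T)) := ⟨_, rfl⟩
  have hM0 : (0 : ℝ) < M' := by linarith only [hM'R]
  have hlogTT : 0 ≤ Real.log T := Real.log_nonneg (by linarith only [hT50, htT, hT₀])
  have hp0 : 0 < p := by rw [hp]; positivity
  have hpN : p ≤ 1 / T ^ (N + 5) := by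
    rw [hp]
    refine p_pow5 (N := N + 4) hc0 hC0 hσ (by linarith only [hT50, htT, hT₀]) ?_ hM2 huT (by linarith only [hT50, htb, ht0])
    refine le_trans (le_of_eq ?_) hc2
    push_cast
    ring
  have hT1 : 1 ≤ T := by linarith only [hT50, htT, hT₀]
  have hpow : ∀ m : ℕ, m ≤ N + 5 → p ≤ 1 / T ^ m := fun m hm => by
    refine hpN.trans (one_div_le_one_div_of_le (by positivity) ?_)
    exact pow_le_pow_right₀ hT1 hm
  have hpt1 : p ≤ 1 / T := by
    have := hpow 1 (by omega)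
    rwa [pow_one] at this
  have hp2 : p ≤ 1 / 2 := hpt1.trans (one_div_le_one_div_of_le (by norm_num) (by linarith only [hT50, htT, hT₀]))
  have h1Tt : 1 / T ≤ 1 / t := one_div_le_one_div_of_le ht0 (by linarith only [hT50, ht0])
  have hsq : Real.sqrt p ≤ 1 / t := by
    refine le_trans ?_ h1Tt
    rw [Real.sqrt_le_left (by positivity)]
    refine (hpow 2 (by omega)).trans (le_of_eq ?_)
    rw [div_pow, one_pow]
  have hM3 : 3 ≤ M' := by omega
  obtain ⟨v, hv⟩ : ∃ v : ℝ≥0, (v : ℝ) = σ ^ 2 := ⟨⟨σ ^ 2, sq_nonneg σ⟩, rfl⟩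
  obtain ⟨z, μ, hz, hz3, hμ, hflat, -⟩ := hfle M' v σ T p hσ hσ1 hv hM3 (by linarith only [hT50, htT, hT₀])
    (by linarith only [hM'R, hrT]) hp hp2
  have hσsq : σ ^ 2 ≤ |σ| := by
    rw [← sq_abs, pow_two]
    have := mul_le_mul_of_nonneg_left hσ1 hσ0.le
    linarith only [this]
  have hσsq0 := sq_nonneg σ
  have h1t0 : 0 < 1 / t := by positivity
  have hz2 : |z - 2 * d| ≤ 2 * C0 * (σ ^ 2 + 1 / t) := by
    refine hz.trans ?_
    have h1 : σ ^ 2 + 1 / T + Real.sqrt p ≤ 2 * (σ ^ 2 + 1 / t) := by linarith only [hv, hsq, h1Tt]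
    have := mul_le_mul_of_nonneg_left h1 hC0.le
    linarith only [this]
  have hz11 : |z - 2 * d| ≤ 1 := by
    refine hz2.trans ?_
    have h3 : σ ^ 2 + 1 / t ≤ 2 * c := by linarith only [hσsq, h1tc, hσc]
    calc 2 * C0 * (σ ^ 2 + 1 / t) ≤ 2 * C0 * (2 * c) :=
          mul_le_mul_of_nonneg_left h3 (by positivity)
      _ ≤ 1 := by linarith only [hc5, hc]
  have hz1 : |z| ≤ 2 * d + 1 := by
    have h2 := abs_add_le (z - 2 * d) (2 * d)
    rw [sub_add_cancel, abs_of_nonneg (by positivity : (0 : ℝ) ≤ 2 * d)] at h2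
    linarith only [h2, hz11]
  have hz00 : 0 ≤ z := by
    have := (abs_le.1 hz11).1
    linarith only [this, hdR]
  have hμT : 9 * (1 / e * t) ≤ μ := by rw [← hT]; exact hμ
  have hμ0 : 0 < μ := by linarith only [hμ, hT0]
  have hMT : 1 / e * t + 3 ≤ M' := by rw [← hT]; linarith only [hM1]
  have ht16 : 16 ≤ t := by linarith only [ht50]
  have hpT : p ≤ 1 / (1 / e * t) ^ (N + 5) := by rw [← hT]; exact hpN
  have hpp0 : p ≤ p₀ := hpt1.trans (h1Tt.trans (h1tc.trans hcp))
  have hc12 : c ≤ 1 / 2 := by linarith only [hce2, he50]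
  have hne : NeZero M' := ⟨by omega⟩
  have hflatF : ∀ h : NeZero M', gau d M' v {V | ¬ Flat z μ V} ≤ ENNReal.ofReal p := by
    intro h
    refine (measure_mono ?_).trans (hflat h)
    intro V hV hcon
    refine hV ⟨hcon.1, hcon.2.1, fun x => (hcon.2.2 x).trans ?_⟩
    have := mul_le_mul_of_nonneg_right he50 hμ0.le
    linarith only [this]
  have hflat50 : ∀ h : NeZero M', gau d M' v {V | ¬ FlatE (1 / 50) z μ V} ≤
      ENNReal.ofReal p := by
    intro h
    refine (measure_mono ?_).trans (hflat h)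
    intro V hV hcon
    refine hV ⟨hcon.1, hcon.2.1, fun x => (hcon.2.2 x).trans ?_⟩
    exact mul_le_mul_of_nonneg_right he50 hμ0.le
  have hlow : ∀ E g : ℝ, z + 1 / t ≤ E → LyaAt d σ E g →
      (1 - e) * ((1 - 2 * e) * Real.sqrt (min (E - z) e)) ≤ g := fun E g hE hg =>
    lowZ sgx hd he0 he50 hA hsms hσ hσ1 hv hμ0 hz3 (hflatF hne) hpp0
      hσt ht16 h1te hMT r1 r2 hE hg
  refine ⟨z, ?_, ?_, ?_, ?_, ?_⟩
  · refine hz2.trans ?_
    have h0 : 0 ≤ σ ^ 2 + 1 / t := by positivity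
    exact mul_le_mul_of_nonneg_right (by linarith only [hCx0, hCp1]) h0
  · intro h3t
    have h0 := hexp σ t p z μ v r hσ (hσc.trans hcx) h3t hv (by linarith only [hμ, hT50, ht0])
      (by linarith only [hrT, hT50, ht0]) hp0.le (by
        refine (hpow (8 * d + 3) (by omega)).trans ?_
        refine one_div_le_one_div_of_le (by positivity) ?_
        exact pow_le_pow_left₀ ht0.le (by linarith only [hT50, ht0]) _) (by
        have h1 := hflatF
        rw [hM'] at h1
        exact h1 _)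
    refine h0.trans ?_
    refine mul_le_mul_of_nonneg_right ?_ (Real.rpow_nonneg hσ0.le _)
    linarith only [hC0, hCp1]
  · intro E g hE hg
    refine le_trans ?_ (hlow E g hE hg)
    have hx0 : 0 < E - z := by linarith only [hE, h1t0]
    have h2 := aux6 he0 (by linarith only [he50]) hx0
    have h3 := aux3 he0 he50
    have h4 := Real.sqrt_nonneg (min (E - z) 1)
    calc c * Real.sqrt (min (E - z) 1) ≤ e / 2 * Real.sqrt (min (E - z) 1) :=
          mul_le_mul_of_nonneg_right hce2 h4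
      _ = 1 / 2 * (e * Real.sqrt (min (E - z) 1)) := by ring
      _ ≤ (1 - e) * (1 - 2 * e) * Real.sqrt (min (E - z) e) :=
          mul_le_mul h3 h2 (by positivity) (by linarith only [h3])
      _ = _ := by ring
  · intro E g hE hE2 hg
    have hlam : 0 < E - z := by linarith only [hE, h1t0]
    have hs := Real.sqrt_nonneg (E - z)
    constructor
    · refine le_trans ?_ (hlow E g hE hg)
      rw [min_eq_left (by linarith only [hE2, hce]), ← mul_assoc]
      exact mul_le_mul_of_nonneg_right (aux4 he0 he4) hs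
    · have hE3 : E ≤ z + 1 / 2 := by linarith only [hE2, hc12]
      have h0 := upZ hd he0 he50 hCP hC2 hN hA20 hCU hcdp hupx hσ hσ1 hv hz3 hz1 hμT
        hflat hσt ht16 hMT hp0.le hpT htU r3 r4 r5 r6 hE hE3 hg
      refine h0.trans ?_
      rw [← mul_assoc]
      exact mul_le_mul_of_nonneg_right (aux5 he0 he50 heCP heC) hs
  · intro E g hE hg
    have hpC : p ≤ t ^ (-Cp) := by
      refine (hpow N (by omega)).trans ?_
      have h1 : 1 / T ^ N ≤ 1 / t ^ N :=
        one_div_le_one_div_of_le (by positivity) (pow_le_pow_left₀ ht0.le (by linarith only [hT50, ht0]) _)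
      refine h1.trans ?_
      rw [Real.rpow_neg ht0.le, ← one_div]
      refine one_div_le_one_div_of_le (Real.rpow_pos_of_pos ht0 _) ?_
      rw [← Real.rpow_natCast t N]
      exact Real.rpow_le_rpow_of_exponent_le (by linarith only [htT, hT₀]) hNp
    have h0 := hpen M' v σ t z μ p E g hσ (by linarith only [hσc, hc12]) hv hz00 hz3 hσt htp
      (by linarith only [hμ, hT50, ht0]) (by linarith only [hM1, hT50, ht0]) hflat50 hpC hg
      (hE.trans hc1)
    refine h0.trans ?_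
    have h1 : 0 ≤ Real.sqrt (|E - z| + 1 / t) * Real.log t ^ 2 := by positivity
    calc Cp * Real.sqrt (|E - z| + 1 / t) * Real.log t ^ 2 =
          Cp * (Real.sqrt (|E - z| + 1 / t) * Real.log t ^ 2) := by ring
      _ ≤ (2 * C0 + Cp + Cx) * (Real.sqrt (|E - z| + 1 / t) * Real.log t ^ 2) :=
          mul_le_mul_of_nonneg_right (by linarith only [hC0, hCx0]) h1
      _ = _ := by ring

end Pool.Agent.LE.H93F
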