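import Pool.Agent.Helper93_LSF.QMF

/-!
# Above the effective band edge, for a torus of any size
-/

set_option autoImplicit false

open MeasureTheory ProbabilityTheory Function Filter

open scoped ENNReal BigOperators Topology NNReal

noncomputable section

namespace Pool.Agent.LE.H93F

open Pool.Agent.Anderson Pool.Agent.Loc Pool.Agent.Mob Pool.Agent.Helper54.Bal Pool.Agent.BED
  Pool.Agent.LE.H93W Pool.Agent.LE.H93Z Pool.Agent.LE.CL

/-- the landscape function of a torus of any size gives the effective edge -/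
theorem torus (fle : FleStmt) (sgx : SgxStmt) (sms : SmsStmt) (cdp : CdpStmt) (upx : UpxStmt)
    (d : ℕ) (hd3 : 3 ≤ d) :
    ∃ (e c c0 C0 : ℝ) (Q : ℕ), 0 < e ∧ e ≤ 1 / 50 ∧ 0 < c ∧ c ≤ 1 / 4 ∧ 0 < c0 ∧ 0 < C0 ∧
      ∀ (M' : ℕ) (v : ℝ≥0) (σ t T p : ℝ), σ ≠ 0 → |σ| ≤ c → (v : ℝ) = σ ^ 2 → 1 / |σ| ≤ t →
      T = 1 / e * t → T + 3 ≤ M' →
      p = C0 * (1 + Real.log T) * (M' : ℝ) ^ d * Real.exp (-c0 / (σ ^ 2 * growth d T)) →
      p ≤ 1 / T ^ Q →
      ∃ z μ : ℝ, |z - 2 * d| ≤ C0 * (σ ^ 2 + 1 / T + Real.sqrt p) ∧ z ≤ 2 * d + 1 ∧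
        9 * T ≤ μ ∧
        (∀ h : NeZero M', gau d M' v {V | ¬ FlatE e z μ V} ≤ ENNReal.ofReal p) ∧
        ∀ E g : ℝ, z + 1 / t ≤ E → E ≤ z + c → LyaAt d σ E g →
          1 / 2 * Real.sqrt (E - z) ≤ g ∧ g ≤ 3 / 2 * Real.sqrt (E - z) := by
  obtain ⟨ε, hεd⟩ : ∃ ε : ℝ, ε = 1 / 2 := ⟨_, rfl⟩
  have hε : 0 < ε := by rw [hεd]; norm_num
  have hε1 : ε < 1 := by rw [hεd]; norm_num
  have hd : 1 ≤ d := by omega
  have hdR : (1 : ℝ) ≤ d := by exact_mod_cast hd
  obtain ⟨CP, hCP, hcdp'⟩ := cdp d hd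
  obtain ⟨e, hedef⟩ : ∃ e : ℝ, e = min (min (ε / 4) (ε / (CP + 4))) (min (1 / 50) (1 / CP)) :=
    ⟨_, rfl⟩
  have he0 : 0 < e := by rw [hedef]; positivity
  have he4 : 4 * e ≤ ε := by
    have : e ≤ ε / 4 := by rw [hedef]; exact (min_le_left _ _).trans (min_le_left _ _)
    linarith only [this]
  have heC : e * (CP + 4) ≤ ε := by
    have : e ≤ ε / (CP + 4) := by rw [hedef]; exact (min_le_left _ _).trans (min_le_right _ _)
    rwa [le_div_iff₀ (by positivity)] at this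
  have he50 : e ≤ 1 / 50 := by
    rw [hedef]; exact (min_le_right _ _).trans (min_le_left _ _)
  have heCP : CP * e ≤ 1 := by
    have : e ≤ 1 / CP := by rw [hedef]; exact (min_le_right _ _).trans (min_le_right _ _)
    rw [le_div_iff₀ (by positivity)] at this
    linarith only [heC, he0, hεd]
  obtain ⟨c0, C0, C1, hc0, hC0, hC1, hfle⟩ := fle d e hd3 he0 he50
  obtain ⟨A, p₀, hA, hp₀, hsms⟩ := sms d e hd he0 (by linarith only [he4, hεd])
  obtain ⟨C2, hC2, hcdp⟩ := hcdp' e he0 he50 heCP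
  obtain ⟨A2, CU, hA2, hCU, hupx⟩ := upx d hd
  obtain ⟨N, hN⟩ := exists_nat_ge A2
  have hA20 : 0 ≤ A2 := by linarith only [hA2]
  have hloge : 0 ≤ Real.log (1 / e) := Real.log_nonneg (by
    rw [le_div_iff₀ he0]; linarith only [he4, hεd])
  have hlog2e : 0 ≤ Real.log (2 / e) := Real.log_nonneg (by
    rw [le_div_iff₀ he0]; linarith only [he4, hεd])
  obtain ⟨b1, hb1⟩ : ∃ x : ℝ, x = 16 * (Real.log (2 / e) + 1) := ⟨_, rfl⟩
  obtain ⟨b2, hb2⟩ : ∃ x : ℝ, x = A * (4 + Real.log (2 / e)) := ⟨_, rfl⟩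
  obtain ⟨b3, hb3⟩ : ∃ x : ℝ, x = C2 * (4 + Real.log (1 / e)) := ⟨_, rfl⟩
  obtain ⟨b4, hb4⟩ : ∃ x : ℝ, x = 2 * (N + 5 : ℝ) * (Real.log (1 / e) + 1) := ⟨_, rfl⟩
  have hb10 : 0 ≤ b1 := by rw [hb1]; positivity
  have hb20 : 0 ≤ b2 := by rw [hb2]; positivity
  have hb30 : 0 ≤ b3 := by rw [hb3]; positivity
  have hb40 : 0 ≤ b4 := by rw [hb4]; positivity
  obtain ⟨T₀, hT₀, hlogT⟩ := log_le_sqrt (b1 + b2 + b3 + b4 + 480 + 40 * C2)
  have hT₀0 : 0 < T₀ := by linarith only [hT₀]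
  obtain ⟨c, hcdef⟩ : ∃ c : ℝ, c = min (min (e / 2) p₀) (min (min (1 / 50) (1 / (4 * C0 + 1)))
      (min (1 / T₀) (1 / (2 * CU)))) := ⟨_, rfl⟩
  have hc : 0 < c := by rw [hcdef]; positivity
  have hce2 : c ≤ e / 2 := by
    rw [hcdef]; exact (min_le_left _ _).trans (min_le_left _ _)
  have hcp : c ≤ p₀ := by
    rw [hcdef]; exact (min_le_left _ _).trans (min_le_right _ _)
  have hc4 : 50 * c ≤ 1 := by
    have : c ≤ 1 / 50 := by
      rw [hcdef]; exact (min_le_right _ _).trans ((min_le_left _ _).trans (min_le_left _ _))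
    linarith only [hce2, he50]
  have hc5 : (4 * C0 + 1) * c ≤ 1 := by
    have : c ≤ 1 / (4 * C0 + 1) := by
      rw [hcdef]; exact (min_le_right _ _).trans ((min_le_left _ _).trans (min_le_right _ _))
    rw [le_div_iff₀ (by positivity)] at this
    linarith only [this]
  have hc7 : T₀ * c ≤ 1 := by
    have : c ≤ 1 / T₀ := by
      rw [hcdef]
      exact (min_le_right _ _).trans ((min_le_right _ _).trans (min_le_left _ _))
    rw [le_div_iff₀ (by positivity)] at this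
    linarith only [this]
  have hc8 : 2 * CU * c ≤ 1 := by
    have : c ≤ 1 / (2 * CU) := by
      rw [hcdef]; exact (min_le_right _ _).trans ((min_le_right _ _).trans (min_le_right _ _))
    rw [le_div_iff₀ (by positivity)] at this
    linarith only [this]
  have hce : c ≤ e := by linarith only [hce2, he0]
  refine ⟨e, c, c0, C0, N + 5, he0, he50, hc, by linarith only [hce2, he4, hεd], hc0, hC0, ?_⟩
  intro M' v σ t T p hσ hσc hv hσt hT hMT hp hpN
  have hσ0 : 0 < |σ| := abs_pos.2 hσ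
  have hσ1 : |σ| ≤ 1 := by linarith only [hσc, hce2, he4, hεd]
  have ht1c : 1 / c ≤ t := (one_div_le_one_div_of_le hσ0 hσc).trans hσt
  have hct : 1 ≤ c * t := by
    rw [div_le_iff₀ hc] at ht1c
    linarith only [ht1c]
  have ht0 : 0 < t := lt_of_lt_of_le (by positivity) hσt
  have hbig : ∀ B : ℝ, 0 ≤ B → B * c ≤ 1 → B ≤ t := by
    intro B hB hBc
    have h1 : (B * c) * t ≤ 1 * t := mul_le_mul_of_nonneg_right hBc ht0.le
    have h2 : B * 1 ≤ B * (c * t) := mul_le_mul_of_nonneg_left hct hB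
    linarith only [h2, h1]
  have ht50 : 50 ≤ t := hbig _ (by positivity) hc4
  have htT : T₀ ≤ t := hbig _ (by positivity) hc7
  have htU : 2 * CU ≤ t := hbig _ (by positivity) hc8
  have hte : 1 / e ≤ t := by
    refine hbig _ (by positivity) ?_
    rw [div_mul_eq_mul_div, one_mul, div_le_one he0]
    exact hce
  have h1tc : 1 / t ≤ c := by
    rw [div_le_iff₀ ht0]
    linarith only [hct]
  have h1te : 1 / t ≤ e := h1tc.trans hce
  have hlogt : 0 ≤ Real.log t := Real.log_nonneg (by linarith only [ht50])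
  have hlt1 : 1 ≤ 1 + Real.log t := by linarith only [hlogt]
  have hbig2 := hlogT t htT
  have hsq0 := Real.sqrt_nonneg t
  have hb : ∀ b : ℝ, b ≤ b1 + b2 + b3 + b4 + 480 + 40 * C2 → b * (1 + Real.log t) ≤ Real.sqrt t :=
    fun b hb => (mul_le_mul_of_nonneg_right hb (by linarith only [hlogt])).trans hbig2
  have hC20 : 0 ≤ 40 * C2 := by linarith only [hC2]
  have r1 : 16 * (Real.log (2 / e) + Real.log t) ≤ Real.sqrt t := by
    refine le_trans ?_ (hb b1 (by linarith only [hb20, hb30, hb40, hC20]))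
    rw [hb1, mul_assoc]
    exact mul_le_mul_of_nonneg_left (aux1 hlog2e hlogt) (by norm_num)
  have r2 : A * (1 + Real.log (2 / e) + 3 * Real.log t) ≤ Real.sqrt t := by
    refine le_trans ?_ (hb b2 (by linarith only [hb10, hb30, hb40, hC20]))
    rw [hb2, mul_assoc]
    refine mul_le_mul_of_nonneg_left ?_ (by linarith only [hA])
    have := aux2 hlog2e hlogt
    linarith only [this]
  have r3 : C2 * (4 + Real.log (1 / e) + 3 * Real.log t) ≤ Real.sqrt t := by
    refine le_trans ?_ (hb b3 (by linarith only [hb10, hb20, hb40, hC20]))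
    rw [hb3, mul_assoc]
    exact mul_le_mul_of_nonneg_left (aux2 hloge hlogt) (by linarith only [hC2])
  have r4 : 2 * (N + 5 : ℝ) * (Real.log (1 / e) + Real.log t) ≤ Real.sqrt t := by
    refine le_trans ?_ (hb b4 (by linarith only [hb10, hb20, hb30, hC20]))
    rw [hb4, mul_assoc (2 * (N + 5 : ℝ))]
    exact mul_le_mul_of_nonneg_left (aux1 hloge hlogt) (by positivity)
  have r5 : 40 * (12 + Real.log t) ≤ Real.sqrt t := by
    refine le_trans ?_ (hb 480 (by linarith only [hb10, hb20, hb30, hb40, hC20]))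
    linarith only [hlogt]
  have r6 : 40 * (C2 * (1 + Real.log t)) ≤ Real.sqrt t := by
    refine le_trans (le_of_eq ?_) (hb (40 * C2) (by linarith only [hb10, hb20, hb30, hb40]))
    ring
  have hT50 : 50 * t ≤ T := by
    have h7 : (50 : ℝ) ≤ 1 / e := by
      rw [le_div_iff₀ he0]; linarith only [he50]
    rw [hT]
    exact mul_le_mul_of_nonneg_right h7 ht0.le
  have hT0 : 0 < T := by linarith only [hT50, ht0]
  have hM0 : (0 : ℝ) < M' := by linarith only [hT50, ht0, hMT]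
  have hM'0 : M' ≠ 0 := by
    rintro rfl
    simp at hM0
  have hlogTT : 0 ≤ Real.log T := Real.log_nonneg (by linarith only [hT50, ht50])
  have hp0 : 0 < p := by rw [hp]; positivity
  have hT1 : 1 ≤ T := by linarith only [hT50, ht50]
  have hpow : ∀ m : ℕ, m ≤ N + 5 → p ≤ 1 / T ^ m := fun m hm => by
    refine hpN.trans (one_div_le_one_div_of_le (by positivity) ?_)
    exact pow_le_pow_right₀ hT1 hm
  have hpt1 : p ≤ 1 / T := by
    have := hpow 1 (by omega)
    rwa [pow_one] at this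
  have hp2 : p ≤ 1 / 2 := hpt1.trans (one_div_le_one_div_of_le (by norm_num) (by linarith only [hT50, ht50]))
  have h1Tt : 1 / T ≤ 1 / t := one_div_le_one_div_of_le ht0 (by linarith only [hT50, ht0])
  have hsq : Real.sqrt p ≤ 1 / t := by
    refine le_trans ?_ h1Tt
    rw [Real.sqrt_le_left (by positivity)]
    refine (hpow 2 (by omega)).trans (le_of_eq ?_)
    rw [div_pow, one_pow]
  have hM3 : 3 ≤ M' := by
    have : (3 : ℝ) ≤ M' := by linarith only [hT50, ht0, hMT]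
    exact_mod_cast this
  obtain ⟨z, μ, hz, hz3, hμ, hflat, -⟩ := hfle M' v σ T p hσ hσ1 hv hM3 (by linarith only [hT50, ht50])
    (by linarith only [hMT]) hp hp2
  have hσsq : σ ^ 2 ≤ |σ| := by
    rw [← sq_abs, pow_two]
    have := mul_le_mul_of_nonneg_left hσ1 hσ0.le
    linarith only [this]
  have hσsq0 := sq_nonneg σ
  have h1t0 : 0 < 1 / t := by positivity
  have hz2 : |z - 2 * d| ≤ 2 * C0 * (σ ^ 2 + 1 / t) := by
    refine hz.trans ?_
    have h1 : σ ^ 2 + 1 / T + Real.sqrt p ≤ 2 * (σ ^ 2 + 1 / t) := by linarith only [hsq, h1Tt, hv]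
    have := mul_le_mul_of_nonneg_left h1 hC0.le
    linarith only [this]
  have hz11 : |z - 2 * d| ≤ 1 := by
    refine hz2.trans ?_
    have h3 : σ ^ 2 + 1 / t ≤ 2 * c := by linarith only [hσsq, h1tc, hσc]
    calc 2 * C0 * (σ ^ 2 + 1 / t) ≤ 2 * C0 * (2 * c) :=
          mul_le_mul_of_nonneg_left h3 (by positivity)
      _ ≤ 1 := by linarith only [hc5, hc]
  have hz1 : |z| ≤ 2 * d + 1 := by
    have h2 := abs_add_le (z - 2 * d) (2 * d)
    rw [sub_add_cancel, abs_of_nonneg (by positivity : (0 : ℝ) ≤ 2 * d)] at h2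
    linarith only [h2, hz11]
  have hμT : 9 * (1 / e * t) ≤ μ := by rw [← hT]; exact hμ
  have hμ0 : 0 < μ := by linarith only [hμ, hT0]
  have hMT' : 1 / e * t + 3 ≤ M' := by rw [← hT]; exact hMT
  have ht16 : 16 ≤ t := by linarith only [ht50]
  have hpT : p ≤ 1 / (1 / e * t) ^ (N + 5) := by rw [← hT]; exact hpN
  have hpp0 : p ≤ p₀ := hpt1.trans (h1Tt.trans (h1tc.trans hcp))
  have hc12 : c ≤ 1 / 2 := by linarith only [hce2, he50]
  have hne : NeZero M' := ⟨hM'0⟩
  have hflatF : ∀ h : NeZero M', gau d M' v {V | ¬ Flat z μ V} ≤ ENNReal.ofReal p := by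
    intro h
    refine (measure_mono ?_).trans (hflat h)
    intro V hV hcon
    refine hV ⟨hcon.1, hcon.2.1, fun x => (hcon.2.2 x).trans ?_⟩
    have := mul_le_mul_of_nonneg_right he50 hμ0.le
    linarith only [this]
  have hlow : ∀ E g : ℝ, z + 1 / t ≤ E → LyaAt d σ E g →
      (1 - e) * ((1 - 2 * e) * Real.sqrt (min (E - z) e)) ≤ g := fun E g hE hg =>
    lowZ sgx hd he0 he50 hA hsms hσ hσ1 hv hμ0 hz3 (hflatF hne) hpp0
      hσt ht16 h1te hMT' r1 r2 hE hg
  refine ⟨z, μ, hz, hz3, hμ, hflat, ?_⟩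
  intro E g hE hE2 hg
  have hlam : 0 < E - z := by linarith only [hE, h1t0]
  have hs := Real.sqrt_nonneg (E - z)
  constructor
  · refine le_trans ?_ (hlow E g hE hg)
    rw [min_eq_left (by linarith only [hE2, hce]), ← mul_assoc]
    refine le_trans ?_ (mul_le_mul_of_nonneg_right (aux4 he0 he4) hs)
    rw [hεd]
    exact le_of_eq (by ring)
  · have hE3 : E ≤ z + 1 / 2 := by linarith only [hE2, hc12]
    have h0 := upZ hd he0 he50 hCP hC2 hN hA20 hCU hcdp hupx hσ hσ1 hv hz3 hz1 hμT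
      hflat hσt ht16 hMT' hp0.le hpT htU r3 r4 r5 r6 hE hE3 hg
    refine h0.trans ?_
    rw [← mul_assoc]
    refine (mul_le_mul_of_nonneg_right (aux5 he0 he50 heCP heC) hs).trans ?_
    rw [hεd]
    exact le_of_eq (by ring)

end Pool.Agent.LE.H93F
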